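import Pool.Agent.Helper20.DL.CaseCA
import Pool.Agent.Helper36.DL.Affine

/-! # Affine images: case C, the interface -/

namespace Pool.Agent.Helper20.DL
open Pool.Agent.Helper36.DL Pool.Agent.Helper22.DL

variable {n : ℕ}

/-- **case C** for affine images -/
theorem exists_affC {Z : Set (Fin n → ℂ)} (hrel : HasRel Z) :
    ∃ M : ℕ, 0 < M ∧ ∀ p : ℕ, p.Prime → ¬ p ∣ M → ∀ v : AbsoluteValue ℂ ℝ, IsNonarchimedean v →
      v (p : ℂ) < 1 → ∀ m : ℕ, 1 ≤ m → ∀ lam a : Fin n → ℚ, (∀ i, v (lam i : ℂ) * v (p : ℂ) ^ m = 1) →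
        (∀ i, v (a i : ℂ) * v (p : ℂ) ^ m ≤ v (p : ℂ)) → AffC v Z lam a := by
  obtain ⟨M, hM, h⟩ := exists_caseCA hrel
  exact ⟨M, hM, fun p hp hpM v hv hvp m hm lam a hlam ha =>
    h p hp hpM v hv hvp m hm lam a hlam fun i => (ha i).trans_lt hvp⟩

end Pool.Agent.Helper20.DL
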