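import Pool.Agent.Helper20.DL.Exc3
import Pool.Agent.Helper22.DL.CaseAB

/-! # Dilates: case C -/

open Finset

namespace Pool.Agent.Helper20.DL
open Pool.Agent.Helper11.ZP Pool.Agent.Helper11.ZU Pool.Agent.Helper20.ZD Pool.Agent.Helper11.LC
  Pool.Agent.Helper69.DL Pool.Agent.Helper36.DL Pool.Agent.Helper22.DL

variable {n : ℕ} {v : AbsoluteValue ℂ ℝ}

lemma v_int_one (hv : IsNonarchimedean v) {p : ℕ} (hp : p.Prime) (hvp : v (p : ℂ) < 1) {k : ℤ}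
    (hk : ¬ (p : ℤ) ∣ k) : v (k : ℂ) = 1 := by
  have h1 : ¬ p ∣ k.natAbs := fun h => hk (Int.natCast_dvd.2 h)
  have h2 := v_nat_eq_one hv hp hvp h1
  rcases Int.natAbs_eq k with h | h
  · rw [h, Int.cast_natCast]; exact h2
  · rw [h, Int.cast_neg, Int.cast_natCast, map_neg_eq_map]; exact h2

/-- the shape of an isogeny between `x_e` and `x_j`, `v(z_e) ≠ 1`, `v(z_j) = 1` -/
lemma pair_exc (hv : IsNonarchimedean v) {c : ℝ} (hc0 : 0 < c) (hc : c < 1) {P le lj : ℂ} (hP : v P = c)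
    (hle : v le * c = 1) (hlj : v lj * c = 1) {ze zj : ℂ} (hze : v ze ≠ 1) (hzj : v zj = 1)
    (hbe : 1 < v (le * ze)) {N : ℕ} (hN : 0 < N) (h : CyclicIsog N (le * ze) (lj * zj)) :
    ∃ (a d : ℕ) (ζ' ε : ℂ) (s : ℤ), (s = 1 ∨ s = -1) ∧ v (ze ^ s) < 1 ∧ 0 < a ∧ 0 < d ∧ Nat.Coprime a d ∧
      v (ze ^ s) ^ a = c ^ d ∧
      (P * lj * zj) ^ d * (ze ^ s) ^ a = ζ' * P ^ d * ((lj / le * zj) ^ s) ^ a * (1 + ε) ∧
      (∃ j, 0 < j ∧ ζ' ^ j = 1) ∧ v ε * v (ze ^ s) ≤ c := by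
  have ve : v le = c⁻¹ := eq_inv_of_mul_eq_one_left hle
  have vj : v lj = c⁻¹ := eq_inv_of_mul_eq_one_left hlj
  have hc1 : 1 < c⁻¹ := (one_lt_inv₀ hc0).2 hc
  have hle0 : le ≠ 0 := by
    rintro rfl
    rw [map_zero, zero_mul] at hle
    exact zero_ne_one hle
  have hlj0 : lj ≠ 0 := by
    rintro rfl
    rw [map_zero, zero_mul] at hlj
    exact zero_ne_one hlj
  have hP0 : P ≠ 0 := by
    rintro rfl
    rw [map_zero] at hP
    exact hc0.ne hP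
  have hze0 : ze ≠ 0 := by
    rintro rfl
    rw [mul_zero, map_zero] at hbe
    exact absurd hbe (not_lt.2 zero_le_one)
  have hzj0 : zj ≠ 0 := by
    rintro rfl
    rw [map_zero] at hzj
    exact zero_ne_one hzj
  have hxj : v (lj * zj) = c⁻¹ := by rw [map_mul, vj, hzj, mul_one]
  have hxe : v (le * ze) = c⁻¹ * v ze := by rw [map_mul, ve]
  have h0e : 0 < v ze := (AbsoluteValue.pos_iff v).2 hze0
  obtain ⟨b, a, g, ζ, hb, ha, hcop, hg, hval, -, hζ, hnear⟩ := pair_shape hv (ρ := 0) zero_lt_one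
    (c := le * ze) (c' := lj * zj) (x := le * ze) (y := lj * zj) hbe (by rw [hxj]; exact hc1) hN
    (by simp) (by simp) h
  rw [max_eq_right (le_max_of_le_left (inv_nonneg.2 (v.nonneg _)))] at hnear
  have vζ : v ζ = 1 := val_root hg hζ.pow_eq_one
  have hζ0 : ζ ≠ 0 := by
    rintro rfl
    rw [map_zero] at vζ
    exact zero_ne_one vζ
  set X := (le * ze) ^ a with hX
  set Y := (lj * zj) ^ b with hY
  have hY0 : Y ≠ 0 := pow_ne_zero _ (mul_ne_zero hlj0 hzj0)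
  have hX0 : X ≠ 0 := pow_ne_zero _ (mul_ne_zero hle0 hze0)
  -- `X = ζ Y (1 + ε)`
  set ε : ℂ := X / (ζ * Y) - 1 with hε
  have hXY : X = ζ * Y * (1 + ε) := by
    rw [hε]
    field_simp
    ring
  have vε : v ε ≤ max (v (le * ze))⁻¹ (v (lj * zj))⁻¹ := by
    have h1 : ε = -((ζ - X / Y) / ζ) := by
      rw [hε]
      field_simp
      ring
    rw [h1, v_neg, map_div₀, vζ, div_one]
    exact hnear
  rw [hxe, hxj, inv_inv, mul_inv, inv_inv] at vε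
  -- the absolute values
  have hval' : (c⁻¹ * v ze) ^ a = c⁻¹ ^ b := by rw [← hxe, ← hxj]; exact hval
  rcases lt_or_gt_of_ne hze with hlt | hgt
  · -- `v ze < 1`
    have hab : b < a := by
      by_contra hcon
      push Not at hcon
      have h1 : (c⁻¹ * v ze) ^ a < c⁻¹ ^ a := by
        refine pow_lt_pow_left₀ ?_ (mul_nonneg (inv_nonneg.2 hc0.le) h0e.le) ha.ne'
        have := inv_pos.2 hc0
        nlinarith
      have h2 : c⁻¹ ^ a ≤ c⁻¹ ^ b := pow_le_pow_right₀ hc1.le hcon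
      rw [hval'] at h1
      linarith
    obtain ⟨d, rfl⟩ : ∃ d, a = b + d := ⟨a - b, by omega⟩
    have hd : 0 < d := by omega
    refine ⟨b + d, d, ζ, ε, 1, Or.inl rfl, ?_, ha, hd, ?_, ?_, ?_, ⟨g, hg, hζ.pow_eq_one⟩, ?_⟩
    · rw [zpow_one]; exact hlt
    · rw [Nat.coprime_add_self_left]
      exact Nat.coprime_self_add_right.1 hcop
    · rw [zpow_one]
      rw [mul_pow, pow_add c⁻¹, inv_pow, inv_pow] at hval'
      have hcb : c ^ b ≠ 0 := pow_ne_zero _ hc0.ne'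
      have hcd : c ^ d ≠ 0 := pow_ne_zero _ hc0.ne'
      field_simp at hval'
      linarith
    · rw [zpow_one, zpow_one]
      have h1 : (le * ze) ^ (b + d) = ζ * (lj * zj) ^ b * (1 + ε) := hXY
      have h2 : le ^ (b + d) ≠ 0 := pow_ne_zero _ hle0
      have h3 : (P * lj * zj) ^ d * ze ^ (b + d) = P ^ d * (lj * zj) ^ d * ((le * ze) ^ (b + d)) / le ^ (b + d) := by
        rw [mul_pow le ze, mul_assoc P, mul_pow P]
        field_simp
      rw [h3, h1, mul_pow (lj / le), div_pow]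
      field_simp
      ring
    · rw [zpow_one]
      have h1 : max (c * (v ze)⁻¹) c = c * (v ze)⁻¹ := by
        refine max_eq_left ?_
        have : 1 ≤ (v ze)⁻¹ := (one_le_inv₀ h0e).2 hlt.le
        nlinarith
      rw [h1] at vε
      calc v ε * v ze ≤ c * (v ze)⁻¹ * v ze := mul_le_mul_of_nonneg_right vε h0e.le
        _ = c := by field_simp
  · -- `1 < v ze`
    have hab : a < b := by
      by_contra hcon
      push Not at hcon
      have h1 : c⁻¹ ^ a < (c⁻¹ * v ze) ^ a := by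
        refine pow_lt_pow_left₀ ?_ (inv_nonneg.2 hc0.le) ha.ne'
        have := inv_pos.2 hc0
        nlinarith
      have h2 : c⁻¹ ^ b ≤ c⁻¹ ^ a := pow_le_pow_right₀ hc1.le hcon
      rw [hval'] at h1
      linarith
    obtain ⟨d, rfl⟩ : ∃ d, b = a + d := ⟨b - a, by omega⟩
    have hd : 0 < d := by omega
    have vε1 : v ε < 1 := by
      refine lt_of_le_of_lt vε (max_lt ?_ hc)
      have : (v ze)⁻¹ < 1 := inv_lt_one_of_one_lt₀ hgt
      have h2 : 0 < (v ze)⁻¹ := inv_pos.2 h0e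
      nlinarith
    have v1ε : v (1 + ε) = 1 := v_one_of_near hv (by rw [add_sub_cancel_left]; exact vε1)
    have h1ε : 1 + ε ≠ 0 := by
      intro h0
      rw [h0, map_zero] at v1ε
      exact zero_ne_one v1ε
    have hvinv : v ze⁻¹ < 1 := by rw [map_inv₀]; exact inv_lt_one_of_one_lt₀ hgt
    refine ⟨a, d, ζ⁻¹, (1 + ε)⁻¹ - 1, -1, Or.inr rfl, ?_, ha, hd, ?_, ?_, ?_, ⟨g, hg, ?_⟩, ?_⟩
    · rw [zpow_neg_one]; exact hvinv
    · exact (Nat.coprime_self_add_left.1 hcop).symm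
    · rw [zpow_neg_one, map_inv₀]
      rw [mul_pow, pow_add c⁻¹, inv_pow, inv_pow] at hval'
      have hca : c ^ a ≠ 0 := pow_ne_zero _ hc0.ne'
      have hcd : c ^ d ≠ 0 := pow_ne_zero _ hc0.ne'
      have hva : v ze ^ a ≠ 0 := pow_ne_zero _ h0e.ne'
      have h2 : v ze ^ a = (c ^ d)⁻¹ := mul_left_cancel₀ (inv_ne_zero hca) hval'
      rw [inv_pow, h2, inv_inv]
    · have h1 : (le * ze) ^ a = ζ * (lj * zj) ^ (a + d) * (1 + ε) := hXY
      have h2 : le ^ a ≠ 0 := pow_ne_zero _ hle0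
      have h3 : ze ^ a ≠ 0 := pow_ne_zero _ hze0
      have h4 : lj ^ a ≠ 0 := pow_ne_zero _ hlj0
      have h5 : zj ^ a ≠ 0 := pow_ne_zero _ hzj0
      have h6 : (le * ze) ^ a ≠ 0 := hX0
      rw [zpow_neg_one, zpow_neg_one, inv_pow, inv_pow, add_sub_cancel]
      have h7 : (P * lj * zj) ^ d * (ze ^ a)⁻¹ = P ^ d * (lj * zj) ^ d * le ^ a / ((le * ze) ^ a) := by
        rw [mul_pow le ze, mul_assoc P, mul_pow P]
        field_simp
      rw [h7, h1, mul_pow (lj / le), div_pow, pow_add (lj * zj), mul_pow lj zj a]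
      have h8 : (lj * zj) ^ d ≠ 0 := pow_ne_zero _ (mul_ne_zero hlj0 hzj0)
      field_simp
    · rw [inv_pow, hζ.pow_eq_one, inv_one]
    · have h1 : (1 + ε)⁻¹ - 1 = -(ε * (1 + ε)⁻¹) := by
        field_simp
        ring
      rw [h1, v_neg, map_mul, map_inv₀, v1ε, inv_one, mul_one, zpow_neg_one]
      have h2 : max (c * (v ze)⁻¹) c = c := by
        refine max_eq_right ?_
        have : (v ze)⁻¹ < 1 := inv_lt_one_of_one_lt₀ hgt
        nlinarith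
      rw [h2] at vε
      calc v ε * v ze⁻¹ ≤ c * 1 := mul_le_mul vε hvinv.le (v.nonneg _) hc0.le
        _ = c := mul_one c

/-- the exponent vector `s e_i` -/
lemma prod_single (z : Fin n → ℂ) (i : Fin n) (s : ℤ) : ∏ t, z t ^ (Pi.single i s : Fin n → ℤ) t = z i ^ s := by
  classical
  rw [Finset.prod_eq_single i]
  · rw [Pi.single_eq_same]
  · intro t _ ht
    rw [Pi.single_eq_of_ne ht, zpow_zero]
  · intro h
    exact absurd (mem_univ i) h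

lemma single_indep {i j : Fin n} (hij : i ≠ j) {s : ℤ} (hs : s ≠ 0) (a b : ℤ)
    (h : ∀ q, a * (Pi.single i s : Fin n → ℤ) q + b * (Pi.single j 1 : Fin n → ℤ) q = 0) : a = 0 ∧ b = 0 := by
  have h1 := h i
  have h2 := h j
  rw [Pi.single_eq_same, Pi.single_eq_of_ne hij, mul_zero, add_zero] at h1
  rw [Pi.single_eq_same, Pi.single_eq_of_ne hij.symm, mul_zero, zero_add, mul_one] at h2
  exact ⟨(mul_eq_zero.1 h1).resolve_right hs, h2⟩

lemma single_diff_indep {e k l : Fin n} (hel : e ≠ l) (hkl : k ≠ l) {s : ℤ} (hs : s ≠ 0) (a b : ℤ)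
    (h : ∀ q, a * (Pi.single e s : Fin n → ℤ) q + b * diff k l q = 0) : a = 0 ∧ b = 0 := by
  have h1 := h l
  rw [Pi.single_eq_of_ne hel.symm, mul_zero, zero_add] at h1
  simp only [diff, if_neg hkl.symm, if_true] at h1
  have hb : b = 0 := by linarith
  subst hb
  have h2 := h e
  rw [Pi.single_eq_same, zero_mul, add_zero] at h2
  exact ⟨(mul_eq_zero.1 h2).resolve_right hs, rfl⟩

lemma botUnit_of (hv : IsNonarchimedean v) {p : ℕ} (hp : p.Prime) (hvp : v (p : ℂ) < 1)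
    {H : MvPolynomial (Fin 2) ℤ} (hg : GoodRel v p H) : BotUnit v H := by
  obtain ⟨m, h0, h1⟩ := hg.bot₀
  exact ⟨m, h0, v_int_one hv hp hvp h1⟩

lemma rowUnit_of (hv : IsNonarchimedean v) {p : ℕ} (hp : p.Prime) (hvp : v (p : ℂ) < 1)
    {H : MvPolynomial (Fin 2) ℤ} (hg : GoodRel v p H) : RowUnit v H := by
  refine ⟨botUnit_of hv hp hvp hg, ?_⟩
  obtain ⟨m, h0, h1⟩ := hg.top₀
  refine ⟨m, v_int_one hv hp hvp h1, fun m' hm' => ?_⟩
  rw [h0]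
  exact MvPolynomial.monomial_le_degreeOf 0 hm'

/-- **case C** for one quadruple of indices and one sign -/
lemma caseC_one (hv : IsNonarchimedean v) {p : ℕ} (hp : p.Prime) (hvp : v (p : ℂ) < 1) {m : ℕ} (hm : 2 ≤ m)
    {lam : Fin n → ℚ} (hlam : ∀ i, v (lam i : ℂ) * v (p : ℂ) ^ m = 1) {Z : Set (Fin n → ℂ)}
    {e j k l : Fin n} {s : ℤ} (hs : s = 1 ∨ s = -1) {H₁ H₂ F Fk Fl : MvPolynomial (Fin 2) ℤ}
    (h1 : Holds H₁ Z (Pi.single e s) (diff k l)) (g1 : GoodRel v p H₁)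
    (h2 : Holds H₂ Z (Pi.single j 1) (diff k l)) (g2 : GoodRel v p H₂)
    (h3 : Holds F Z (Pi.single e s) (Pi.single j 1)) (g3 : GoodRel v p F)
    (h4 : Holds Fk Z (Pi.single e s) (Pi.single k 1)) (g4 : GoodRel v p Fk)
    (h5 : Holds Fl Z (Pi.single e s) (Pi.single l 1)) (g5 : GoodRel v p Fl) :
    ∃ B : ℕ, ∀ z ∈ Z, ∀ (N' : ℕ) (a d : ℕ) (ζ' ε : ℂ), z e ≠ 0 → v (z j) = 1 → v (z k) = 1 → v (z l) = 1 →
      CyclicIsog N' (lam k * z k) (lam l * z l) → v (z e ^ s) < 1 → 0 < a → 0 < d → Nat.Coprime a d →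
      v (z e ^ s) ^ a = (v (p : ℂ) ^ m) ^ d →
      ((p : ℂ) ^ m * lam j * z j) ^ d * (z e ^ s) ^ a =
        ζ' * ((p : ℂ) ^ m) ^ d * ((lam j / lam e * z j) ^ s) ^ a * (1 + ε) →
      (∃ j, 0 < j ∧ ζ' ^ j = 1) → v ε * v (z e ^ s) ≤ v (p : ℂ) ^ m → N' ≤ B := by
  have hp0 : 0 < v (p : ℂ) := AbsoluteValue.pos_iff v |>.2 (by exact_mod_cast hp.ne_zero)
  have hc0 : 0 < v (p : ℂ) ^ m := pow_pos hp0 m
  have hc : v (p : ℂ) ^ m < 1 := pow_lt_one₀ hp0.le hvp (by omega)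
  have hl : ∀ i, v (lam i : ℂ) = (v (p : ℂ) ^ m)⁻¹ := fun i => eq_inv_of_mul_eq_one_left (hlam i)
  have hμ : ∀ i j, v (((lam j / lam i : ℚ) : ℂ)) = 1 := fun i j => by
    push_cast
    rw [map_div₀, hl, hl, div_self (inv_ne_zero hc0.ne')]
  have hA : v ((((p : ℚ) ^ m * lam j : ℚ)) : ℂ) = 1 := by
    push_cast
    rw [map_mul, map_pow, mul_comm]
    exact hlam j
  set D := max H₁.totalDegree (max H₂.totalDegree F.totalDegree) with hD
  have hpD : 64 * D ^ 2 ≤ p := by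
    have e1 := g1.large
    have e2 := g2.large
    have e3 := g3.large
    have key : ∀ t : ℕ, 64 * (t + 1) ^ 2 ≤ p → 64 * t ^ 2 ≤ p := fun t ht =>
      le_trans (Nat.mul_le_mul_left 64 (Nat.pow_le_pow_left (Nat.le_succ t) 2)) ht
    rcases max_choice H₁.totalDegree (max H₂.totalDegree F.totalDegree) with h | h
    · rw [hD, h]; exact key _ e1
    · rcases max_choice H₂.totalDegree F.totalDegree with h' | h'
      · rw [hD, h, h']; exact key _ e2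
      · rw [hD, h, h']; exact key _ e3
  have hp4 : 4 ≤ p := by
    have e1 := g1.large
    have e2 : 1 ≤ (H₁.totalDegree + 1) ^ 2 := Nat.one_le_pow _ _ (by omega)
    omega
  have hdeg : ∀ {H : MvPolynomial (Fin 2) ℤ}, H.totalDegree ≤ D → ∀ m ∈ H.support, m 0 ≤ D ∧ m 1 ≤ D := by
    intro H hH m hm
    have := supp_le hH hm
    omega
  obtain ⟨G₀, hG⟩ := exc_bounded hv hp hp4 hvp (m := m) hpD (hμ k l) (hμ e j) hA
    (hdeg (le_max_left _ _)) (rowUnit_of hv hp hvp g1)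
    (hdeg ((le_max_left _ _).trans (le_max_right _ _))) g2.noCoset
    (fun m hm => (hdeg ((le_max_right _ _).trans (le_max_right _ _)) m hm).2) (botUnit_of hv hp hvp g3)
    (botUnit_of hv hp hvp g4) (botUnit_of hv hp hvp g5)
  refine ⟨G₀ ^ 2, ?_⟩
  intro z hz N' a d ζ' ε he hj hk hl' hN' hw ha hd hcop hwa hrel hζ' hε
  have hz0 : ∀ {q}, v (z q) = 1 → z q ≠ 0 := fun {q} hq h0 => by
    rw [h0, map_zero] at hq
    exact zero_ne_one hq
  obtain ⟨g, ζ, a1, a2, a3, a4⟩ := ratio_near hv hc0 hc hlam hk hl' hN'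
  have hc1 : v (p : ℂ) ^ m ≤ v (p : ℂ) := by
    calc v (p : ℂ) ^ m ≤ v (p : ℂ) ^ 1 := pow_le_pow_of_le_one hp0.le hvp.le (by omega)
      _ = _ := pow_one _
  have hc2 : v (p : ℂ) ^ m ≤ v (p : ℂ) ^ 2 := pow_le_pow_of_le_one hp0.le hvp.le hm
  have hs1 : ∀ q, z q = 0 → (Pi.single e s : Fin n → ℤ) q = 0 := by
    intro q hq
    have hqe : q ≠ e := fun h => he (by rw [← h]; exact hq)
    rw [Pi.single_eq_of_ne hqe]
  have hs2 : ∀ {r}, v (z r) = 1 → ∀ q, z q = 0 → (Pi.single r 1 : Fin n → ℤ) q = 0 := by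
    intro r hr q hq
    have hqr : q ≠ r := fun h => hz0 hr (by rw [← h]; exact hq)
    rw [Pi.single_eq_of_ne hqr]
  have hs3 : ∀ q, z q = 0 → diff k l q = 0 := by
    intro q hq
    have hne : ∀ {r}, v (z r) = 1 → q ≠ r := fun {r} hr h => hz0 hr (h ▸ hq)
    unfold diff
    simp [hne hk, hne hl']
  have k1 := h1 z hz (fun q hq => ⟨(hs1 q hq).ge, (hs3 q hq).ge⟩)
  have k2 := h2 z hz (fun q hq => ⟨(hs2 hj q hq).ge, (hs3 q hq).ge⟩)
  have k3 := h3 z hz (fun q hq => ⟨(hs1 q hq).ge, (hs2 hj q hq).ge⟩)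
  have k4 := h4 z hz (fun q hq => ⟨(hs1 q hq).ge, (hs2 hk q hq).ge⟩)
  have k5 := h5 z hz (fun q hq => ⟨(hs1 q hq).ge, (hs2 hl' q hq).ge⟩)
  rw [prod_single, prod_diff z (hz0 hk) (hz0 hl')] at k1 k2
  rw [prod_single, prod_single] at k3 k4 k5
  rw [zpow_one] at k2 k3 k4 k5
  have hfin := hG (z e ^ s) (z j) (z k) (z l) ζ ζ' ε a d g s (zpow_ne_zero _ he) hw hj hk hl' k1 k2 k3 k4 k5
    (a4.trans hc1) a1 a3 ha hd hcop (by rw [hwa, ← pow_mul]) hs (by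
      push_cast
      rw [hrel, ← pow_mul]) hζ' (hε.trans hc2)
  rw [a2]
  exact Nat.pow_le_pow_left hfin 2

/-- **case C** -/
theorem exists_caseC {Z : Set (Fin n → ℂ)} (hrel : HasRel Z) :
    ∃ M : ℕ, 0 < M ∧ ∀ p : ℕ, p.Prime → ¬ p ∣ M → ∀ v : AbsoluteValue ℂ ℝ,
      IsNonarchimedean v → v (p : ℂ) < 1 → ∀ m : ℕ, 2 ≤ m → ∀ lam : Fin n → ℚ,
        (∀ i, v (lam i : ℂ) * v (p : ℂ) ^ m = 1) → CaseC v Z lam := by
  classical
  let ι := (Fin n × Fin n × Fin n × Fin n) × Bool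
  let sg : Bool → ℤ := fun b => if b then 1 else -1
  have hsg : ∀ b, sg b = 1 ∨ sg b = -1 := fun b => by cases b <;> simp [sg]
  have hsg0 : ∀ b, sg b ≠ 0 := fun b => by cases b <;> simp [sg]
  have h1 : ∀ q : ι, ∃ (H₁ H₂ F Fk Fl : MvPolynomial (Fin 2) ℤ) (M : ℕ), 0 < M ∧
      (q.1.1 ≠ q.1.2.1 → q.1.1 ≠ q.1.2.2.1 → q.1.1 ≠ q.1.2.2.2 → q.1.2.2.1 ≠ q.1.2.2.2 →
        q.1.2.2.2 ≠ q.1.2.1 →
        (Holds H₁ Z (Pi.single q.1.1 (sg q.2)) (diff q.1.2.2.1 q.1.2.2.2) ∧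
        Holds H₂ Z (Pi.single q.1.2.1 1) (diff q.1.2.2.1 q.1.2.2.2) ∧
        Holds F Z (Pi.single q.1.1 (sg q.2)) (Pi.single q.1.2.1 1) ∧
        Holds Fk Z (Pi.single q.1.1 (sg q.2)) (Pi.single q.1.2.2.1 1) ∧
        Holds Fl Z (Pi.single q.1.1 (sg q.2)) (Pi.single q.1.2.2.2 1)) ∧
        ∀ p : ℕ, p.Prime → ¬ p ∣ M → ∀ v : AbsoluteValue ℂ ℝ, IsNonarchimedean v → v (p : ℂ) < 1 →
          GoodRel v p H₁ ∧ GoodRel v p H₂ ∧ GoodRel v p F ∧ GoodRel v p Fk ∧ GoodRel v p Fl) := by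
    rintro ⟨⟨e, j, k, l⟩, b⟩
    by_cases h : e ≠ j ∧ e ≠ k ∧ e ≠ l ∧ k ≠ l ∧ l ≠ j
    · obtain ⟨hej, hek, hel, hkl, hlj⟩ := h
      obtain ⟨H₁, M₁, a1, a2, a3⟩ := hrel (Pi.single e (sg b)) (diff k l) (single_diff_indep hel hkl (hsg0 b))
      obtain ⟨H₂, M₂, b1, b2, b3⟩ := hrel (Pi.single j 1) (diff k l) (single_diff_indep hlj.symm hkl one_ne_zero)
      obtain ⟨F, M₃, c1, c2, c3⟩ := hrel (Pi.single e (sg b)) (Pi.single j 1) (single_indep hej (hsg0 b))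
      obtain ⟨Fk, M₄, d1, d2, d3⟩ := hrel (Pi.single e (sg b)) (Pi.single k 1) (single_indep hek (hsg0 b))
      obtain ⟨Fl, M₅, e1, e2, e3⟩ := hrel (Pi.single e (sg b)) (Pi.single l 1) (single_indep hel (hsg0 b))
      refine ⟨H₁, H₂, F, Fk, Fl, M₁ * M₂ * M₃ * M₄ * M₅, by positivity, fun _ _ _ _ _ =>
        ⟨⟨a2, b2, c2, d2, e2⟩, fun p hp hpM v hv hvp => ⟨a3 p hp ?_ v hv hvp, b3 p hp ?_ v hv hvp,
          c3 p hp ?_ v hv hvp, d3 p hp ?_ v hv hvp, e3 p hp ?_ v hv hvp⟩⟩⟩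
      · exact fun h => hpM ((((h.mul_right _).mul_right _).mul_right _).mul_right _)
      · exact fun h => hpM ((((h.mul_left _).mul_right _).mul_right _).mul_right _)
      · exact fun h => hpM (((h.mul_left _).mul_right _).mul_right _)
      · exact fun h => hpM ((h.mul_left _).mul_right _)
      · exact fun h => hpM (h.mul_left _)
    · exact ⟨0, 0, 0, 0, 0, 1, one_pos, fun a b c d e => absurd ⟨a, b, c, d, e⟩ h⟩
  choose H₁ H₂ F Fk Fl M hM h1 using h1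
  refine ⟨∏ q, M q, prod_pos fun q _ => hM q, fun p hp hpM v hv hvp m hm lam hlam => ?_⟩
  have hpM' : ∀ q, ¬ p ∣ M q := fun q h => hpM (h.trans (dvd_prod_of_mem M (mem_univ q)))
  have hp0 : 0 < v (p : ℂ) := AbsoluteValue.pos_iff v |>.2 (by exact_mod_cast hp.ne_zero)
  have hc0 : 0 < v (p : ℂ) ^ m := pow_pos hp0 m
  have hc : v (p : ℂ) ^ m < 1 := pow_lt_one₀ hp0.le hvp (by omega)
  have h2 : ∀ q : ι, ∃ B : ℕ, q.1.1 ≠ q.1.2.1 → q.1.1 ≠ q.1.2.2.1 → q.1.1 ≠ q.1.2.2.2 →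
      q.1.2.2.1 ≠ q.1.2.2.2 → q.1.2.2.2 ≠ q.1.2.1 → ∀ z ∈ Z, ∀ (N' : ℕ) (a d : ℕ) (ζ' ε : ℂ),
      z q.1.1 ≠ 0 → v (z q.1.2.1) = 1 → v (z q.1.2.2.1) = 1 → v (z q.1.2.2.2) = 1 →
      CyclicIsog N' (lam q.1.2.2.1 * z q.1.2.2.1) (lam q.1.2.2.2 * z q.1.2.2.2) →
      v (z q.1.1 ^ sg q.2) < 1 → 0 < a → 0 < d → Nat.Coprime a d →
      v (z q.1.1 ^ sg q.2) ^ a = (v (p : ℂ) ^ m) ^ d →
      ((p : ℂ) ^ m * lam q.1.2.1 * z q.1.2.1) ^ d * (z q.1.1 ^ sg q.2) ^ a =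
        ζ' * ((p : ℂ) ^ m) ^ d * ((lam q.1.2.1 / lam q.1.1 * z q.1.2.1) ^ sg q.2) ^ a * (1 + ε) →
      (∃ j, 0 < j ∧ ζ' ^ j = 1) → v ε * v (z q.1.1 ^ sg q.2) ≤ v (p : ℂ) ^ m → N' ≤ B := by
    intro q
    by_cases h : q.1.1 ≠ q.1.2.1 ∧ q.1.1 ≠ q.1.2.2.1 ∧ q.1.1 ≠ q.1.2.2.2 ∧ q.1.2.2.1 ≠ q.1.2.2.2 ∧
        q.1.2.2.2 ≠ q.1.2.1
    · obtain ⟨a1, a2, a3, a4, a5⟩ := h
      obtain ⟨⟨b1, b2, b3, b4, b5⟩, hgood⟩ := h1 q a1 a2 a3 a4 a5
      obtain ⟨c1, c2, c3, c4, c5⟩ := hgood p hp (hpM' q) v hv hvp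
      obtain ⟨B, hB⟩ := caseC_one hv hp hvp hm hlam (hsg q.2) b1 c1 b2 c2 b3 c3 b4 c4 b5 c5
      exact ⟨B, fun _ _ _ _ _ => hB⟩
    · exact ⟨0, fun a b c d e => absurd ⟨a, b, c, d, e⟩ h⟩
  choose B hB using h2
  refine ⟨univ.sup B, fun z hz e j k l N N' he hj hk hl hbe hej hek hel hkl hlj hN hN' => ?_⟩
  have hNpos : 0 < N := Nat.pos_of_ne_zero fun h0 => not_isog_zero (h0 ▸ hN)
  have hze0 : z e ≠ 0 := by
    intro h0
    rw [h0, mul_zero, map_zero] at hbe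
    exact absurd hbe (not_lt.2 zero_le_one)
  obtain ⟨a, d, ζ', ε, s, hs, k1, k2, k3, k4, k5, k6, k7, k8⟩ := pair_exc hv hc0 hc (P := (p : ℂ) ^ m)
    (by rw [map_pow]) (hlam e) (hlam j) he hj hbe hNpos hN
  obtain ⟨b, rfl⟩ : ∃ b, sg b = s := by
    rcases hs with rfl | rfl
    · exact ⟨true, rfl⟩
    · exact ⟨false, rfl⟩
  exact (hB ((e, j, k, l), b) hej hek hel hkl hlj z hz N' a d ζ' ε hze0 hj hk hl hN' k1 k2 k3 k4 k5 k6 k7
    k8).trans (Finset.le_sup (mem_univ ((e, j, k, l), b)))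

end Pool.Agent.Helper20.DL
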