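import Pool.Agent.Helper20.DL.ExcA
import Pool.Agent.Helper20.DL.CaseC

/-! # Affine images: case C -/

open Finset

namespace Pool.Agent.Helper20.DL
open Pool.Agent.Helper11.ZP Pool.Agent.Helper11.ZU Pool.Agent.Helper20.ZD Pool.Agent.Helper11.LC
  Pool.Agent.Helper69.DL Pool.Agent.Helper36.DL Pool.Agent.Helper22.DL

variable {n : ℕ} {v : AbsoluteValue ℂ ℝ}

/-- the shape of an isogeny between `x_e = l_e z_e + a_e` and `x_j`, `v(z_e) ≠ 1`, `v(z_j) = 1` -/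
lemma pair_excA (hv : IsNonarchimedean v) {c κ : ℝ} (hc0 : 0 < c) (hcκ : c ≤ κ) (hκ : κ < 1)
    {P le lj ae aj : ℂ} (hP : v P = c) (hle : v le * c = 1) (hlj : v lj * c = 1)
    (hae : v (ae / le) ≤ κ) (haj : v (aj / lj) ≤ κ) {ze zj : ℂ} (hze : v ze ≠ 1) (hzj : v zj = 1)
    (hbe : 1 < v (le * ze + ae)) {N : ℕ} (hN : 0 < N) (h : CyclicIsog N (le * ze + ae) (lj * zj + aj)) :
    ∃ s : ℤ, (s = 1 ∨ s = -1) ∧ v (ze ^ s) < 1 ∧ (ze = 0 → s = 1) ∧ (κ < v (ze ^ s) →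
      ∃ (ζ' ε : ℂ) (a d : ℕ), 0 < a ∧ 0 < d ∧ Nat.Coprime a d ∧ v (ze ^ s) ^ a = c ^ d ∧
      (P * lj * zj) ^ d * (ze ^ s) ^ a = ζ' * P ^ d * ((lj / le * zj) ^ s) ^ a * (1 + ε) ∧
      (∃ j, 0 < j ∧ ζ' ^ j = 1) ∧ v ε * v (ze ^ s) ≤ κ) := by
  have hc : c < 1 := hcκ.trans_lt hκ
  have hκ0 : 0 < κ := hc0.trans_le hcκ
  have ve : v le = c⁻¹ := eq_inv_of_mul_eq_one_left hle
  have vj : v lj = c⁻¹ := eq_inv_of_mul_eq_one_left hlj
  have hc1 : 1 < c⁻¹ := (one_lt_inv₀ hc0).2 hc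
  have hle0 : le ≠ 0 := by
    rintro rfl
    rw [map_zero, zero_mul] at hle
    exact zero_ne_one hle
  have hlj0 : lj ≠ 0 := by
    rintro rfl
    rw [map_zero, zero_mul] at hlj
    exact zero_ne_one hlj
  have hP0 : P ≠ 0 := by
    rintro rfl
    rw [map_zero] at hP
    exact hc0.ne hP
  have hzj0 : zj ≠ 0 := by
    rintro rfl
    rw [map_zero] at hzj
    exact zero_ne_one hzj
  -- the general part
  have key : ze ≠ 0 → κ < v ze → ∃ (b a g : ℕ) (ζ ε : ℂ), 0 < b ∧ 0 < a ∧ Nat.Coprime b a ∧ 0 < g ∧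
      IsPrimitiveRoot ζ g ∧ (c⁻¹ * v ze) ^ a = c⁻¹ ^ b ∧
      (le * ze) ^ a = ζ * (lj * zj) ^ b * (1 + ε) ∧ v ε ≤ max κ (κ * (v ze)⁻¹) := by
    intro hze0 hκz
    have h0e : 0 < v ze := (AbsoluteValue.pos_iff v).2 hze0
    have hxj : v (lj * zj) = c⁻¹ := by rw [map_mul, vj, hzj, mul_one]
    have hxe : v (le * ze) = c⁻¹ * v ze := by rw [map_mul, ve]
    set ρ := max κ (κ * (v ze)⁻¹) with hρ
    have hρ1 : ρ < 1 := by
      refine max_lt hκ ?_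
      rw [← div_eq_mul_inv, div_lt_one h0e]
      exact hκz
    have e1 : v (le * ze + ae - le * ze) ≤ ρ * v (le * ze) := by
      rw [add_sub_cancel_left]
      have e2 : ae = ae / le * le := by field_simp
      rw [e2, map_mul, map_mul]
      have e3 : κ * v le ≤ ρ * (v le * v ze) := by
        have e4 : κ * (v ze)⁻¹ ≤ ρ := le_max_right _ _
        calc κ * v le = κ * (v ze)⁻¹ * (v le * v ze) := by field_simp
          _ ≤ ρ * (v le * v ze) := mul_le_mul_of_nonneg_right e4 (mul_nonneg (v.nonneg _) h0e.le)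
      exact (mul_le_mul_of_nonneg_right hae (v.nonneg _)).trans e3
    have e2 : v (lj * zj + aj - lj * zj) ≤ ρ * v (lj * zj) := by
      rw [add_sub_cancel_left]
      have e2 : aj = aj / lj * lj := by field_simp
      rw [e2, map_mul, map_mul, hzj, mul_one]
      exact mul_le_mul_of_nonneg_right (haj.trans (le_max_left _ _)) (v.nonneg _)
    have e3 : v (le * ze + ae) = v (le * ze) := by
      refine v_eq_of_sub_lt hv (e1.trans_lt ?_)
      have : 0 < v (le * ze) := by rw [hxe]; exact mul_pos (inv_pos.2 hc0) h0e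
      nlinarith
    obtain ⟨b, a, g, ζ, hb, ha, hcop, hg, hval, -, hζ, hnear⟩ := pair_shape hv hρ1
      (c := le * ze) (c' := lj * zj) (x := le * ze + ae) (y := lj * zj + aj) (by rw [← e3]; exact hbe)
      (by rw [hxj]; exact hc1) hN e1 e2 h
    have vζ : v ζ = 1 := val_root hg hζ.pow_eq_one
    have hζ0 : ζ ≠ 0 := by
      rintro rfl
      rw [map_zero] at vζ
      exact zero_ne_one vζ
    have hY0 : (lj * zj) ^ b ≠ 0 := pow_ne_zero _ (mul_ne_zero hlj0 hzj0)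
    have hX0 : (le * ze) ^ a ≠ 0 := pow_ne_zero _ (mul_ne_zero hle0 hze0)
    refine ⟨b, a, g, ζ, (le * ze) ^ a / (ζ * (lj * zj) ^ b) - 1, hb, ha, hcop, hg, hζ, ?_, ?_, ?_⟩
    · rw [← hxe, ← hxj]; exact hval
    · field_simp
      ring
    · have h1 : (le * ze) ^ a / (ζ * (lj * zj) ^ b) - 1 = -((ζ - (le * ze) ^ a / (lj * zj) ^ b) / ζ) := by
        field_simp
        ring
      rw [h1, v_neg, map_div₀, vζ, div_one]
      refine hnear.trans (max_le le_rfl ?_)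
      rw [hxe, hxj, inv_inv, mul_inv, inv_inv]
      refine max_le ((mul_le_mul_of_nonneg_right hcκ (inv_nonneg.2 h0e.le)).trans (le_max_right _ _))
        (hcκ.trans (le_max_left _ _))
  rcases lt_or_gt_of_ne hze with hlt | hgt
  · -- `v ze < 1`
    refine ⟨1, Or.inl rfl, by rw [zpow_one]; exact hlt, fun _ => rfl, fun hκz => ?_⟩
    rw [zpow_one] at hκz
    have hze0 : ze ≠ 0 := by
      rintro rfl
      rw [map_zero] at hκz
      linarith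
    have h0e : 0 < v ze := (AbsoluteValue.pos_iff v).2 hze0
    obtain ⟨b, a, g, ζ, ε, hb, ha, hcop, hg, hζ, hval', hXY, vε⟩ := key hze0 hκz
    have hab : b < a := by
      by_contra hcon
      push Not at hcon
      have h1 : (c⁻¹ * v ze) ^ a < c⁻¹ ^ a := by
        refine pow_lt_pow_left₀ ?_ (mul_nonneg (inv_nonneg.2 hc0.le) h0e.le) ha.ne'
        have := inv_pos.2 hc0
        nlinarith
      have h2 : c⁻¹ ^ a ≤ c⁻¹ ^ b := pow_le_pow_right₀ hc1.le hcon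
      rw [hval'] at h1
      linarith
    obtain ⟨d, rfl⟩ : ∃ d, a = b + d := ⟨a - b, by omega⟩
    have hd : 0 < d := by omega
    refine ⟨ζ, ε, b + d, d, ha, hd, ?_, ?_, ?_, ⟨g, hg, hζ.pow_eq_one⟩, ?_⟩
    · rw [Nat.coprime_add_self_left]
      exact Nat.coprime_self_add_right.1 hcop
    · rw [zpow_one]
      rw [mul_pow, pow_add c⁻¹, inv_pow, inv_pow] at hval'
      have hcb : c ^ b ≠ 0 := pow_ne_zero _ hc0.ne'
      have hcd : c ^ d ≠ 0 := pow_ne_zero _ hc0.ne'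
      field_simp at hval'
      linarith
    · rw [zpow_one, zpow_one]
      have h2 : le ^ (b + d) ≠ 0 := pow_ne_zero _ hle0
      have h3 : (P * lj * zj) ^ d * ze ^ (b + d) = P ^ d * (lj * zj) ^ d * ((le * ze) ^ (b + d)) / le ^ (b + d) := by
        rw [mul_pow le ze, mul_assoc P, mul_pow P]
        field_simp
      rw [h3, hXY, mul_pow (lj / le), div_pow]
      field_simp
      ring
    · rw [zpow_one]
      have h1 : max κ (κ * (v ze)⁻¹) = κ * (v ze)⁻¹ := by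
        refine max_eq_right ?_
        have : 1 ≤ (v ze)⁻¹ := (one_le_inv₀ h0e).2 hlt.le
        nlinarith
      rw [h1] at vε
      calc v ε * v ze ≤ κ * (v ze)⁻¹ * v ze := mul_le_mul_of_nonneg_right vε h0e.le
        _ = κ := by field_simp
  · -- `1 < v ze`
    have hze0 : ze ≠ 0 := by
      rintro rfl
      rw [map_zero] at hgt
      linarith
    have h0e : 0 < v ze := (AbsoluteValue.pos_iff v).2 hze0
    have hvinv : v ze⁻¹ < 1 := by rw [map_inv₀]; exact inv_lt_one_of_one_lt₀ hgt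
    refine ⟨-1, Or.inr rfl, by rw [zpow_neg_one]; exact hvinv, fun h0 => absurd h0 hze0, fun _ => ?_⟩
    obtain ⟨b, a, g, ζ, ε, hb, ha, hcop, hg, hζ, hval', hXY, vε⟩ := key hze0 (hκ.trans hgt)
    have hab : a < b := by
      by_contra hcon
      push Not at hcon
      have h1 : c⁻¹ ^ a < (c⁻¹ * v ze) ^ a := by
        refine pow_lt_pow_left₀ ?_ (inv_nonneg.2 hc0.le) ha.ne'
        have := inv_pos.2 hc0
        nlinarith
      have h2 : c⁻¹ ^ b ≤ c⁻¹ ^ a := pow_le_pow_right₀ hc1.le hcon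
      rw [hval'] at h1
      linarith
    obtain ⟨d, rfl⟩ : ∃ d, b = a + d := ⟨b - a, by omega⟩
    have hd : 0 < d := by omega
    have h1 : max κ (κ * (v ze)⁻¹) = κ := by
      refine max_eq_left ?_
      have : (v ze)⁻¹ < 1 := inv_lt_one_of_one_lt₀ hgt
      nlinarith
    rw [h1] at vε
    have v1ε : v (1 + ε) = 1 := v_one_of_near hv (by rw [add_sub_cancel_left]; exact vε.trans_lt hκ)
    have h1ε : 1 + ε ≠ 0 := by
      intro h0
      rw [h0, map_zero] at v1ε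
      exact zero_ne_one v1ε
    refine ⟨ζ⁻¹, (1 + ε)⁻¹ - 1, a, d, ha, hd, ?_, ?_, ?_, ⟨g, hg, ?_⟩, ?_⟩
    · exact (Nat.coprime_self_add_left.1 hcop).symm
    · rw [zpow_neg_one, map_inv₀]
      rw [mul_pow, pow_add c⁻¹, inv_pow, inv_pow] at hval'
      have hca : c ^ a ≠ 0 := pow_ne_zero _ hc0.ne'
      have h2 : v ze ^ a = (c ^ d)⁻¹ := mul_left_cancel₀ (inv_ne_zero hca) hval'
      rw [inv_pow, h2, inv_inv]
    · have h3 : ze ^ a ≠ 0 := pow_ne_zero _ hze0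
      have h4 : lj ^ a ≠ 0 := pow_ne_zero _ hlj0
      have h5 : zj ^ a ≠ 0 := pow_ne_zero _ hzj0
      have h2 : le ^ a ≠ 0 := pow_ne_zero _ hle0
      have h6 : (le * ze) ^ a ≠ 0 := pow_ne_zero _ (mul_ne_zero hle0 hze0)
      have vζ : v ζ = 1 := val_root hg hζ.pow_eq_one
      have hζ0 : ζ ≠ 0 := by
        rintro rfl
        rw [map_zero] at vζ
        exact zero_ne_one vζ
      rw [zpow_neg_one, zpow_neg_one, inv_pow, inv_pow, add_sub_cancel]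
      have h7 : (P * lj * zj) ^ d * (ze ^ a)⁻¹ = P ^ d * (lj * zj) ^ d * le ^ a / ((le * ze) ^ a) := by
        rw [mul_pow le ze, mul_assoc P, mul_pow P]
        field_simp
      rw [h7, hXY, mul_pow (lj / le), div_pow, pow_add (lj * zj), mul_pow lj zj a]
      have h8 : (lj * zj) ^ d ≠ 0 := pow_ne_zero _ (mul_ne_zero hlj0 hzj0)
      field_simp
    · rw [inv_pow, hζ.pow_eq_one, inv_one]
    · have h2 : (1 + ε)⁻¹ - 1 = -(ε * (1 + ε)⁻¹) := by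
        field_simp
        ring
      rw [h2, v_neg, map_mul, map_inv₀, v1ε, inv_one, mul_one, zpow_neg_one]
      calc v ε * v ze⁻¹ ≤ κ * 1 := mul_le_mul vε hvinv.le (v.nonneg _) hκ0.le
        _ = κ := mul_one κ

/-- the shape of an isogeny between `x_k = l_k z_k + a_k` and `x_l`, `v(z_k) = v(z_l) = 1` -/
lemma ratio_nearA (hv : IsNonarchimedean v) {c κ : ℝ} (hc0 : 0 < c) (hcκ : c ≤ κ) (hκ : κ < 1)
    {lk ll ak al : ℂ} (hlk : v lk * c = 1) (hll : v ll * c = 1) (hak : v (ak / lk) ≤ κ)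
    (hal : v (al / ll) ≤ κ) {zk zl : ℂ} (hk : v zk = 1) (hl : v zl = 1) {N : ℕ}
    (h : CyclicIsog N (lk * zk + ak) (ll * zl + al)) :
    ∃ (g : ℕ) (ζ : ℂ), 0 < g ∧ N = g ^ 2 ∧ IsPrimitiveRoot ζ g ∧ v (zk / zl - ll / lk * ζ) ≤ κ := by
  have hN : 0 < N := Nat.pos_of_ne_zero fun h0 => not_isog_zero (h0 ▸ h)
  have hc : c < 1 := hcκ.trans_lt hκ
  have vk : v lk = c⁻¹ := eq_inv_of_mul_eq_one_left hlk
  have vl : v ll = c⁻¹ := eq_inv_of_mul_eq_one_left hll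
  have hc1 : 1 < c⁻¹ := (one_lt_inv₀ hc0).2 hc
  have hne : ∀ {x : ℂ}, v x = c⁻¹ → x ≠ 0 := by
    rintro x hx rfl
    rw [map_zero] at hx
    linarith
  have hlk0 := hne vk
  have hll0 := hne vl
  have hne1 : ∀ {x : ℂ}, v x = 1 → x ≠ 0 := by
    rintro x hx rfl
    rw [map_zero] at hx
    exact zero_ne_one hx
  have hzk0 := hne1 hk
  have hzl0 := hne1 hl
  set bk := ak / lk with hbk
  set bl := al / ll with hbl
  have ek : lk * zk + ak = lk * (zk + bk) := by rw [hbk]; field_simp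
  have el : ll * zl + al = ll * (zl + bl) := by rw [hbl]; field_simp
  have wk : v (zk + bk) = 1 := by rw [← hk]; exact v_add_eq hv (by rw [hk]; exact hak.trans_lt hκ)
  have wl : v (zl + bl) = 1 := by rw [← hl]; exact v_add_eq hv (by rw [hl]; exact hal.trans_lt hκ)
  have hwl0 := hne1 wl
  have hwk0 := hne1 wk
  rw [ek, el] at h
  have hxk : v (lk * (zk + bk)) = c⁻¹ := by rw [map_mul, vk, wk, mul_one]
  have hxl : v (ll * (zl + bl)) = c⁻¹ := by rw [map_mul, vl, wl, mul_one]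
  obtain ⟨g, ζ, hg, hNg, hζ, hd⟩ := pair_square hv (by rw [hxk]; exact hc1) (hxk.trans hxl.symm) hN h
  refine ⟨g, ζ, hg, hNg, hζ, ?_⟩
  rw [hxk, inv_inv] at hd
  have h1 : zk / zl - ll / lk * ζ = (zk * bl - zl * bk) / (zl * (zl + bl)) -
      ll / lk * (ζ - lk * (zk + bk) / (ll * (zl + bl))) := by
    field_simp
    ring
  rw [h1]
  refine (v_sub_le hv _ _).trans (max_le ?_ ?_)
  · rw [map_div₀, map_mul, hl, wl, one_mul, div_one]
    refine (v_sub_le hv _ _).trans (max_le ?_ ?_)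
    · rw [map_mul, hk, one_mul]; exact hal
    · rw [map_mul, hl, one_mul]; exact hak
  · rw [map_mul, map_div₀, vk, vl, div_self (inv_ne_zero hc0.ne'), one_mul]
    exact hd.trans hcκ

lemma Tame.div (hv : IsNonarchimedean v) {p : ℕ} {μ ν : ℂ} (hμ : Tame v p μ) (hν : Tame v p ν) :
    Tame v p (μ / ν) := by
  refine ⟨?_, ?_, ?_⟩
  · have e1 := hμ.alg
    have e2 := hν.alg
    rw [← mem_algebraicClosure_iff] at e1 e2 ⊢
    exact div_mem e1 e2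
  · rw [map_div₀, hμ.one, hν.one, div_one]
  · have h0 := hν.ne_zero
    have h1 : (μ / ν) ^ p - μ / ν = ((μ ^ p - μ) * ν - μ * (ν ^ p - ν)) / (ν ^ p * ν) := by
      have h2 : ν ^ p ≠ 0 := pow_ne_zero _ h0
      rw [div_pow]
      field_simp
      ring
    rw [h1, map_div₀, map_mul, map_pow, hν.one, one_pow, one_mul, div_one]
    refine (v_sub_le hv _ _).trans (max_le ?_ ?_)
    · rw [map_mul, hν.one, mul_one]; exact hμ.frob
    · rw [map_mul, hμ.one, one_mul]; exact hν.frob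

/-- **case C** for one quadruple of indices and one sign -/
lemma caseCA_one (hv : IsNonarchimedean v) {p : ℕ} (hp : p.Prime) (hvp : v (p : ℂ) < 1) {m : ℕ} (hm : 1 ≤ m)
    {lam a : Fin n → ℂ} (hlam : ∀ i, Tame v p ((p : ℂ) ^ m * lam i)) (ha : ∀ i, v (a i / lam i) ≤ v (p : ℂ))
    {Z : Set (Fin n → ℂ)} {e j k l : Fin n} (hek : e ≠ k) (hel : e ≠ l) {s : ℤ}
    (hs : s = 1 ∨ s = -1) {H₁ H₂ F Fk Fl : MvPolynomial (Fin 2) ℤ}
    (h1 : Holds H₁ Z (Pi.single e s) (diff k l)) (g1 : GoodRel v p H₁)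
    (h2 : Holds H₂ Z (Pi.single j 1) (diff k l)) (g2 : GoodRel v p H₂)
    (h3 : Holds F Z (Pi.single e s) (Pi.single j 1)) (g3 : GoodRel v p F)
    (h4 : Holds Fk Z (Pi.single e s) (Pi.single k 1)) (g4 : GoodRel v p Fk)
    (h5 : Holds Fl Z (Pi.single e s) (Pi.single l 1)) (g5 : GoodRel v p Fl) :
    ∃ B : ℕ, ∀ z ∈ Z, ∀ (N' : ℕ), (z e = 0 → s = 1) → v (z j) = 1 → v (z k) = 1 → v (z l) = 1 →
      CyclicIsog N' (lam k * z k + a k) (lam l * z l + a l) → v (z e ^ s) < 1 →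
      (v (p : ℂ) < v (z e ^ s) → ∃ (ζ' ε : ℂ) (a d : ℕ), 0 < a ∧ 0 < d ∧ Nat.Coprime a d ∧
      v (z e ^ s) ^ a = (v (p : ℂ) ^ m) ^ d ∧
      ((p : ℂ) ^ m * lam j * z j) ^ d * (z e ^ s) ^ a =
        ζ' * ((p : ℂ) ^ m) ^ d * ((lam j / lam e * z j) ^ s) ^ a * (1 + ε) ∧
      (∃ j, 0 < j ∧ ζ' ^ j = 1) ∧ v ε * v (z e ^ s) ≤ v (p : ℂ)) → N' ≤ B := by
  have hp0 : 0 < v (p : ℂ) := AbsoluteValue.pos_iff v |>.2 (by exact_mod_cast hp.ne_zero)
  have hpne : (p : ℂ) ≠ 0 := by exact_mod_cast hp.ne_zero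
  have hc0 : 0 < v (p : ℂ) ^ m := pow_pos hp0 m
  have hcp : v (p : ℂ) ^ m ≤ v (p : ℂ) := by
    calc v (p : ℂ) ^ m ≤ v (p : ℂ) ^ 1 := pow_le_pow_of_le_one hp0.le hvp.le hm
      _ = _ := pow_one _
  have hl : ∀ i, v (lam i) * v (p : ℂ) ^ m = 1 := fun i => by
    have := (hlam i).one
    rwa [map_mul, map_pow, mul_comm] at this
  have hμ : ∀ i j, Tame v p (lam j / lam i) := fun i j => by
    have h := Tame.div hv (hlam j) (hlam i)
    rwa [mul_div_mul_left _ _ (pow_ne_zero m hpne)] at h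
  set D := max H₁.totalDegree (max H₂.totalDegree F.totalDegree) with hD
  have hpD : 64 * D ^ 2 ≤ p := by
    have e1 := g1.large
    have e2 := g2.large
    have e3 := g3.large
    have key : ∀ t : ℕ, 64 * (t + 1) ^ 2 ≤ p → 64 * t ^ 2 ≤ p := fun t ht =>
      le_trans (Nat.mul_le_mul_left 64 (Nat.pow_le_pow_left (Nat.le_succ t) 2)) ht
    rcases max_choice H₁.totalDegree (max H₂.totalDegree F.totalDegree) with h | h
    · rw [hD, h]; exact key _ e1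
    · rcases max_choice H₂.totalDegree F.totalDegree with h' | h'
      · rw [hD, h, h']; exact key _ e2
      · rw [hD, h, h']; exact key _ e3
  have hp4 : 4 ≤ p := by
    have e1 := g1.large
    have e2 : 1 ≤ (H₁.totalDegree + 1) ^ 2 := Nat.one_le_pow _ _ (by omega)
    omega
  have hdeg : ∀ {H : MvPolynomial (Fin 2) ℤ}, H.totalDegree ≤ D → ∀ m ∈ H.support, m 0 ≤ D ∧ m 1 ≤ D := by
    intro H hH m hm
    have := supp_le hH hm
    omega
  obtain ⟨G₀, hG⟩ := exc_boundedA hv hp hp4 hvp (m := m) hpD (hμ k l) (hμ e j) (hlam j)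
    (hdeg (le_max_left _ _)) (rowUnit_of hv hp hvp g1)
    (hdeg ((le_max_left _ _).trans (le_max_right _ _))) g2.noCoset
    (fun m hm => (hdeg ((le_max_right _ _).trans (le_max_right _ _)) m hm).2) (botUnit_of hv hp hvp g3)
    (botUnit_of hv hp hvp g4) (botUnit_of hv hp hvp g5)
  refine ⟨G₀ ^ 2, ?_⟩
  intro z hz N' he hj hk hl' hN' hw hcond
  have hz0 : ∀ {q}, v (z q) = 1 → z q ≠ 0 := fun {q} hq h0 => by
    rw [h0, map_zero] at hq
    exact zero_ne_one hq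
  obtain ⟨g, ζ, a1, a2, a3, a4⟩ := ratio_nearA hv hc0 hcp hvp (hl k) (hl l) (ha k) (ha l) hk hl' hN'
  have hs1 : ∀ q, z q = 0 → 0 ≤ (Pi.single e s : Fin n → ℤ) q := by
    intro q hq
    by_cases hqe : q = e
    · subst hqe
      rw [he hq, Pi.single_eq_same]
      exact zero_le_one
    · rw [Pi.single_eq_of_ne hqe]
  have hs2 : ∀ {r}, v (z r) = 1 → ∀ q, z q = 0 → (Pi.single r 1 : Fin n → ℤ) q = 0 := by
    intro r hr q hq
    have hqr : q ≠ r := fun h => hz0 hr (by rw [← h]; exact hq)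
    rw [Pi.single_eq_of_ne hqr]
  have hs3 : ∀ q, z q = 0 → diff k l q = 0 := by
    intro q hq
    have hne : ∀ {r}, v (z r) = 1 → q ≠ r := fun {r} hr h => hz0 hr (h ▸ hq)
    unfold diff
    simp [hne hk, hne hl']
  have k1 := h1 z hz (fun q hq => ⟨hs1 q hq, (hs3 q hq).ge⟩)
  have k2 := h2 z hz (fun q hq => ⟨(hs2 hj q hq).ge, (hs3 q hq).ge⟩)
  have k3 := h3 z hz (fun q hq => ⟨hs1 q hq, (hs2 hj q hq).ge⟩)
  have k4 := h4 z hz (fun q hq => ⟨hs1 q hq, (hs2 hk q hq).ge⟩)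
  have k5 := h5 z hz (fun q hq => ⟨hs1 q hq, (hs2 hl' q hq).ge⟩)
  rw [prod_single, prod_diff z (hz0 hk) (hz0 hl')] at k1 k2
  rw [prod_single, prod_single] at k3 k4 k5
  rw [zpow_one] at k2 k3 k4 k5
  have hfin := hG (z e ^ s) (z j) (z k) (z l) ζ g hw hj hk hl' k1 k2 k3 k4 k5 a4 a1 a3 (fun hlt => by
    obtain ⟨ζ', ε, a', d, b1, b2, b3, b4, b5, b6, b7⟩ := hcond hlt
    exact ⟨ζ', ε, a', d, s, b1, b2, b3, by rw [b4, ← pow_mul], hs, by rw [b5, ← pow_mul], b6, b7⟩)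
  rw [a2]
  exact Nat.pow_le_pow_left hfin 2

/-- **case C** for the affine image `lam Z + a`: the coordinate `e` of `z` is not of absolute value `1` -/
def CaseCG (v : AbsoluteValue ℂ ℝ) (Z : Set (Fin n → ℂ)) (lam a : Fin n → ℂ) : Prop :=
  ∃ B : ℕ, ∀ z ∈ Z, ∀ (e j k l : Fin n) (N N' : ℕ), v (z e) ≠ 1 → v (z j) = 1 → v (z k) = 1 → v (z l) = 1 →
    1 < v (lam e * z e + a e) → e ≠ j → e ≠ k → e ≠ l → k ≠ l → l ≠ j →
      CyclicIsog N (lam e * z e + a e) (lam j * z j + a j) →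
        CyclicIsog N' (lam k * z k + a k) (lam l * z l + a l) → N' ≤ B

/-- **case C** for affine images -/
theorem exists_caseCG {Z : Set (Fin n → ℂ)} (hrel : HasRel Z) :
    ∃ M : ℕ, 0 < M ∧ ∀ p : ℕ, p.Prime → ¬ p ∣ M → ∀ v : AbsoluteValue ℂ ℝ,
      IsNonarchimedean v → v (p : ℂ) < 1 → ∀ m : ℕ, 1 ≤ m → ∀ lam a : Fin n → ℂ,
        (∀ i, Tame v p ((p : ℂ) ^ m * lam i)) → (∀ i, v (a i / lam i) ≤ v (p : ℂ)) → CaseCG v Z lam a := by
  classical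
  let ι := (Fin n × Fin n × Fin n × Fin n) × Bool
  let sg : Bool → ℤ := fun b => if b then 1 else -1
  have hsg : ∀ b, sg b = 1 ∨ sg b = -1 := fun b => by cases b <;> simp [sg]
  have hsg0 : ∀ b, sg b ≠ 0 := fun b => by cases b <;> simp [sg]
  have h1 : ∀ q : ι, ∃ (H₁ H₂ F Fk Fl : MvPolynomial (Fin 2) ℤ) (M : ℕ), 0 < M ∧
      (q.1.1 ≠ q.1.2.1 → q.1.1 ≠ q.1.2.2.1 → q.1.1 ≠ q.1.2.2.2 → q.1.2.2.1 ≠ q.1.2.2.2 →
        q.1.2.2.2 ≠ q.1.2.1 →
        (Holds H₁ Z (Pi.single q.1.1 (sg q.2)) (diff q.1.2.2.1 q.1.2.2.2) ∧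
        Holds H₂ Z (Pi.single q.1.2.1 1) (diff q.1.2.2.1 q.1.2.2.2) ∧
        Holds F Z (Pi.single q.1.1 (sg q.2)) (Pi.single q.1.2.1 1) ∧
        Holds Fk Z (Pi.single q.1.1 (sg q.2)) (Pi.single q.1.2.2.1 1) ∧
        Holds Fl Z (Pi.single q.1.1 (sg q.2)) (Pi.single q.1.2.2.2 1)) ∧
        ∀ p : ℕ, p.Prime → ¬ p ∣ M → ∀ v : AbsoluteValue ℂ ℝ, IsNonarchimedean v → v (p : ℂ) < 1 →
          GoodRel v p H₁ ∧ GoodRel v p H₂ ∧ GoodRel v p F ∧ GoodRel v p Fk ∧ GoodRel v p Fl) := by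
    rintro ⟨⟨e, j, k, l⟩, b⟩
    by_cases h : e ≠ j ∧ e ≠ k ∧ e ≠ l ∧ k ≠ l ∧ l ≠ j
    · obtain ⟨hej, hek, hel, hkl, hlj⟩ := h
      obtain ⟨H₁, M₁, a1, a2, a3⟩ := hrel (Pi.single e (sg b)) (diff k l) (single_diff_indep hel hkl (hsg0 b))
      obtain ⟨H₂, M₂, b1, b2, b3⟩ := hrel (Pi.single j 1) (diff k l) (single_diff_indep hlj.symm hkl one_ne_zero)
      obtain ⟨F, M₃, c1, c2, c3⟩ := hrel (Pi.single e (sg b)) (Pi.single j 1) (single_indep hej (hsg0 b))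
      obtain ⟨Fk, M₄, d1, d2, d3⟩ := hrel (Pi.single e (sg b)) (Pi.single k 1) (single_indep hek (hsg0 b))
      obtain ⟨Fl, M₅, e1, e2, e3⟩ := hrel (Pi.single e (sg b)) (Pi.single l 1) (single_indep hel (hsg0 b))
      refine ⟨H₁, H₂, F, Fk, Fl, M₁ * M₂ * M₃ * M₄ * M₅, by positivity, fun _ _ _ _ _ =>
        ⟨⟨a2, b2, c2, d2, e2⟩, fun p hp hpM v hv hvp => ⟨a3 p hp ?_ v hv hvp, b3 p hp ?_ v hv hvp,
          c3 p hp ?_ v hv hvp, d3 p hp ?_ v hv hvp, e3 p hp ?_ v hv hvp⟩⟩⟩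
      · exact fun h => hpM ((((h.mul_right _).mul_right _).mul_right _).mul_right _)
      · exact fun h => hpM ((((h.mul_left _).mul_right _).mul_right _).mul_right _)
      · exact fun h => hpM (((h.mul_left _).mul_right _).mul_right _)
      · exact fun h => hpM ((h.mul_left _).mul_right _)
      · exact fun h => hpM (h.mul_left _)
    · exact ⟨0, 0, 0, 0, 0, 1, one_pos, fun a b c d e => absurd ⟨a, b, c, d, e⟩ h⟩
  choose H₁ H₂ F Fk Fl M hM h1 using h1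
  refine ⟨∏ q, M q, prod_pos fun q _ => hM q, fun p hp hpM v hv hvp m hm lam a hlam ha => ?_⟩
  have hpM' : ∀ q, ¬ p ∣ M q := fun q h => hpM (h.trans (dvd_prod_of_mem M (mem_univ q)))
  have hp0 : 0 < v (p : ℂ) := AbsoluteValue.pos_iff v |>.2 (by exact_mod_cast hp.ne_zero)
  have hc0 : 0 < v (p : ℂ) ^ m := pow_pos hp0 m
  have hcp : v (p : ℂ) ^ m ≤ v (p : ℂ) := by
    calc v (p : ℂ) ^ m ≤ v (p : ℂ) ^ 1 := pow_le_pow_of_le_one hp0.le hvp.le hm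
      _ = _ := pow_one _
  have hl : ∀ i, v (lam i) * v (p : ℂ) ^ m = 1 := fun i => by
    have := (hlam i).one
    rwa [map_mul, map_pow, mul_comm] at this
  have h2 : ∀ q : ι, ∃ B : ℕ, q.1.1 ≠ q.1.2.1 → q.1.1 ≠ q.1.2.2.1 → q.1.1 ≠ q.1.2.2.2 →
      q.1.2.2.1 ≠ q.1.2.2.2 → q.1.2.2.2 ≠ q.1.2.1 → ∀ z ∈ Z, ∀ (N' : ℕ),
      (z q.1.1 = 0 → sg q.2 = 1) → v (z q.1.2.1) = 1 → v (z q.1.2.2.1) = 1 → v (z q.1.2.2.2) = 1 →
      CyclicIsog N' (lam q.1.2.2.1 * z q.1.2.2.1 + a q.1.2.2.1)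
        (lam q.1.2.2.2 * z q.1.2.2.2 + a q.1.2.2.2) →
      v (z q.1.1 ^ sg q.2) < 1 →
      (v (p : ℂ) < v (z q.1.1 ^ sg q.2) → ∃ (ζ' ε : ℂ) (a d : ℕ), 0 < a ∧ 0 < d ∧ Nat.Coprime a d ∧
      v (z q.1.1 ^ sg q.2) ^ a = (v (p : ℂ) ^ m) ^ d ∧
      ((p : ℂ) ^ m * lam q.1.2.1 * z q.1.2.1) ^ d * (z q.1.1 ^ sg q.2) ^ a =
        ζ' * ((p : ℂ) ^ m) ^ d * ((lam q.1.2.1 / lam q.1.1 * z q.1.2.1) ^ sg q.2) ^ a * (1 + ε) ∧
      (∃ j, 0 < j ∧ ζ' ^ j = 1) ∧ v ε * v (z q.1.1 ^ sg q.2) ≤ v (p : ℂ)) → N' ≤ B := by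
    intro q
    by_cases h : q.1.1 ≠ q.1.2.1 ∧ q.1.1 ≠ q.1.2.2.1 ∧ q.1.1 ≠ q.1.2.2.2 ∧ q.1.2.2.1 ≠ q.1.2.2.2 ∧
        q.1.2.2.2 ≠ q.1.2.1
    · obtain ⟨a1, a2, a3, a4, a5⟩ := h
      obtain ⟨⟨b1, b2, b3, b4, b5⟩, hgood⟩ := h1 q a1 a2 a3 a4 a5
      obtain ⟨c1, c2, c3, c4, c5⟩ := hgood p hp (hpM' q) v hv hvp
      obtain ⟨B, hB⟩ := caseCA_one hv hp hvp hm hlam ha a2 a3 (hsg q.2) b1 c1 b2 c2 b3 c3 b4 c4 b5 c5
      exact ⟨B, fun _ _ _ _ _ => hB⟩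
    · exact ⟨0, fun a b c d e => absurd ⟨a, b, c, d, e⟩ h⟩
  choose B hB using h2
  refine ⟨univ.sup B, fun z hz e j k l N N' he hj hk hl' hbe hej hek hel hkl hlj hN hN' => ?_⟩
  have hNpos : 0 < N := Nat.pos_of_ne_zero fun h0 => not_isog_zero (h0 ▸ hN)
  obtain ⟨s, hs, k1, k2, k3⟩ := pair_excA hv hc0 hcp hvp (P := (p : ℂ) ^ m)
    (by rw [map_pow]) (hl e) (hl j) (ha e) (ha j) he hj hbe hNpos hN
  obtain ⟨b, rfl⟩ : ∃ b, sg b = s := by
    rcases hs with rfl | rfl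
    · exact ⟨true, rfl⟩
    · exact ⟨false, rfl⟩
  exact (hB ((e, j, k, l), b) hej hek hel hkl hlj z hz N' k2 hj hk hl' hN' k1 k3).trans
    (Finset.le_sup (mem_univ ((e, j, k, l), b)))

/-- a rational number of absolute value less than one -/
lemma rat_lt_one (hv : IsNonarchimedean v) {p : ℕ} (hp : p.Prime) (hvp : v (p : ℂ) < 1) {q : ℚ}
    (hq : v (q : ℂ) < 1) : v (q : ℂ) ≤ v (p : ℂ) := by
  have hmul : (q : ℂ) * ((q.den : ℕ) : ℂ) = ((q.num : ℤ) : ℂ) := by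
    have := Rat.mul_den_eq_num q
    exact_mod_cast this
  have hn : (p : ℤ) ∣ q.num := by
    by_contra hcon
    have h1 := v_int_one hv hp hvp hcon
    rw [← hmul, map_mul] at h1
    have h2 : v ((q.den : ℕ) : ℂ) ≤ 1 := v_nat_le hv _
    have h3 : v (q : ℂ) * v ((q.den : ℕ) : ℂ) < 1 := by
      calc v (q : ℂ) * v ((q.den : ℕ) : ℂ) ≤ v (q : ℂ) * 1 := mul_le_mul_of_nonneg_left h2 (v.nonneg _)
        _ < 1 := by rw [mul_one]; exact hq
    linarith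
  have hd : ¬ p ∣ q.den := by
    intro hd
    have h1 : p ∣ q.num.natAbs := Int.natCast_dvd.1 hn
    have h2 := Nat.dvd_gcd h1 hd
    rw [q.reduced] at h2
    exact hp.one_lt.ne' (Nat.dvd_one.1 h2)
  have h1 := v_nat_eq_one hv hp hvp hd
  obtain ⟨r, hr⟩ := hn
  have h2 := congrArg v hmul
  rw [map_mul, h1, mul_one, hr] at h2
  push_cast at h2
  rw [h2, map_mul]
  exact mul_le_of_le_one_right (v.nonneg _) (v_int_le hv _)

/-- **case C** for rational affine images -/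
theorem exists_caseCA {Z : Set (Fin n → ℂ)} (hrel : HasRel Z) :
    ∃ M : ℕ, 0 < M ∧ ∀ p : ℕ, p.Prime → ¬ p ∣ M → ∀ v : AbsoluteValue ℂ ℝ,
      IsNonarchimedean v → v (p : ℂ) < 1 → ∀ m : ℕ, 1 ≤ m → ∀ lam a : Fin n → ℚ,
        (∀ i, v (lam i : ℂ) * v (p : ℂ) ^ m = 1) → (∀ i, v (a i : ℂ) * v (p : ℂ) ^ m < 1) →
          CaseCG v Z (fun i => (lam i : ℂ)) (fun i => (a i : ℂ)) := by
  obtain ⟨M, hM, h⟩ := exists_caseCG hrel
  refine ⟨M, hM, fun p hp hpM v hv hvp m hm lam a hlam ha => h p hp hpM v hv hvp m hm _ _ (fun i => ?_)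
    (fun i => ?_)⟩
  · have h1 := tame_rat hv hp hvp (μ := (p : ℚ) ^ m * lam i) (by
      push_cast
      rw [map_mul, map_pow, mul_comm]
      exact hlam i)
    push_cast at h1
    exact h1
  · have hp0 : 0 < v (p : ℂ) := AbsoluteValue.pos_iff v |>.2 (by exact_mod_cast hp.ne_zero)
    have hc0 : 0 < v (p : ℂ) ^ m := pow_pos hp0 m
    have h1 := rat_lt_one hv hp hvp (q := a i / lam i) (by
      push_cast
      rw [map_div₀, eq_inv_of_mul_eq_one_left (hlam i), div_inv_eq_mul]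
      exact ha i)
    push_cast at h1
    exact h1

end Pool.Agent.Helper20.DL
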