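import Pool.Agent.Helper20.ZD.Roots
import Pool.Agent.Helper20.ZD.Near
import Pool.Agent.Helper20.ZD.Splits

/-! # Values of a polynomial at products of units and roots of unity of `p`-power order -/

open Finset

namespace Pool.Agent.Helper20.DL
open Pool.Agent.Helper20.ZD

variable {v : AbsoluteValue ℂ ℝ}

/-- the value of `H` at `(x, y)` -/
noncomputable def ev (H : MvPolynomial (Fin 2) ℤ) (x y : ℂ) : ℂ :=
  ∑ m ∈ H.support, ((H.coeff m : ℤ) : ℂ) * x ^ m 0 * y ^ m 1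

lemma ev_eq_aeval (H : MvPolynomial (Fin 2) ℤ) (x y : ℂ) : ev H x y = MvPolynomial.aeval ![x, y] H := by
  rw [MvPolynomial.aeval_def, MvPolynomial.eval₂_eq', ev]
  refine sum_congr rfl fun m _ => ?_
  rw [Fin.prod_univ_two]
  simp [mul_assoc]

/-- no coset factor modulo the maximal ideal of `v` -/
def NoCoset (v : AbsoluteValue ℂ ℝ) (H : MvPolynomial (Fin 2) ℤ) : Prop :=
  ∀ α β : ℂ, v α = 1 → v β = 1 → ∀ u w : ℤ, ¬ (u = 0 ∧ w = 0) → ∃ e : ℤ,
    v (∑ m ∈ H.support with u * m 0 + w * m 1 = e, ((H.coeff m : ℤ) : ℂ) * α ^ m 0 * β ^ m 1) = 1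

lemma v_int_le (hv : IsNonarchimedean v) (k : ℤ) : v (k : ℂ) ≤ 1 := hv.apply_intCast_le_one

lemma v_pow_sub_pow_le (hv : IsNonarchimedean v) {x x' : ℂ} (hx : v x ≤ 1) (hx' : v x' ≤ 1) (k : ℕ) :
    v (x ^ k - x' ^ k) ≤ v (x - x') := by
  induction k with
  | zero => simp
  | succ k ih =>
    have h1 : x ^ (k + 1) - x' ^ (k + 1) = x * (x ^ k - x' ^ k) + x' ^ k * (x - x') := by ring
    rw [h1]
    refine (hv _ _).trans (max_le ?_ ?_)
    · rw [map_mul]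
      exact (mul_le_of_le_one_left (v.nonneg _) hx).trans ih
    · rw [map_mul, map_pow]
      exact mul_le_of_le_one_left (v.nonneg _) (pow_le_one₀ (v.nonneg _) hx')

lemma v_mon_sub_le (hv : IsNonarchimedean v) {c x x' y y' : ℂ} (hc : v c ≤ 1) (hx : v x ≤ 1)
    (hx' : v x' ≤ 1) (hy : v y ≤ 1) (hy' : v y' ≤ 1) (i j : ℕ) :
    v (c * x ^ i * y ^ j - c * x' ^ i * y' ^ j) ≤ max (v (x - x')) (v (y - y')) := by
  have h1 : c * x ^ i * y ^ j - c * x' ^ i * y' ^ j =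
      c * y ^ j * (x ^ i - x' ^ i) + c * x' ^ i * (y ^ j - y' ^ j) := by ring
  rw [h1]
  refine (hv _ _).trans (max_le_max ?_ ?_)
  · rw [map_mul, map_mul, map_pow]
    exact (mul_le_of_le_one_left (v.nonneg _) (mul_le_one₀ hc (pow_nonneg (v.nonneg _) _)
      (pow_le_one₀ (v.nonneg _) hy))).trans (v_pow_sub_pow_le hv hx hx' i)
  · rw [map_mul, map_mul, map_pow]
    exact (mul_le_of_le_one_left (v.nonneg _) (mul_le_one₀ hc (pow_nonneg (v.nonneg _) _)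
      (pow_le_one₀ (v.nonneg _) hx'))).trans (v_pow_sub_pow_le hv hy hy' j)

lemma ev_sub_le (hv : IsNonarchimedean v) (H : MvPolynomial (Fin 2) ℤ) {x x' y y' : ℂ} (hx : v x ≤ 1)
    (hx' : v x' ≤ 1) (hy : v y ≤ 1) (hy' : v y' ≤ 1) :
    v (ev H x y - ev H x' y') ≤ max (v (x - x')) (v (y - y')) := by
  rw [ev, ev, ← sum_sub_distrib]
  refine val_sum_le hv _ _ (le_max_of_le_left (v.nonneg _)) fun m _ => ?_
  exact v_mon_sub_le hv (v_int_le hv _) hx hx' hy hy' _ _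

/-- the values of the `p`-power roots of unity -/
lemma val_T (hv : IsNonarchimedean v) {p k : ℕ} (hp : p.Prime) {ξ : ℂ}
    (hξ : IsPrimitiveRoot ξ (p ^ (k + 1))) : v (ξ - 1) ^ (Nat.totient (p ^ (k + 1))) = v (p : ℂ) := by
  have := Fact.mk hp
  have hpos : 0 < p ^ (k + 1) := pow_pos hp.pos _
  have : NeZero (p ^ (k + 1)) := ⟨hpos.ne'⟩
  have h1 := Polynomial.eval_one_cyclotomic_prime_pow (R := ℂ) (p := p) k
  rw [Polynomial.cyclotomic_eq_prod_X_sub_primitiveRoots hξ, Polynomial.eval_prod] at h1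
  rw [← h1, map_prod, ← hξ.card_primitiveRoots, ← Finset.prod_const]
  refine Finset.prod_congr rfl fun μ hμ => ?_
  rw [mem_primitiveRoots hpos] at hμ
  rw [Polynomial.eval_sub, Polynomial.eval_X, Polynomial.eval_C, val_one_sub]
  refine le_antisymm ?_ ?_
  · obtain ⟨i, -, hi⟩ := hμ.eq_pow_of_pow_eq_one hξ.pow_eq_one
    rw [← hi]
    exact val_pow_sub_one hv (val_root hpos hμ.pow_eq_one).le i
  · obtain ⟨i, -, hi⟩ := hξ.eq_pow_of_pow_eq_one hμ.pow_eq_one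
    rw [← hi]
    exact val_pow_sub_one hv (val_root hpos hξ.pow_eq_one).le i

lemma val_T_lt (hv : IsNonarchimedean v) {p k : ℕ} (hp : p.Prime) (hvp : v (p : ℂ) < 1) {ξ : ℂ}
    (hξ : IsPrimitiveRoot ξ (p ^ (k + 1))) : v (ξ - 1) < 1 := by
  by_contra hcon
  push Not at hcon
  have h1 := val_T hv hp hξ
  have h2 := one_le_pow₀ hcon (n := Nat.totient (p ^ (k + 1)))
  linarith

lemma val_T_pos {p k : ℕ} (hp : p.Prime) {ξ : ℂ} (hξ : IsPrimitiveRoot ξ (p ^ (k + 1))) :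
    0 < v (ξ - 1) := by
  rw [AbsoluteValue.pos_iff, sub_ne_zero]
  rintro rfl
  have h2 : 1 < p ^ (k + 1) := Nat.one_lt_pow (by omega) hp.one_lt
  exact hξ.ne_one h2 rfl

/-- Taylor coefficients are integral combinations of the coefficients -/
lemma taylor_le (hv : IsNonarchimedean v) {Q : Polynomial ℂ} {r : ℂ} (hr : v r ≤ 1) {B : ℝ}
    (hB : 0 ≤ B) (h : ∀ i, v (Q.coeff i) ≤ B) (j : ℕ) : v ((Polynomial.taylor r Q).coeff j) ≤ B := by
  rw [Polynomial.taylor_coeff, Polynomial.eval_eq_sum_range]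
  refine val_sum_le hv _ _ hB fun i _ => ?_
  rw [Polynomial.hasseDeriv_coeff, map_mul, map_mul, map_pow]
  have h1 : v (((i + j).choose j : ℕ) : ℂ) ≤ 1 := by
    have := v_int_le hv (((i + j).choose j : ℕ) : ℤ)
    rwa [Int.cast_natCast] at this
  calc v (((i + j).choose j : ℕ) : ℂ) * v (Q.coeff (i + j)) * v r ^ i ≤ 1 * B * 1 := by
        gcongr
        · exact h _
        · exact pow_le_one₀ (v.nonneg _) hr
    _ = B := by ring

lemma taylor_mem (R₀ : Subring ℂ) {Q : Polynomial ℂ} {r : ℂ} (hr : r ∈ R₀) (h : ∀ i, Q.coeff i ∈ R₀)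
    (j : ℕ) : (Polynomial.taylor r Q).coeff j ∈ R₀ := by
  rw [Polynomial.taylor_coeff, Polynomial.eval_eq_sum_range]
  refine sum_mem fun i _ => ?_
  rw [Polynomial.hasseDeriv_coeff]
  exact mul_mem (mul_mem (natCast_mem R₀ _) (h _)) (pow_mem hr _)

/-- Dirichlet: small multiples of a vector modulo `p` -/
lemma dirichlet {p : ℕ} (hp : p.Prime) (a b : ℤ) : ∃ u w : ℤ, ¬ (u = 0 ∧ w = 0) ∧
    |u| ≤ Nat.sqrt p ∧ |w| ≤ Nat.sqrt p ∧ (p : ℤ) ∣ u * b - w * a := by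
  classical
  have := Fact.mk hp
  have : NeZero p := ⟨hp.ne_zero⟩
  set s := Nat.sqrt p with hs
  let S : Finset (ℕ × ℕ) := Finset.range (s + 1) ×ˢ Finset.range (s + 1)
  obtain ⟨x, hx, y, hy, hxy, h⟩ := Finset.exists_ne_map_eq_of_card_lt_of_maps_to (s := S)
    (t := (Finset.univ : Finset (ZMod p))) (f := fun x => (x.1 : ZMod p) * b - x.2 * a) (by
      rw [card_univ, ZMod.card, card_product, card_range]
      exact Nat.lt_succ_sqrt p) (fun _ _ => mem_coe.2 (mem_univ _))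
  rw [mem_product, mem_range, mem_range] at hx hy
  refine ⟨(x.1 : ℤ) - y.1, (x.2 : ℤ) - y.2, ?_, ?_, ?_, ?_⟩
  · rintro ⟨h1, h2⟩
    exact hxy (Prod.ext (by omega) (by omega))
  · rw [abs_le]
    constructor <;> omega
  · rw [abs_le]
    constructor <;> omega
  · rw [← ZMod.intCast_zmod_eq_zero_iff_dvd]
    push_cast
    linear_combination h

lemma small_ne {p : ℕ} (hp4 : 4 ≤ p) {u : ℤ} (hu : |u| ≤ Nat.sqrt p) (h : (p : ℤ) ∣ u) : u = 0 := by
  refine Int.eq_zero_of_abs_lt_dvd h (lt_of_le_of_lt hu ?_)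
  exact_mod_cast Nat.sqrt_lt_self (by omega)

lemma dirichlet' {p : ℕ} (hp : p.Prime) (hp4 : 4 ≤ p) {a b : ℤ} (hab : ¬ ((p : ℤ) ∣ a ∧ (p : ℤ) ∣ b)) :
    ∃ (u w : ℤ) (κ : ℕ), ¬ (u = 0 ∧ w = 0) ∧ |u| ≤ Nat.sqrt p ∧ |w| ≤ Nat.sqrt p ∧ ¬ p ∣ κ ∧
      (p : ℤ) ∣ a - κ * u ∧ (p : ℤ) ∣ b - κ * w := by
  have := Fact.mk hp
  obtain ⟨u, w, h0, hu, hw, h⟩ := dirichlet hp a b
  have key : ∀ {a b u w : ℤ}, ¬ ((p : ℤ) ∣ a ∧ (p : ℤ) ∣ b) → |u| ≤ Nat.sqrt p → u ≠ 0 →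
      (p : ℤ) ∣ u * b - w * a → ∃ κ : ℕ, ¬ p ∣ κ ∧ (p : ℤ) ∣ a - κ * u ∧ (p : ℤ) ∣ b - κ * w := by
    intro a b u w hab hu hu0 h
    have hu1 : (u : ZMod p) ≠ 0 := fun h1 =>
      hu0 (small_ne hp4 hu ((ZMod.intCast_zmod_eq_zero_iff_dvd _ _).1 h1))
    have h2 : (u : ZMod p) * b - w * a = 0 := by
      have := (ZMod.intCast_zmod_eq_zero_iff_dvd _ _).2 h
      push_cast at this
      exact this
    have hκ : (((a / u : ZMod p).val : ℕ) : ZMod p) = a / u := ZMod.natCast_zmod_val _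
    refine ⟨(a / u : ZMod p).val, ?_, ?_, ?_⟩
    · rw [← ZMod.natCast_eq_zero_iff, hκ]
      intro h3
      rw [div_eq_zero_iff] at h3
      rcases h3 with h3 | h3
      · apply hab
        refine ⟨(ZMod.intCast_zmod_eq_zero_iff_dvd _ _).1 h3, ?_⟩
        rw [h3, mul_zero, sub_zero] at h2
        exact (ZMod.intCast_zmod_eq_zero_iff_dvd _ _).1 ((mul_eq_zero.1 h2).resolve_left hu1)
      · exact hu1 h3
    · rw [← ZMod.intCast_zmod_eq_zero_iff_dvd]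
      push_cast
      rw [hκ]
      field_simp
      ring
    · rw [← ZMod.intCast_zmod_eq_zero_iff_dvd]
      push_cast
      rw [hκ]
      field_simp
      linear_combination h2
  by_cases hu0 : u = 0
  · have hw0 : w ≠ 0 := fun hw0 => h0 ⟨hu0, hw0⟩
    obtain ⟨κ, h1, h2, h3⟩ := key (a := b) (b := a) (u := w) (w := u) (fun h1 => hab ⟨h1.2, h1.1⟩) hw hw0 (by
      rw [← Int.dvd_neg]
      convert h using 1
      ring)
    exact ⟨u, w, κ, h0, hu, hw, h1, h3, h2⟩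
  · obtain ⟨κ, h1, h2, h3⟩ := key hab hu hu0 h
    exact ⟨u, w, κ, h0, hu, hw, h1, h2, h3⟩

lemma v_zpow_sub_one (hv : IsNonarchimedean v) {x : ℂ} (hx : v x = 1) (k : ℤ) :
    v (x ^ k - 1) ≤ v (x - 1) := by
  rcases k with k | k
  · rw [Int.ofNat_eq_natCast, zpow_natCast]
    exact val_pow_sub_one hv hx.le k
  · have hx0 : x ≠ 0 := by
      rintro rfl
      rw [map_zero] at hx
      exact zero_ne_one hx
    rw [zpow_negSucc]
    have h1 : (x ^ (k + 1))⁻¹ - 1 = -((x ^ (k + 1))⁻¹ * (x ^ (k + 1) - 1)) := by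
      field_simp
      ring
    rw [h1, v_neg, map_mul, map_inv₀, map_pow, hx, one_pow, inv_one, one_mul]
    exact val_pow_sub_one hv hx.le _

/-- a polynomial with integral coefficients, one of which is a unit, at `ω` with `v(ω - 1)` close to
one -/
theorem eval_near_one (hv : IsNonarchimedean v) {Q : Polynomial ℂ} (R₀ : Subring ℂ)
    (hQ : ∀ i, Q.coeff i ∈ R₀) (hQ1 : ∀ i, v (Q.coeff i) ≤ 1) {i₀ : ℕ} (hi₀ : v (Q.coeff i₀) = 1)
    {c : ℝ} (gap : ∀ x ∈ R₀, v x < 1 → v x ≤ c) {ω : ℂ} (hω0 : 0 < v (ω - 1)) (hω1 : v (ω - 1) < 1)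
    {N : ℕ} (hN : Q.natDegree ≤ N) (hc : c < v (ω - 1) ^ N) :
    ∃ j ≤ N, v (Q.eval ω) = v (ω - 1) ^ j := by
  classical
  set P := Polynomial.taylor 1 Q with hP
  have hP1 : ∀ j, v (P.coeff j) ≤ 1 := fun j => taylor_le hv (by rw [map_one]) zero_le_one hQ1 j
  have hPR : ∀ j, P.coeff j ∈ R₀ := fun j => taylor_mem R₀ (one_mem R₀) hQ j
  have hQP : Q = Polynomial.taylor (-1) P := by
    rw [hP, Polynomial.taylor_taylor, neg_add_cancel, Polynomial.taylor_zero]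
  have hex : ∃ j, v (P.coeff j) = 1 := by
    by_contra hcon
    push Not at hcon
    have h1 : ∀ j, v (P.coeff j) ≤ max c 0 := fun j =>
      le_max_of_le_left (gap _ (hPR j) (lt_of_le_of_ne (hP1 j) (hcon j)))
    have h2 := taylor_le hv (Q := P) (r := -1) (by rw [v_neg, map_one]) (le_max_right c 0) h1 i₀
    rw [← hQP, hi₀] at h2
    have h3 : c < 1 := hc.trans_le (pow_le_one₀ hω0.le hω1.le)
    exact absurd h2 (not_le.2 (max_lt h3 one_pos))
  set j₀ := Nat.find hex with hj₀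
  have hj1 : v (P.coeff j₀) = 1 := Nat.find_spec hex
  have hjN : j₀ ≤ P.natDegree := by
    refine Polynomial.le_natDegree_of_ne_zero ?_
    intro h0
    rw [h0, map_zero] at hj1
    exact zero_ne_one hj1
  have hPN : P.natDegree = Q.natDegree := Polynomial.natDegree_taylor _ _
  refine ⟨j₀, by omega, ?_⟩
  have h1 : Q.eval ω = P.eval (ω - 1) := by
    rw [hP, Polynomial.taylor_eval, sub_add_cancel]
  rw [h1, Polynomial.eval_eq_sum_range, ← Finset.add_sum_erase _ _ (mem_range.2 (by omega : j₀ < P.natDegree + 1))]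
  have h2 : v (P.coeff j₀ * (ω - 1) ^ j₀) = v (ω - 1) ^ j₀ := by
    rw [map_mul, map_pow, hj1, one_mul]
  rw [v_add_eq hv, h2]
  rw [h2]
  have hB : max c (v (ω - 1) ^ (j₀ + 1)) < v (ω - 1) ^ j₀ := by
    refine max_lt (hc.trans_le (pow_le_pow_of_le_one hω0.le hω1.le (by omega))) ?_
    exact pow_lt_pow_right_of_lt_one₀ hω0 hω1 (by omega)
  refine lt_of_le_of_lt (val_sum_le hv _ _ (le_max_of_le_right (pow_nonneg hω0.le _)) fun j hj => ?_) hB
  rw [mem_erase, mem_range] at hj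
  rw [map_mul, map_pow]
  rcases Nat.lt_or_gt_of_ne hj.1 with h | h
  · have h3 : v (P.coeff j) ≠ 1 := Nat.find_min hex h
    have h4 := gap _ (hPR j) (lt_of_le_of_ne (hP1 j) h3)
    exact le_max_of_le_left ((mul_le_of_le_one_right (v.nonneg _) (pow_le_one₀ hω0.le hω1.le)).trans h4)
  · refine le_max_of_le_right ((mul_le_of_le_one_left (pow_nonneg hω0.le _) (hP1 j)).trans ?_)
    exact pow_le_pow_of_le_one hω0.le hω1.le (by omega)

lemma val_T_eq (hv : IsNonarchimedean v) {p t : ℕ} (hp : p.Prime) {ξ ω : ℂ}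
    (hξ : IsPrimitiveRoot ξ (p ^ (t + 1))) (hω : IsPrimitiveRoot ω (p ^ (t + 1))) :
    v (ω - 1) = v (ξ - 1) := by
  have h1 := (val_T hv hp hω).trans (val_T hv hp hξ).symm
  refine (pow_left_inj₀ (v.nonneg _) (v.nonneg _) ?_).1 h1
  exact (Nat.totient_pos.2 (pow_pos hp.pos _)).ne'

/-- the `p`-th power of a root of unity of order `p ^ (t + 1)` -/
lemma val_pow_p (hv : IsNonarchimedean v) {p t : ℕ} (hp : p.Prime) {ξ : ℂ}
    (hξ : IsPrimitiveRoot ξ (p ^ (t + 1))) : v (ξ ^ p - 1) ≤ v (ξ - 1) ^ p := by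
  rcases t with _ | t
  · rw [zero_add, pow_one] at hξ
    rw [hξ.pow_eq_one, sub_self, map_zero]
    exact pow_nonneg (v.nonneg _) _
  · have h1 : IsPrimitiveRoot (ξ ^ p) (p ^ (t + 1)) :=
      hξ.pow (pow_pos hp.pos _) (by rw [pow_succ p (t + 1), mul_comm])
    have h2 := val_T hv hp h1
    have h3 := val_T hv hp hξ
    have h4 : Nat.totient (p ^ (t + 1 + 1)) = p * Nat.totient (p ^ (t + 1)) := by
      rw [Nat.totient_prime_pow_succ hp, Nat.totient_prime_pow_succ hp, pow_succ]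
      ring
    rw [h4, pow_mul, ← h2] at h3
    refine ((pow_left_inj₀ (v.nonneg _) (pow_nonneg (v.nonneg _) _) ?_).1 h3.symm).le
    exact (Nat.totient_pos.2 (pow_pos hp.pos _)).ne'

/-- the polynomial `H(α τ ^ u, β τ ^ w) τ ^ K` -/
noncomputable def oneVar (H : MvPolynomial (Fin 2) ℤ) (α β : ℂ) (u w K : ℤ) : Polynomial ℂ :=
  ∑ m ∈ H.support, Polynomial.monomial (u * m 0 + w * m 1 + K).toNat
    (((H.coeff m : ℤ) : ℂ) * α ^ m 0 * β ^ m 1)

section oneVar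
variable {H : MvPolynomial (Fin 2) ℤ} {α β : ℂ} {u w K : ℤ} {D : ℕ}

lemma exp_nonneg (hD : ∀ m ∈ H.support, m 0 ≤ D ∧ m 1 ≤ D) (hK : D * (|u| + |w|) ≤ K) {m : Fin 2 →₀ ℕ}
    (hm : m ∈ H.support) : 0 ≤ u * m 0 + w * m 1 + K ∧ u * m 0 + w * m 1 + K ≤ 2 * K := by
  obtain ⟨h0, h1⟩ := hD m hm
  have h0' : (m 0 : ℤ) ≤ D := by exact_mod_cast h0
  have h1' : (m 1 : ℤ) ≤ D := by exact_mod_cast h1
  have e1 : |u * m 0| ≤ |u| * D := by
    rw [abs_mul, Nat.abs_cast]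
    exact mul_le_mul_of_nonneg_left h0' (abs_nonneg _)
  have e2 : |w * m 1| ≤ |w| * D := by
    rw [abs_mul, Nat.abs_cast]
    exact mul_le_mul_of_nonneg_left h1' (abs_nonneg _)
  rw [abs_le] at e1 e2
  constructor <;> nlinarith [e1.1, e1.2, e2.1, e2.2]

lemma natDegree_oneVar (hD : ∀ m ∈ H.support, m 0 ≤ D ∧ m 1 ≤ D) (hK : D * (|u| + |w|) ≤ K) :
    (oneVar H α β u w K).natDegree ≤ (2 * K).toNat := by
  refine Polynomial.natDegree_sum_le_of_forall_le _ _ fun m hm => ?_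
  refine (Polynomial.natDegree_monomial_le _).trans ?_
  have := exp_nonneg hD hK hm
  omega

lemma coeff_oneVar (i : ℕ) : (oneVar H α β u w K).coeff i =
    ∑ m ∈ H.support with (u * m 0 + w * m 1 + K).toNat = i, ((H.coeff m : ℤ) : ℂ) * α ^ m 0 * β ^ m 1 := by
  rw [oneVar, Polynomial.finsetSum_coeff, sum_filter]
  refine sum_congr rfl fun m _ => ?_
  rw [Polynomial.coeff_monomial]

lemma coeff_oneVar_mem (R₀ : Subring ℂ) (hα : α ∈ R₀) (hβ : β ∈ R₀) (i : ℕ) :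
    (oneVar H α β u w K).coeff i ∈ R₀ := by
  rw [coeff_oneVar]
  exact sum_mem fun m _ => mul_mem (mul_mem (intCast_mem R₀ _) (pow_mem hα _)) (pow_mem hβ _)

lemma coeff_oneVar_le (hv : IsNonarchimedean v) (hα : v α ≤ 1) (hβ : v β ≤ 1) (i : ℕ) :
    v ((oneVar H α β u w K).coeff i) ≤ 1 := by
  rw [coeff_oneVar]
  refine val_sum_le hv _ _ zero_le_one fun m _ => ?_
  rw [map_mul, map_mul, map_pow, map_pow]
  exact mul_le_one₀ (mul_le_one₀ (v_int_le hv _) (pow_nonneg (v.nonneg _) _)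
    (pow_le_one₀ (v.nonneg _) hα)) (pow_nonneg (v.nonneg _) _) (pow_le_one₀ (v.nonneg _) hβ)

lemma exists_unit_coeff (hH : NoCoset v H) (hα : v α = 1) (hβ : v β = 1) (h0 : ¬ (u = 0 ∧ w = 0))
    (hD : ∀ m ∈ H.support, m 0 ≤ D ∧ m 1 ≤ D) (hK : D * (|u| + |w|) ≤ K) :
    ∃ i, v ((oneVar H α β u w K).coeff i) = 1 := by
  classical
  obtain ⟨e, he⟩ := hH α β hα hβ u w h0
  refine ⟨(e + K).toNat, ?_⟩
  rw [coeff_oneVar]
  convert he using 3
  refine filter_congr fun m hm => ?_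
  have h1 := exp_nonneg hD hK hm
  constructor
  · intro h2
    by_cases h3 : 0 ≤ e + K
    · omega
    · exfalso
      -- the class of `e` is empty
      have h4 : (∑ m ∈ H.support with u * m 0 + w * m 1 = e,
          ((H.coeff m : ℤ) : ℂ) * α ^ m 0 * β ^ m 1) = 0 := by
        rw [filter_eq_empty_iff.2, sum_empty]
        intro m' hm' h5
        have := exp_nonneg hD hK hm'
        omega
      rw [h4, map_zero] at he
      exact zero_ne_one he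
  · intro h2
    rw [h2]

lemma eval_oneVar (hD : ∀ m ∈ H.support, m 0 ≤ D ∧ m 1 ≤ D) (hK : D * (|u| + |w|) ≤ K) {ω : ℂ}
    (hω : ω ≠ 0) : (oneVar H α β u w K).eval ω = ev H (α * ω ^ u) (β * ω ^ w) * ω ^ K := by
  rw [oneVar, Polynomial.eval_finsetSum, ev, sum_mul]
  refine sum_congr rfl fun m hm => ?_
  have h1 := exp_nonneg hD hK hm
  rw [Polynomial.eval_monomial, ← zpow_natCast ω, Int.toNat_of_nonneg h1.1, zpow_add₀ hω, zpow_add₀ hω,
    mul_pow, mul_pow, zpow_mul, zpow_mul, zpow_natCast, zpow_natCast]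
  ring

end oneVar

/-- **digits**: the value of `H` at a product of units and roots of unity of order `p ^ (t + 1)` is not
too small -/
theorem digits (hv : IsNonarchimedean v) {p t : ℕ} (hp : p.Prime) (hp4 : 4 ≤ p) (hvp : v (p : ℂ) < 1)
    {H : MvPolynomial (Fin 2) ℤ} (hH : NoCoset v H) {D : ℕ} (hD : ∀ m ∈ H.support, m 0 ≤ D ∧ m 1 ≤ D)
    (hpD : 64 * D ^ 2 ≤ p) {α β : ℂ} (hα : v α = 1) (hβ : v β = 1) (R₀ : Subring ℂ) (hαR : α ∈ R₀)
    (hβR : β ∈ R₀) {c : ℝ} (gap : ∀ x ∈ R₀, v x < 1 → v x ≤ c) {ξ : ℂ}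
    (hξ : IsPrimitiveRoot ξ (p ^ (t + 1))) {a b : ℤ} (hab : ¬ ((p : ℤ) ∣ a ∧ (p : ℤ) ∣ b))
    (hc : c < v (ξ - 1) ^ (p - 2)) :
    v (ξ - 1) ^ (p - 2) ≤ v (ev H (α * ξ ^ a) (β * ξ ^ b)) := by
  obtain ⟨u, w, κ, h0, hu, hw, hκ, ha, hb⟩ := dirichlet' hp hp4 hab
  have hT0 := val_T_pos (v := v) hp hξ
  have hT1 := val_T_lt hv hp hvp hξ
  have hpos : 0 < p ^ (t + 1) := pow_pos hp.pos _
  have hvξ : v ξ = 1 := val_root hpos hξ.pow_eq_one
  have hξ0 : ξ ≠ 0 := hξ.ne_zero hpos.ne'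
  set ω := ξ ^ κ with hω
  have hωp : IsPrimitiveRoot ω (p ^ (t + 1)) :=
    hξ.pow_of_coprime κ (Nat.Coprime.pow_right _ ((Nat.Prime.coprime_iff_not_dvd hp).2 hκ).symm)
  have hω0 : ω ≠ 0 := pow_ne_zero _ hξ0
  have hvω : v ω = 1 := val_root hpos hωp.pow_eq_one
  have hωT : v (ω - 1) = v (ξ - 1) := val_T_eq hv hp hξ hωp
  set K : ℤ := D * (|u| + |w|) with hK
  have hs : (Nat.sqrt p) ^ 2 ≤ p := by rw [sq]; exact Nat.sqrt_le p
  have hDs : 8 * D ≤ Nat.sqrt p := by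
    rw [Nat.le_sqrt]
    nlinarith
  have hK2 : (2 * K).toNat ≤ p - 2 := by
    have h1 : 2 * K ≤ 4 * D * Nat.sqrt p := by
      rw [hK]
      have hD0 : (0 : ℤ) ≤ D := Nat.cast_nonneg _
      nlinarith
    have h2 : 8 * D * Nat.sqrt p ≤ p := by nlinarith
    have h3 : (8 * D * Nat.sqrt p : ℤ) ≤ p := by exact_mod_cast h2
    have h4 : 2 * (2 * K) ≤ p := by nlinarith
    omega
  obtain ⟨i₀, hi₀⟩ := exists_unit_coeff hH hα hβ h0 hD hK.ge
  obtain ⟨j, hj, hval⟩ := eval_near_one hv (Q := oneVar H α β u w K) R₀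
    (coeff_oneVar_mem R₀ hαR hβR) (coeff_oneVar_le hv hα.le hβ.le) hi₀ gap (by rw [hωT]; exact hT0)
    (by rw [hωT]; exact hT1) ((natDegree_oneVar hD hK.ge).trans hK2) (by rw [hωT]; exact hc)
  rw [eval_oneVar hD hK.ge hω0, map_mul, map_zpow₀, hvω, one_zpow, mul_one, hωT] at hval
  -- the error
  have herr : ∀ {a u : ℤ}, (p : ℤ) ∣ a - κ * u → v (ξ ^ a - ω ^ u) ≤ v (ξ - 1) ^ p := by
    rintro a u ⟨a', ha'⟩
    have h1 : ξ ^ a = ω ^ u * (ξ ^ p) ^ a' := by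
      rw [hω, ← zpow_natCast, ← zpow_natCast, ← zpow_mul, ← zpow_mul, ← zpow_add₀ hξ0]
      congr 1
      linarith
    have h2 : ξ ^ a - ω ^ u = ω ^ u * ((ξ ^ p) ^ a' - 1) := by rw [h1]; ring
    rw [h2, map_mul, map_zpow₀, hvω, one_zpow, one_mul]
    exact (v_zpow_sub_one hv (by rw [map_pow, hvξ, one_pow]) a').trans (val_pow_p hv hp hξ)
  have hdiff : v (ev H (α * ξ ^ a) (β * ξ ^ b) - ev H (α * ω ^ u) (β * ω ^ w)) ≤ v (ξ - 1) ^ p := by
    refine (ev_sub_le hv H ?_ ?_ ?_ ?_).trans (max_le ?_ ?_)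
    · rw [map_mul, map_zpow₀, hα, hvξ, one_zpow, one_mul]
    · rw [map_mul, map_zpow₀, hα, hvω, one_zpow, one_mul]
    · rw [map_mul, map_zpow₀, hβ, hvξ, one_zpow, one_mul]
    · rw [map_mul, map_zpow₀, hβ, hvω, one_zpow, one_mul]
    · rw [← mul_sub, map_mul, hα, one_mul]
      exact herr ha
    · rw [← mul_sub, map_mul, hβ, one_mul]
      exact herr hb
  have hlt : v (ξ - 1) ^ p < v (ξ - 1) ^ j := pow_lt_pow_right_of_lt_one₀ hT0 hT1 (by omega)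
  rw [← hval] at hlt
  have h3 := v_eq_of_sub_lt hv (hdiff.trans_lt hlt)
  rw [h3, hval]
  exact pow_le_pow_of_le_one hT0.le hT1.le hj

end Pool.Agent.Helper20.DL
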