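import Pool.Agent.Helper20.DL.Near

/-! # The exceptional coordinate: Frobenius powers -/

open Finset

namespace Pool.Agent.Helper20.DL
open Pool.Agent.Helper20.ZD Pool.Agent.Helper11.LC

variable {v : AbsoluteValue ℂ ℝ}

lemma alg_root_unity {η : ℂ} {N : ℕ} (hN : 0 < N) (h : η ^ N = 1) : IsAlgebraic ℚ η := by
  refine IsAlgebraic.of_pow hN ?_
  rw [h]
  exact isAlgebraic_one

/-- a number field containing given algebraic numbers -/
lemma gap_set (hv : IsNonarchimedean v) {p : ℕ} (hp : p.Prime) (hvp : v (p : ℂ) < 1) {S : Set ℂ}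
    (hS : S.Finite) (halg : ∀ x ∈ S, IsAlgebraic ℚ x) :
    ∃ (R₀ : Subring ℂ) (c : ℝ), S ⊆ R₀ ∧ (∀ μ : ℚ, (μ : ℂ) ∈ R₀) ∧ 0 ≤ c ∧ c < 1 ∧
      ∀ x ∈ R₀, v x < 1 → v x ≤ c := by
  have := hS.to_subtype
  have h1 : FiniteDimensional ℚ (IntermediateField.adjoin ℚ S) :=
    IntermediateField.finiteDimensional_adjoin fun x hx => (halg x hx).isIntegral
  obtain ⟨c, h2, h3, h4⟩ := gap_field hv hp hvp (IntermediateField.adjoin ℚ S)
  refine ⟨(IntermediateField.adjoin ℚ S).toSubfield.toSubring, c, ?_, ?_, h2, h3, ?_⟩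
  · exact IntermediateField.subset_adjoin ℚ S
  · intro μ
    exact (IntermediateField.adjoin ℚ S).algebraMap_mem μ
  · intro x hx
    exact h4 x hx

lemma nthRoots_mem {N : ℕ} (hN : 0 < N) {η : ℂ} : η ∈ (Polynomial.nthRoots N (1 : ℂ)).toFinset ↔ η ^ N = 1 := by
  rw [Multiset.mem_toFinset, Polynomial.mem_nthRoots hN]

/-- the `p ^ (t - r)`-th powers of the roots of unity -/
lemma T_pow (hv : IsNonarchimedean v) {p r t : ℕ} (hp : p.Prime) (hrt : r ≤ t) {ξ ω : ℂ}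
    (hξ : IsPrimitiveRoot ξ (p ^ (t + 1))) (hω : IsPrimitiveRoot ω (p ^ (r + 1))) :
    v (ξ - 1) ^ p ^ (t - r) = v (ω - 1) := by
  have h1 := val_T hv hp hξ
  have h2 := val_T hv hp hω
  have h3 : Nat.totient (p ^ (t + 1)) = p ^ (t - r) * Nat.totient (p ^ (r + 1)) := by
    rw [Nat.totient_prime_pow_succ hp, Nat.totient_prime_pow_succ hp, ← mul_assoc, ← pow_add,
      Nat.sub_add_cancel hrt]
  rw [h3, pow_mul] at h1
  refine (pow_left_inj₀ (pow_nonneg (v.nonneg _) _) (v.nonneg _) ?_).1 (h1.trans h2.symm)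
  exact (Nat.totient_pos.2 (pow_pos hp.pos _)).ne'

/-- **step 1** -/
theorem exc_step1 (hv : IsNonarchimedean v) {p : ℕ} (hp : p.Prime) (hvp : v (p : ℂ) < 1) {μ : ℚ}
    (hμ : v (μ : ℂ) = 1) {D N₀ : ℕ} (hN₀ : 0 < N₀) {H F : MvPolynomial (Fin 2) ℤ}
    (hHD : ∀ m ∈ H.support, m 0 ≤ D ∧ m 1 ≤ D) (hFD : ∀ m ∈ F.support, m 1 ≤ D)
    {m₀ m₁ m₂ : Fin 2 →₀ ℕ} (h0 : m₀ 0 = 0) (h0' : v ((H.coeff m₀ : ℤ) : ℂ) = 1)
    (h1 : v ((H.coeff m₁ : ℤ) : ℂ) = 1) (h1' : ∀ m ∈ H.support, m 0 ≤ m₁ 0)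
    (h2 : m₂ 0 = 0) (h2' : v ((F.coeff m₂ : ℤ) : ℂ) = 1) :
    ∃ (r : ℕ) (T : Finset (ℂ × ℂ)) (ρ : ℝ), ρ < 1 ∧
      (∀ τ ∈ T, IsAlgebraic ℚ τ.1 ∧ IsAlgebraic ℚ τ.2) ∧
      ∀ (w y s η ξ : ℂ) (t : ℕ), v w < 1 → v y = 1 → ev H w s = 0 → ev F w y = 0 →
        v (s - μ * (η * ξ)) ≤ v (p : ℂ) → η ^ N₀ = 1 → IsPrimitiveRoot ξ (p ^ (t + 1)) → r ≤ t →
        v (p : ℂ) ≤ v w ∧ ∃ τ ∈ T, v (w ^ p ^ (t - r) / τ.1 - 1) ≤ ρ ∧
          v (y ^ p ^ (t - r) / τ.2 - 1) ≤ ρ := by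
  classical
  have hp0 : 0 < v (p : ℂ) := v.pos (by exact_mod_cast hp.ne_zero)
  obtain ⟨R₀, c₀, hR₀, hQ, hc0, hc1, gap⟩ := gap_set hv hp hvp (S := {η : ℂ | η ^ N₀ = 1})
    (by
      refine (Finset.finite_toSet (Polynomial.nthRoots N₀ (1 : ℂ)).toFinset).subset ?_
      intro η hη
      exact Finset.mem_coe.2 ((nthRoots_mem hN₀).2 hη))
    (fun η hη => alg_root_unity hN₀ hη)
  obtain ⟨r, hr⟩ := T_large hv hp hvp (c := max c₀ (v (p : ℂ))) (max_lt hc1 hvp) (D * D + D)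
  have hpr : p ^ (r + 1) ≠ 0 := pow_ne_zero _ hp.ne_zero
  have hω₀ := Complex.isPrimitiveRoot_exp (p ^ (r + 1)) hpr
  set ω₀ : ℂ := Complex.exp (2 * Real.pi * Complex.I / (p ^ (r + 1) : ℕ)) with hω₀'
  set θ := v (ω₀ - 1) with hθ
  have hθr := hr r le_rfl ω₀ hω₀
  have hθ0 : 0 < θ := val_T_pos hp hω₀
  have hθ1 : θ < 1 := val_T_lt hv hp hvp hω₀
  have hcθ : c₀ < θ ^ (D * D + D) := lt_of_le_of_lt (le_max_left _ _) hθr
  have hpθ : v (p : ℂ) < θ ^ (D * D + D) := lt_of_le_of_lt (le_max_right _ _) hθr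
  have hθD : θ ^ (D * D + D) ≤ θ ^ D := pow_le_pow_of_le_one hθ0.le hθ1.le (by omega)
  have hθD0 : 0 < θ ^ D := pow_pos hθ0 _
  obtain ⟨ρa, ha0, ha1, ha⟩ := exists_rho (ε := v (p : ℂ) / θ ^ (D * D + D))
    ((div_lt_one (pow_pos hθ0 _)).2 hpθ) (by positivity) D
  obtain ⟨ρc, hρc0, hρc1, hρc⟩ := exists_rho (ε := max (v (p : ℂ)) ρa) (max_lt hvp ha1)
    (le_max_of_le_right ha0) D
  refine ⟨r, (Polynomial.nthRoots N₀ (1 : ℂ)).toFinset.biUnion fun η =>
    (Polynomial.nthRoots (p ^ (r + 1)) (1 : ℂ)).toFinset.biUnion fun ω =>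
      (inX H (μ * (η * ω))).roots.toFinset.biUnion fun z =>
        (inY F z).roots.toFinset.image fun z' => (z, z'), max ρa ρc, max_lt ha1 hρc1, ?_, ?_⟩
  · intro τ hτ
    simp only [Finset.mem_biUnion, Finset.mem_image, nthRoots_mem hN₀, nthRoots_mem (pow_pos hp.pos _),
      Multiset.mem_toFinset] at hτ
    obtain ⟨η, hη, ω, hω, z, hz, z', hz', rfl⟩ := hτ
    have e1 : IsAlgebraic ℚ ((μ : ℂ) * (η * ω)) :=
      (isAlgebraic_algebraMap μ).mul ((alg_root_unity hN₀ hη).mul (alg_root_unity (pow_pos hp.pos _) hω))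
    have e2 : IsAlgebraic ℚ z := alg_root (Polynomial.ne_zero_of_mem_roots hz) (inX_alg H e1)
      (Polynomial.isRoot_of_mem_roots hz)
    exact ⟨e2, alg_root (Polynomial.ne_zero_of_mem_roots hz') (inY_alg F e2)
      (Polynomial.isRoot_of_mem_roots hz')⟩
  · intro w y s η ξ t hw hy hHs hFy hs hη hξ hrt
    set q := p ^ (t - r) with hq
    have hq0 : 0 < q := pow_pos hp.pos _
    have hTq : v (ξ - 1) ^ q = θ := T_pow hv hp hrt hξ hω₀
    have hT0 : 0 < v (ξ - 1) := val_T_pos hp hξ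
    have hT1 : v (ξ - 1) < 1 := val_T_lt hv hp hvp hξ
    have hθT : θ ≤ v (ξ - 1) := by
      rw [← hTq]
      calc v (ξ - 1) ^ q ≤ v (ξ - 1) ^ 1 := pow_le_pow_of_le_one hT0.le hT1.le hq0
        _ = _ := pow_one _
    have hθTD : θ ^ D ≤ v (ξ - 1) ^ D := pow_le_pow_left₀ hθ0.le hθT D
    have vη : v η = 1 := val_root hN₀ hη
    have vξ : v ξ = 1 := val_root (pow_pos hp.pos _) hξ.pow_eq_one
    have ηR : η ∈ R₀ := hR₀ hη
    have vα : v ((μ : ℂ) * η) = 1 := by rw [map_mul, hμ, vη, one_mul]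
    have vαξ : v ((μ : ℂ) * η * ξ) = 1 := by rw [map_mul, vα, vξ, one_mul]
    rw [← mul_assoc] at hs
    have vs : v s = 1 := by
      rw [v_eq_of_sub_lt hv (x := s) (c := (μ : ℂ) * η * ξ) (by rw [vαξ]; exact lt_of_le_of_lt hs hvp), vαξ]
    have k1 : v (ev H w (μ * η * ξ)) ≤ v (p : ℂ) := by
      have h := ev_sub_le hv H hw.le hw.le vαξ.le vs.le
      rw [hHs, sub_zero, sub_self, map_zero, v_sub_comm, max_eq_right (v.nonneg _)] at h
      exact h.trans hs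
    have k2 : v (ξ - 1) ^ D ≤ v w := by
      have h3 := row_val hv h0' (fun m hm => (hHD m hm).2) R₀ vα (mul_mem (hQ μ) ηR) gap hT0 hT1
        (lt_of_lt_of_le (hcθ.trans_le hθD) hθTD)
      rw [h0, Polynomial.coeff_zero_eq_eval_zero, inX_eval] at h3
      by_contra hcon
      push Not at hcon
      have h4 := ev_sub_le hv H (x := w) (x' := 0) (y := μ * η * ξ) (y' := μ * η * ξ) hw.le
        (by rw [map_zero]; exact zero_le_one) vαξ.le vαξ.le
      rw [sub_zero, sub_self, map_zero, max_eq_left (v.nonneg _)] at h4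
      have h5 : v (ev H 0 (μ * η * ξ)) ≤ max (v (p : ℂ)) (v w) := by
        have h6 : ev H 0 (μ * η * ξ) = ev H w (μ * η * ξ) - (ev H w (μ * η * ξ) - ev H 0 (μ * η * ξ)) := by
          ring
        rw [h6]
        exact (v_sub_le hv _ _).trans (max_le_max k1 h4)
      have h7 : max (v (p : ℂ)) (v w) < v (ξ - 1) ^ D :=
        max_lt (lt_of_lt_of_le (hpθ.trans_le hθD) hθTD) hcon
      exact absurd (h3.trans h5) (not_le.2 h7)
    have k3 : θ ^ D ≤ v (w ^ q) := by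
      rw [map_pow, ← hTq, ← pow_mul, mul_comm, pow_mul]
      exact pow_le_pow_left₀ (pow_nonneg hT0.le _) k2 q
    have hpw : v (p : ℂ) ≤ v w := ((hpθ.trans_le hθD).le.trans hθTD).trans k2
    have hω : IsPrimitiveRoot (ξ ^ q) (p ^ (r + 1)) := by
      refine hξ.pow (pow_pos hp.pos _) ?_
      rw [hq, ← pow_add]
      congr 1
      omega
    have vω : v (ξ ^ q) = 1 := by rw [map_pow, vξ, one_pow]
    have vα' : v ((μ : ℂ) * η ^ q) = 1 := by rw [map_mul, map_pow, hμ, vη, one_pow, one_mul]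
    have hWle : v (w ^ q) < 1 := by rw [map_pow]; exact pow_lt_one₀ (v.nonneg _) hw hq0.ne'
    have k4 : v (ev H (w ^ q) (μ * η ^ q * ξ ^ q)) ≤ v (p : ℂ) := by
      have e1 := frob hv hp H hw.le vαξ.le (t - r)
      rw [← hq] at e1
      have e2 : v (ev H w (μ * η * ξ) ^ q) ≤ v (p : ℂ) := by
        rw [map_pow]
        calc v (ev H w (μ * η * ξ)) ^ q ≤ v (ev H w (μ * η * ξ)) ^ 1 :=
              pow_le_pow_of_le_one (v.nonneg _) (k1.trans hvp.le) hq0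
          _ ≤ v (p : ℂ) := by rw [pow_one]; exact k1
      have e3 : v (ev H (w ^ q) ((μ * η * ξ) ^ q)) ≤ v (p : ℂ) := by
        have e4 : ev H (w ^ q) ((μ * η * ξ) ^ q) = (ev H (w ^ q) ((μ * η * ξ) ^ q) -
          ev H w (μ * η * ξ) ^ q) + ev H w (μ * η * ξ) ^ q := by ring
        rw [e4]
        exact (hv _ _).trans (max_le e1 e2)
      have e5 : v ((μ : ℂ) * η ^ q * ξ ^ q - (μ * η * ξ) ^ q) ≤ v (p : ℂ) := by
        have e6 : (μ : ℂ) * η ^ q * ξ ^ q - (μ * η * ξ) ^ q = -(((μ : ℂ) ^ q - μ) * (η ^ q * ξ ^ q)) := by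
          ring
        rw [e6, v_neg, map_mul, map_mul, map_pow, map_pow, vη, vξ, one_pow, mul_one, mul_one]
        exact rat_pow hv hp hvp hμ _
      have e7 := ev_sub_le hv H (x := w ^ q) (x' := w ^ q) (y := μ * η ^ q * ξ ^ q)
        (y' := (μ * η * ξ) ^ q) hWle.le hWle.le (by rw [map_mul, vα', vω, one_mul])
        (by rw [map_pow, vαξ, one_pow])
      rw [sub_self, map_zero, max_eq_right (v.nonneg _)] at e7
      have e8 : ev H (w ^ q) (μ * η ^ q * ξ ^ q) = (ev H (w ^ q) (μ * η ^ q * ξ ^ q) -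
          ev H (w ^ q) ((μ * η * ξ) ^ q)) + ev H (w ^ q) ((μ * η * ξ) ^ q) := by ring
      rw [e8]
      exact (hv _ _).trans (max_le (e7.trans e5) e3)
    have hTω : v (ξ ^ q - 1) = θ := val_T_eq hv hp hω₀ hω
    have k5 := row_val hv h1 (fun m hm => (hHD m hm).2) R₀ vα' (mul_mem (hQ μ) (pow_mem ηR q)) gap
      (ω := ξ ^ q) (by rw [hTω]; exact hθ0) (by rw [hTω]; exact hθ1) (by rw [hTω]; exact hcθ.trans_le hθD)
    rw [hTω] at k5
    have k6 : (inX H (μ * η ^ q * ξ ^ q)).natDegree = m₁ 0 := by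
      refine le_antisymm (inX_natDegree h1' _) (Polynomial.le_natDegree_of_ne_zero fun h => ?_)
      rw [h, map_zero] at k5
      linarith
    obtain ⟨z, hz, hzn, -⟩ := root_near (P := inX H (μ * η ^ q * ξ ^ q)) (D := D) (x := w ^ q) (L := θ ^ D)
      (δ := v (p : ℂ)) (inX_natDegree (fun m hm => (hHD m hm).1) _)
      (by rw [Polynomial.leadingCoeff, k6]; exact k5) hθD0 (by rw [inX_eval]; exact k4) (hpθ.trans_le hθD)
    have k7 : v (w ^ q - z) ≤ ρa * θ ^ D := by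
      refine (lt_of_pow_lt_pow_left₀ D (by positivity) ?_).le
      rw [mul_pow, ← pow_mul]
      rw [div_lt_iff₀ (pow_pos hθ0 _), pow_add, ← mul_assoc] at ha
      exact lt_of_mul_lt_mul_right (lt_of_le_of_lt hzn ha) hθD0.le
    have k8 : v (w ^ q - z) ≤ ρa * v (w ^ q) := k7.trans (mul_le_mul_of_nonneg_left k3 ha0)
    have hW0 : 0 < v (w ^ q) := hθD0.trans_le k3
    have vz : v z = v (w ^ q) := by
      refine v_eq_of_sub_lt hv ?_
      rw [v_sub_comm]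
      refine lt_of_le_of_lt k8 ?_
      nlinarith
    have hz0 : z ≠ 0 := by
      rintro rfl
      rw [map_zero] at vz
      linarith
    have k9 : v (w ^ q / z - 1) ≤ ρa := by
      have e1 : w ^ q / z - 1 = (w ^ q - z) / z := by field_simp
      rw [e1, map_div₀, vz, div_le_iff₀ hW0]
      exact k8
    -- the second coordinate
    have hYle : v (y ^ q) = 1 := by rw [map_pow, hy, one_pow]
    have k10 : v (ev F z (y ^ q)) ≤ max (v (p : ℂ)) ρa := by
      have e1 := frob hv hp F hw.le hy.le (t - r)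
      rw [← hq, hFy, zero_pow hq0.ne', sub_zero] at e1
      have e2 := ev_sub_le hv F (x := z) (x' := w ^ q) (y := y ^ q) (y' := y ^ q) (by rw [vz]; exact hWle.le)
        hWle.le hYle.le hYle.le
      rw [sub_self, map_zero, max_eq_left (v.nonneg _), v_sub_comm v z] at e2
      have e3 : ev F z (y ^ q) = ev F (w ^ q) (y ^ q) + (ev F z (y ^ q) - ev F (w ^ q) (y ^ q)) := by ring
      rw [e3]
      refine (hv _ _).trans (max_le_max e1 ?_)
      refine e2.trans (k8.trans ?_)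
      nlinarith
    obtain ⟨z', hz', hzn', -⟩ := root_gauss hv (P := inY F z) (D := D) (x := y ^ q)
      (inY_natDegree hFD _) (inY_unit hv h2 h2' (by rw [vz]; exact hWle)) hYle.le
      (by rw [inY_eval]; exact k10) (max_lt hvp ha1)
    have k11 : v (y ^ q - z') < ρc := by
      refine lt_of_pow_lt_pow_left₀ D hρc0 ?_
      exact lt_of_le_of_lt hzn' hρc
    have vz' : v z' = 1 := by
      rw [← hYle]
      refine v_eq_of_sub_lt hv ?_
      rw [v_sub_comm, hYle]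
      exact k11.trans hρc1
    have hz0' : z' ≠ 0 := by
      rintro rfl
      rw [map_zero] at vz'
      exact zero_ne_one vz'
    have k12 : v (y ^ q / z' - 1) ≤ ρc := by
      have e1 : y ^ q / z' - 1 = (y ^ q - z') / z' := by field_simp
      rw [e1, map_div₀, vz', div_one]
      exact k11.le
    refine ⟨hpw, (z, z'), ?_, k9.trans (le_max_left _ _), k12.trans (le_max_right _ _)⟩
    simp only [Finset.mem_biUnion, Finset.mem_image, nthRoots_mem hN₀, nthRoots_mem (pow_pos hp.pos _),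
      Multiset.mem_toFinset]
    refine ⟨η ^ q, by rw [← pow_mul, mul_comm, pow_mul, hη, one_pow], ξ ^ q, hω.pow_eq_one, z, ?_, z', hz', rfl⟩
    rw [← mul_assoc]
    exact hz

end Pool.Agent.Helper20.DL
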