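import Pool.Agent.Helper20.DL.Exc1

/-! # The exceptional coordinate: the second coordinate is near a root of unity times a constant -/

open Finset

namespace Pool.Agent.Helper20.DL
open Pool.Agent.Helper20.ZD Pool.Agent.Helper11.LC

variable {v : AbsoluteValue ℂ ℝ}

lemma near_zpow (hv : IsNonarchimedean v) {ρ : ℝ} (hρ : ρ < 1) {u : ℂ} (hu : v (u - 1) ≤ ρ) (k : ℤ) :
    v (u ^ k - 1) ≤ ρ := by
  rcases Int.eq_nat_or_neg k with ⟨n, rfl | rfl⟩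
  · rw [zpow_natCast]
    exact near_pow hv hρ hu n
  · rw [zpow_neg, zpow_natCast]
    exact near_inv hv hρ (near_pow hv hρ hu n)

/-- a root of a number near one -/
lemma root_extract {n : ℕ} (hn : 0 < n) {x : ℂ} {ρ : ℝ} (hρ : ρ < 1)
    (h : v (x ^ n - 1) ≤ ρ) : ∃ ω : ℂ, ω ^ n = 1 ∧ v (x - ω) ^ n ≤ ρ := by
  obtain ⟨z, hz, h1, -⟩ := root_near (P := (Polynomial.X ^ n - 1 : Polynomial ℂ)) (D := n) (x := x) (L := 1)
    (δ := ρ) (by rw [← Polynomial.C_1]; exact (Polynomial.natDegree_X_pow_sub_C).le)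
    (by
      have h2 : (Polynomial.X ^ n - 1 : Polynomial ℂ).Monic := by
        rw [← Polynomial.C_1]
        exact Polynomial.monic_X_pow_sub_C 1 hn.ne'
      rw [h2.leadingCoeff, map_one]) one_pos (by simpa using h) hρ
  refine ⟨z, ?_, by rwa [mul_one] at h1⟩
  have h2 := Polynomial.isRoot_of_mem_roots hz
  rw [Polynomial.IsRoot, Polynomial.eval_sub, Polynomial.eval_pow, Polynomial.eval_X, Polynomial.eval_one,
    sub_eq_zero] at h2
  exact h2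

lemma pow_inj {x : ℝ} (h0 : 0 < x) (h1 : x < 1) {a b : ℕ} (h : x ^ a = x ^ b) : a = b :=
  (pow_right_injective₀ h0 h1.ne) h

/-- **step 2** -/
theorem exc_step2 (hv : IsNonarchimedean v) {p : ℕ} (hp : p.Prime) (hvp : v (p : ℂ) < 1) {m : ℕ}
    {ν A : ℚ} (hν : v (ν : ℂ) = 1) (hA : v (A : ℂ) = 1) {y₁ v₁ : ℂ}
    (hy₁ : IsAlgebraic ℚ y₁) (hv₁ : IsAlgebraic ℚ v₁) {ρ : ℝ} (hρ : ρ < 1) :
    ∃ (B : Finset ℂ) (ρ' : ℝ), ρ' < 1 ∧ (∀ β ∈ B, IsAlgebraic ℚ β ∧ v β = 1) ∧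
      ∀ (w y ζ' ε : ℂ) (a d k : ℕ) (σ : ℤ), v w < 1 → w ≠ 0 → v y = 1 → 0 < a → 0 < d → Nat.Coprime a d →
        v w ^ a = v (p : ℂ) ^ (m * d) → (σ = 1 ∨ σ = -1) →
        (A * y) ^ d * w ^ a = ζ' * p ^ (m * d) * ((ν * y) ^ σ) ^ a * (1 + ε) →
        (∃ j, 0 < j ∧ ζ' ^ j = 1) → v ε ≤ v (p : ℂ) → v (w ^ p ^ k / y₁ - 1) ≤ ρ →
        v (y ^ p ^ k / v₁ - 1) ≤ ρ → ∃ β ∈ B, ∃ (ζ₆ : ℂ) (j : ℕ), 0 < j ∧ ζ₆ ^ j = 1 ∧ v (y - ζ₆ * β) ≤ ρ' := by
  classical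
  have hp0 : 0 < v (p : ℂ) := v.pos (by exact_mod_cast hp.ne_zero)
  have hpne : (p : ℂ) ≠ 0 := by exact_mod_cast hp.ne_zero
  by_cases hy1 : v y₁ < 1 ∧ y₁ ≠ 0
  swap
  · refine ⟨∅, 0, zero_lt_one, fun β hβ => absurd hβ (Finset.notMem_empty β), ?_⟩
    intro w y ζ' ε a d k σ hw hw0 hy ha hd hcop hwa hσ hrel hζ hε h1 h2
    exfalso
    apply hy1
    have h3 : v (w ^ p ^ k / y₁) = 1 := v_one_of_near hv (h1.trans_lt hρ)
    have h4 : y₁ ≠ 0 := by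
      rintro rfl
      rw [div_zero, map_zero] at h3
      exact zero_ne_one h3
    refine ⟨?_, h4⟩
    rw [map_div₀, div_eq_one_iff_eq ((AbsoluteValue.ne_zero_iff v).2 h4)] at h3
    rw [← h3, map_pow]
    exact pow_lt_one₀ (v.nonneg _) hw (pow_pos hp.pos _).ne'
  obtain ⟨hy1, hy0⟩ := hy1
  obtain ⟨κ', l, hκ', -, hl⟩ := v_alg hv hp hvp hy0 hy₁ le_rfl
  have hl0 : 0 < l := by
    by_contra hcon
    push Not at hcon
    have h1 : 1 ≤ v (p : ℂ) ^ l := one_le_zpow_of_nonpos₀ hp0 hvp.le hcon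
    have h2 : v y₁ ^ κ' < 1 := pow_lt_one₀ (v.nonneg _) hy1 hκ'.ne'
    rw [hl] at h2
    linarith
  obtain ⟨κ, rfl⟩ := Int.eq_ofNat_of_zero_le hl0.le
  have hκ : 0 < κ := by exact_mod_cast hl0
  rw [zpow_natCast] at hl
  set ρ₃ := max ρ (v (p : ℂ)) with hρ₃
  have hρ₃1 : ρ₃ < 1 := max_lt hρ hvp
  have hρ₃0 : 0 ≤ ρ₃ := le_max_of_le_right hp0.le
  obtain ⟨ρ', h0', h1', h2'⟩ := exists_rho hρ₃1 hρ₃0 (κ * κ)
  -- the constants
  let b₀ : ℕ → ℤ → ℂ := fun d σ =>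
    (p : ℂ) ^ (m * d * κ) * ((ν * v₁) ^ σ) ^ (κ' * m * d) / (y₁ ^ (κ' * m * d) * (A : ℂ) ^ (d * κ))
  have hb₀ : ∀ d σ, IsAlgebraic ℚ (b₀ d σ) := by
    intro d σ
    have e1 : IsAlgebraic ℚ (ν : ℂ) := isAlgebraic_algebraMap ν
    have e2 : IsAlgebraic ℚ (A : ℂ) := isAlgebraic_algebraMap A
    have e3 : IsAlgebraic ℚ (p : ℂ) := isAlgebraic_natCast p
    rw [← mem_algebraicClosure_iff] at e1 e2 e3 hy₁ hv₁ ⊢
    exact div_mem (mul_mem (pow_mem e3 _) (pow_mem (zpow_mem (mul_mem e1 hv₁) _) _))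
      (mul_mem (pow_mem hy₁ _) (pow_mem e2 _))
  let R : ℕ → ℤ → Finset ℂ := fun d σ => (Polynomial.nthRoots (d * κ) (b₀ d σ)).toFinset
  refine ⟨((Finset.Icc 1 κ).biUnion fun d => R d 1 ∪ R d (-1)).filter fun β => v β = 1, ρ', h1', ?_, ?_⟩
  · intro β hβ
    rw [Finset.mem_filter, Finset.mem_biUnion] at hβ
    obtain ⟨⟨d, hd, hβ⟩, hβ1⟩ := hβ
    refine ⟨?_, hβ1⟩
    rw [Finset.mem_Icc] at hd
    have hdk : 0 < d * κ := Nat.mul_pos (by omega) hκ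
    rw [Finset.mem_union, Multiset.mem_toFinset, Multiset.mem_toFinset, Polynomial.mem_nthRoots hdk,
      Polynomial.mem_nthRoots hdk] at hβ
    rcases hβ with hβ | hβ
    · exact IsAlgebraic.of_pow hdk (by rw [hβ]; exact hb₀ _ _)
    · exact IsAlgebraic.of_pow hdk (by rw [hβ]; exact hb₀ _ _)
  · intro w y ζ' ε a d k σ hw hw0 hy ha hd hcop hwa hσ hrel ⟨j, hj, hζj⟩ hε h1 h2
    set q := p ^ k with hq
    have hq0 : 0 < q := pow_pos hp.pos _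
    have vW : v w ^ q = v y₁ := by
      have h3 : v (w ^ q / y₁) = 1 := v_one_of_near hv (h1.trans_lt hρ)
      rw [map_div₀, div_eq_one_iff_eq ((AbsoluteValue.ne_zero_iff v).2 hy0), map_pow] at h3
      exact h3
    have hexp : κ * a = m * d * q * κ' := by
      refine pow_inj hp0 hvp ?_
      rw [pow_mul, ← hl, ← vW, ← pow_mul, ← pow_mul, show q * (κ' * a) = a * (q * κ') by ring, pow_mul, hwa,
        ← pow_mul]
      ring_nf
    have hdκ : d ∣ κ := by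
      have h3 : d ∣ κ * a := by rw [hexp]; exact ⟨m * q * κ', by ring⟩
      exact (Nat.Coprime.dvd_of_dvd_mul_right hcop.symm h3)
    have hdle : d ≤ κ := Nat.le_of_dvd hκ hdκ
    have hn : 0 < d * κ := Nat.mul_pos hd hκ
    have hv10 : v₁ ≠ 0 := by
      rintro rfl
      have h3 : v (y ^ q / 0) = 1 := v_one_of_near hv (h2.trans_lt hρ)
      rw [div_zero, map_zero] at h3
      exact zero_ne_one h3
    have hy00 : y ≠ 0 := by
      rintro rfl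
      rw [map_zero] at hy
      exact zero_ne_one hy
    have hν0 : (ν : ℂ) ≠ 0 := by
      intro h
      rw [h, map_zero] at hν
      exact zero_ne_one hν
    have hA0 : (A : ℂ) ≠ 0 := by
      intro h
      rw [h, map_zero] at hA
      exact zero_ne_one hA
    -- the factors near one
    set u₁ := w ^ q / y₁ with hu₁
    set u₂ := y ^ q / v₁ with hu₂
    set u₃ := (ν : ℂ) ^ q / ν with hu₃
    have n0 : v ((1 + ε) - 1) ≤ ρ₃ := by
      rw [add_sub_cancel_left]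
      exact hε.trans (le_max_right _ _)
    have n1 : v (u₁ - 1) ≤ ρ₃ := h1.trans (le_max_left _ _)
    have n2 : v (u₂ - 1) ≤ ρ₃ := h2.trans (le_max_left _ _)
    have n3 : v (u₃ - 1) ≤ ρ₃ := by
      have h3 : u₃ - 1 = ((ν : ℂ) ^ q - ν) / ν := by rw [hu₃]; field_simp
      rw [h3, map_div₀, hν, div_one]
      exact (rat_pow hv hp hvp hν k).trans (le_max_right _ _)
    set e := κ' * m * d with he
    set u := (1 + ε) ^ κ * ((u₃ * u₂) ^ σ) ^ e * (u₁ ^ e)⁻¹ with hu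
    have n4 : v (u - 1) ≤ ρ₃ := by
      refine near_mul hv hρ₃1 (near_mul hv hρ₃1 (near_pow hv hρ₃1 n0 κ)
        (near_pow hv hρ₃1 (near_zpow hv hρ₃1 (near_mul hv hρ₃1 n3 n2) σ) e))
        (near_inv hv hρ₃1 (near_pow hv hρ₃1 n1 e))
    have hu₁0 : u₁ ≠ 0 := div_ne_zero (pow_ne_zero _ hw0) hy0
    -- the relation
    have hkey : y ^ (d * κ) = ζ' ^ κ * b₀ d σ * u := by
      have e1 : ((A * y) ^ d * w ^ a) ^ κ = (ζ' * p ^ (m * d) * ((ν * y) ^ σ) ^ a * (1 + ε)) ^ κ := by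
        rw [hrel]
      have e2 : (w ^ a) ^ κ = (w ^ q) ^ e := by
        rw [← pow_mul, ← pow_mul]
        congr 1
        rw [he, mul_comm a κ, hexp]
        ring
      have e3 : (((ν * y) ^ σ) ^ a) ^ κ = (((ν * y) ^ q) ^ σ) ^ e := by
        rw [← pow_mul, mul_comm a κ, hexp, ← zpow_natCast (((ν * y) ^ σ)), ← zpow_natCast ((((ν * y) ^ q) ^ σ)),
          ← zpow_natCast (ν * y) q, ← zpow_mul, ← zpow_mul, ← zpow_mul]
        congr 1
        rw [he]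
        push_cast
        ring
      have e4 : w ^ q = y₁ * u₁ := by rw [hu₁]; field_simp
      have e5 : (ν * y) ^ q = (ν * v₁) * (u₃ * u₂) := by
        rw [hu₃, hu₂, mul_pow]; field_simp
      rw [mul_pow, mul_pow (ζ' * p ^ (m * d) * ((ν * y) ^ σ) ^ a), mul_pow (ζ' * p ^ (m * d)), mul_pow ζ', e2, e3,
        e4, e5, mul_zpow, mul_pow y₁, mul_pow ((ν * v₁) ^ σ), ← pow_mul, mul_pow, ← pow_mul (p : ℂ)] at e1
      have e6 : (A : ℂ) ^ (d * κ) ≠ 0 := pow_ne_zero _ hA0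
      have e7 : y₁ ^ e ≠ 0 := pow_ne_zero _ hy0
      have e8 : u₁ ^ e ≠ 0 := pow_ne_zero _ hu₁0
      have e9 : y ^ (d * κ) = ((A : ℂ) ^ (d * κ) * y ^ (d * κ) * (y₁ ^ e * u₁ ^ e)) /
          ((A : ℂ) ^ (d * κ) * (y₁ ^ e * u₁ ^ e)) := by
        field_simp
      rw [e9, e1, hu]
      change _ = ζ' ^ κ * ((p : ℂ) ^ (m * d * κ) * ((ν * v₁) ^ σ) ^ e / (y₁ ^ e * (A : ℂ) ^ (d * κ))) * _
      field_simp
    have vζ : v ζ' = 1 := val_root hj hζj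
    have vu : v u = 1 := v_one_of_near hv (n4.trans_lt hρ₃1)
    have vb : v (b₀ d σ) = 1 := by
      have h3 := congrArg v hkey
      rw [map_mul, map_mul, map_pow, map_pow, hy, vζ, vu, one_pow, one_pow, mul_one, one_mul] at h3
      exact h3.symm
    obtain ⟨β, hβ⟩ := IsAlgClosed.exists_pow_nat_eq (b₀ d σ) hn
    obtain ⟨ζ₅, hζ₅⟩ := IsAlgClosed.exists_pow_nat_eq (ζ' ^ κ) hn
    have vβ : v β = 1 := by
      have h3 : v β ^ (d * κ) = 1 := by rw [← map_pow, hβ, vb]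
      exact (pow_eq_one_iff_of_nonneg (v.nonneg _) hn.ne').1 h3
    have hζ5j : ζ₅ ^ (d * κ * j) = 1 := by
      rw [pow_mul, hζ₅, ← pow_mul, mul_comm κ j, pow_mul, hζj, one_pow]
    have hj5 : 0 < d * κ * j := Nat.mul_pos hn hj
    have vζ5 : v ζ₅ = 1 := val_root hj5 hζ5j
    have hβ0 : β ≠ 0 := by
      rintro rfl
      rw [map_zero] at vβ
      exact zero_ne_one vβ
    have hζ50 : ζ₅ ≠ 0 := by
      rintro rfl
      rw [map_zero] at vζ5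
      exact zero_ne_one vζ5
    have hx : (y / (ζ₅ * β)) ^ (d * κ) = u := by
      rw [div_pow, mul_pow, hζ₅, hβ, hkey]
      have h3 : ζ' ^ κ * b₀ d σ ≠ 0 := by
        rw [← hζ₅, ← hβ]
        exact mul_ne_zero (pow_ne_zero _ hζ50) (pow_ne_zero _ hβ0)
      exact mul_div_cancel_left₀ u h3
    obtain ⟨ω, hω, hωn⟩ := root_extract (v := v) hn hρ₃1 (x := y / (ζ₅ * β)) (by rw [hx]; exact n4)
    have hfin : v (y / (ζ₅ * β) - ω) ≤ ρ' := by
      refine (lt_of_pow_lt_pow_left₀ (d * κ) h0' ?_).le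
      refine lt_of_le_of_lt hωn (lt_of_lt_of_le h2' ?_)
      exact pow_le_pow_of_le_one h0' h1'.le (Nat.mul_le_mul_right κ hdle)
    refine ⟨β, ?_, ω * ζ₅, d * κ * j, hj5, ?_, ?_⟩
    · rw [Finset.mem_filter, Finset.mem_biUnion]
      refine ⟨⟨d, Finset.mem_Icc.2 ⟨hd, hdle⟩, ?_⟩, vβ⟩
      rw [Finset.mem_union, Multiset.mem_toFinset, Multiset.mem_toFinset, Polynomial.mem_nthRoots hn,
        Polynomial.mem_nthRoots hn]
      rcases hσ with rfl | rfl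
      · exact Or.inl hβ
      · exact Or.inr hβ
    · rw [mul_pow, hζ5j, mul_one, pow_mul, hω, one_pow]
    · have h3 : y - ω * ζ₅ * β = (ζ₅ * β) * (y / (ζ₅ * β) - ω) := by field_simp
      rw [h3, map_mul, map_mul, vζ5, vβ, one_mul, one_mul]
      exact hfin

end Pool.Agent.Helper20.DL
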