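import Pool.Agent.Helper20.DL.Exc2

/-! # The exceptional coordinate: the bound -/

open Finset

namespace Pool.Agent.Helper20.DL
open Pool.Agent.Helper20.ZD Pool.Agent.Helper11.LC

variable {v : AbsoluteValue ℂ ℝ}

/-- `F (0, Y)` is not zero modulo `v` -/
def BotUnit (v : AbsoluteValue ℂ ℝ) (F : MvPolynomial (Fin 2) ℤ) : Prop :=
  ∃ m₀ : Fin 2 →₀ ℕ, m₀ 0 = 0 ∧ v ((F.coeff m₀ : ℤ) : ℂ) = 1

/-- the coefficients `H (0, Y)` and that of the highest power of `X` are not zero modulo `v` -/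
def RowUnit (v : AbsoluteValue ℂ ℝ) (H : MvPolynomial (Fin 2) ℤ) : Prop :=
  BotUnit v H ∧
    ∃ m₁ : Fin 2 →₀ ℕ, v ((H.coeff m₁ : ℤ) : ℂ) = 1 ∧ ∀ m ∈ H.support, m 0 ≤ m₁ 0

/-- a root of `F (0, Y)` near `y` -/
lemma near_special (hv : IsNonarchimedean v) {F : MvPolynomial (Fin 2) ℤ} (hF : BotUnit v F) {w y : ℂ}
    (hw : v w < 1) (hy : v y = 1) (h : ev F w y = 0) : ∃ r ∈ (inY F 0).roots, v (y - r) < 1 := by
  obtain ⟨m₀, h0, h1⟩ := hF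
  have h3 := ev_sub_le hv F (x := 0) (x' := w) (y := y) (y' := y) (by rw [map_zero]; exact zero_le_one)
    hw.le hy.le hy.le
  rw [h, sub_zero, sub_self, map_zero, max_eq_left (v.nonneg _), zero_sub, v_neg] at h3
  obtain ⟨r, hr, -, hlt⟩ := root_gauss hv (P := inY F 0) (x := y) (δ := v w) le_rfl
    (inY_unit hv h0 h1 (by rw [map_zero]; exact one_pos)) hy.le (by rw [inY_eval]; exact h3) hw
  exact ⟨r, hr, hlt⟩

lemma special_alg {F : MvPolynomial (Fin 2) ℤ} {r : ℂ} (hr : r ∈ (inY F 0).roots) : IsAlgebraic ℚ r :=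
  alg_root (Polynomial.ne_zero_of_mem_roots hr) (inY_alg F isAlgebraic_zero)
    (Polynomial.isRoot_of_mem_roots hr)

/-- **step 0**: the part of order prime to `p` -/
theorem exc_step0 (hv : IsNonarchimedean v) {p : ℕ} (hp : p.Prime) (hvp : v (p : ℂ) < 1) {μ : ℚ}
    (hμ : v (μ : ℂ) = 1) {Fk Fl : MvPolynomial (Fin 2) ℤ} (hFk : BotUnit v Fk) (hFl : BotUnit v Fl) :
    ∃ N₀ : ℕ, 0 < N₀ ∧ ∀ (w x x' ζ : ℂ) (g : ℕ), v w < 1 → v x = 1 → v x' = 1 → ev Fk w x = 0 →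
      ev Fl w x' = 0 → v (x / x' - μ * ζ) ≤ v (p : ℂ) → 0 < g → IsPrimitiveRoot ζ g →
      ∃ (η ξ : ℂ) (k : ℕ), ζ = η * ξ ∧ η ^ N₀ = 1 ∧ IsPrimitiveRoot ξ (p ^ k) ∧ g ≤ N₀ * p ^ k := by
  classical
  have hμ0 : (μ : ℂ) ≠ 0 := by
    intro h
    rw [h, map_zero] at hμ
    exact zero_ne_one hμ
  obtain ⟨N₀, hN₀, hN⟩ := exists_order hv hp hvp
    (C := (((inY Fk 0).roots.toFinset ×ˢ (inY Fl 0).roots.toFinset).image
      fun c : ℂ × ℂ => c.1 / (μ * c.2) : Finset ℂ)) (Finset.finite_toSet _) (by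
        intro c hc
        rw [Finset.mem_coe, Finset.mem_image] at hc
        obtain ⟨c', hc', rfl⟩ := hc
        rw [Finset.mem_product, Multiset.mem_toFinset, Multiset.mem_toFinset] at hc'
        have e1 := special_alg hc'.1
        have e2 := special_alg hc'.2
        have e3 : IsAlgebraic ℚ (μ : ℂ) := isAlgebraic_algebraMap μ
        rw [← mem_algebraicClosure_iff] at e1 e2 e3 ⊢
        exact div_mem e1 (mul_mem e3 e2))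
  refine ⟨N₀, hN₀, ?_⟩
  intro w x x' ζ g hw hx hx' hk hl hs hg hζ
  obtain ⟨k, N, hpN, rfl⟩ := Nat.exists_eq_pow_mul_and_not_dvd hg.ne' p hp.ne_one
  have hcop : Nat.Coprime p N := (Nat.Prime.coprime_iff_not_dvd hp).2 hpN
  have hN0 : 0 < N := Nat.pos_of_mul_pos_left hg
  obtain ⟨η, ξ, hη, hξ, hηξ, hord⟩ := Pool.Agent.Helper69.DL.exists_decomp hp hcop hζ.pow_eq_one
  have hξ' : IsPrimitiveRoot ξ (p ^ k) := by
    have e1 : p ^ k ∣ orderOf ξ := hord k (by rw [← hζ.eq_orderOf]; exact ⟨N, rfl⟩)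
    have e2 : orderOf ξ ∣ p ^ k := orderOf_dvd_of_pow_eq_one hξ
    rw [Nat.dvd_antisymm e1 e2]
    exact IsPrimitiveRoot.orderOf ξ
  obtain ⟨r, hr, hr1⟩ := near_special hv hFk hw hx hk
  obtain ⟨r', hr', hr1'⟩ := near_special hv hFl hw hx' hl
  have vη : v η = 1 := val_root hN0 hη
  have vξ : v (ξ - 1) < 1 := Pool.Agent.Helper69.DL.root_sub_lt hv hp hvp hξ
  have vr' : v r' = 1 := by
    rw [← hx']
    refine v_eq_of_sub_lt hv ?_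
    rw [v_sub_comm, hx']
    exact hr1'
  have hr0' : r' ≠ 0 := by
    rintro rfl
    rw [map_zero] at vr'
    exact zero_ne_one vr'
  have hx0' : x' ≠ 0 := by
    rintro rfl
    rw [map_zero] at hx'
    exact zero_ne_one hx'
  have hη0 : η ^ N₀ = 1 := by
    refine hN η N hN0 hpN hη ⟨r / (μ * r'), ?_, ?_⟩
    · rw [Finset.mem_coe, Finset.mem_image]
      exact ⟨(r, r'), Finset.mem_product.2 ⟨Multiset.mem_toFinset.2 hr, Multiset.mem_toFinset.2 hr'⟩, rfl⟩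
    · have e1 : η - r / (μ * r') = (-(x / x' - μ * ζ) - μ * η * (ξ - 1) + (r' * (x - r) - r * (x' - r')) / (x' * r')) / μ := by
        rw [hηξ]
        field_simp
        ring
      rw [e1, map_div₀, hμ, div_one]
      refine lt_of_le_of_lt (hv _ _) (max_lt ?_ ?_)
      · refine lt_of_le_of_lt (v_sub_le hv _ _) (max_lt ?_ ?_)
        · rw [v_neg]
          exact lt_of_le_of_lt hs hvp
        · rw [map_mul, map_mul, hμ, vη, one_mul, one_mul]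
          exact vξ
      · rw [map_div₀, map_mul, hx', vr', one_mul, div_one]
        have vr : v r = 1 := by
          rw [← hx]
          refine v_eq_of_sub_lt hv ?_
          rw [v_sub_comm, hx]
          exact hr1
        refine lt_of_le_of_lt (v_sub_le hv _ _) (max_lt ?_ ?_)
        · rw [map_mul, vr', one_mul]
          exact hr1
        · rw [map_mul, vr, one_mul]
          exact hr1'
  refine ⟨η, ξ, k, hηξ, hη0, hξ', ?_⟩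
  refine Nat.le_of_dvd (Nat.mul_pos hN₀ (pow_pos hp.pos _)) (hζ.dvd_of_pow_eq_one _ ?_)
  rw [hηξ, mul_pow, pow_mul, hη0, one_pow, one_mul, mul_comm, pow_mul, hξ, one_pow]

/-- **step 3** -/
theorem exc_step3 (hv : IsNonarchimedean v) {p : ℕ} (hp : p.Prime) (hp4 : 4 ≤ p) (hvp : v (p : ℂ) < 1)
    {μ : ℚ} (hμ : v (μ : ℂ) = 1) {D N₀ : ℕ} (hN₀ : 0 < N₀) (hpD : 64 * D ^ 2 ≤ p)
    {H F : MvPolynomial (Fin 2) ℤ} (hH : NoCoset v H) (hHD : ∀ m ∈ H.support, m 0 ≤ D ∧ m 1 ≤ D)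
    (hF : BotUnit v F) {β : ℂ} (hβ : IsAlgebraic ℚ β) (vβ : v β = 1) {ρ : ℝ} (hρ : ρ < 1) :
    ∃ t₀ : ℕ, ∀ (w y s ζ₆ η ξ : ℂ) (t j : ℕ), v w < 1 → v y = 1 → ev F w y = 0 → ev H y s = 0 →
      v (s - μ * (η * ξ)) ≤ v (p : ℂ) → η ^ N₀ = 1 → IsPrimitiveRoot ξ (p ^ (t + 1)) → 0 < j →
      ζ₆ ^ j = 1 → v (y - ζ₆ * β) ≤ ρ → t < t₀ := by
  classical
  have hβ0 : β ≠ 0 := by
    rintro rfl
    rw [map_zero] at vβ
    exact zero_ne_one vβ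
  obtain ⟨K₁, hK₁, hK⟩ := exists_order hv hp hvp
    (C := ((inY F 0).roots.toFinset.image fun r : ℂ => r / β : Finset ℂ)) (Finset.finite_toSet _) (by
        intro c hc
        rw [Finset.mem_coe, Finset.mem_image] at hc
        obtain ⟨r, hr, rfl⟩ := hc
        rw [Multiset.mem_toFinset] at hr
        have e1 := special_alg hr
        have e2 := hβ
        rw [← mem_algebraicClosure_iff] at e1 e2 ⊢
        exact div_mem e1 e2)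
  obtain ⟨R₀, c, hS, hQ, hc0, hc1, gap⟩ := gap_set hv hp hvp
    (S := (({β} ∪ ((Polynomial.nthRoots N₀ (1 : ℂ)).toFinset ∪
      (Polynomial.nthRoots K₁ (1 : ℂ)).toFinset) : Finset ℂ) : Set ℂ)) (Finset.finite_toSet _) (by
        intro x hx
        rw [Finset.mem_coe, Finset.mem_union, Finset.mem_union, Finset.mem_singleton, nthRoots_mem hN₀,
          nthRoots_mem hK₁] at hx
        rcases hx with rfl | hx | hx
        · exact hβ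
        · exact alg_root_unity hN₀ hx
        · exact alg_root_unity hK₁ hx)
  obtain ⟨t₀, ht₀⟩ := T_large hv hp hvp (c := max c (max ρ (v (p : ℂ)))) (max_lt hc1 (max_lt hρ hvp)) (p - 2)
  refine ⟨t₀, ?_⟩
  intro w y s ζ₆ η ξ t j hw hy hFy hHs hs hη hξ hj hζ₆ hyζ
  by_contra hcon
  push Not at hcon
  have hβR : β ∈ R₀ := hS (Finset.mem_coe.2 (Finset.mem_union_left _ (Finset.mem_singleton_self β)))
  have hηR : η ∈ R₀ := hS (Finset.mem_coe.2 (Finset.mem_union_right _ (Finset.mem_union_left _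
    ((nthRoots_mem hN₀).2 hη))))
  obtain ⟨k, N, hpN, rfl⟩ := Nat.exists_eq_pow_mul_and_not_dvd hj.ne' p hp.ne_one
  have hcop : Nat.Coprime p N := (Nat.Prime.coprime_iff_not_dvd hp).2 hpN
  have hN0 : 0 < N := Nat.pos_of_mul_pos_left hj
  obtain ⟨η₆, ξ₆, hη₆, hξ₆, hηξ, -⟩ := Pool.Agent.Helper69.DL.exists_decomp hp hcop hζ₆
  have vξ₆ : v (ξ₆ - 1) < 1 := Pool.Agent.Helper69.DL.root_sub_lt hv hp hvp hξ₆
  have vη₆ : v η₆ = 1 := val_root hN0 hη₆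
  have vξ₆' : v ξ₆ = 1 := val_root (pow_pos hp.pos _) hξ₆
  have vη : v η = 1 := val_root hN₀ hη
  have vξ : v ξ = 1 := val_root (pow_pos hp.pos _) hξ.pow_eq_one
  obtain ⟨r, hr, hr1⟩ := near_special hv hF hw hy hFy
  have hηK : η₆ ^ K₁ = 1 := by
    refine hK η₆ N hN0 hpN hη₆ ⟨r / β, ?_, ?_⟩
    · rw [Finset.mem_coe, Finset.mem_image]
      exact ⟨r, Multiset.mem_toFinset.2 hr, rfl⟩
    · have e1 : η₆ - r / β = ((y - r) - (y - ζ₆ * β) - η₆ * β * (ξ₆ - 1)) / β := by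
        rw [hηξ]
        field_simp
        ring
      rw [e1, map_div₀, vβ, div_one]
      refine lt_of_le_of_lt (v_sub_le hv _ _) (max_lt (lt_of_le_of_lt (v_sub_le hv _ _) (max_lt hr1 ?_)) ?_)
      · exact lt_of_le_of_lt hyζ hρ
      · rw [map_mul, map_mul, vη₆, vβ, one_mul, one_mul]
        exact vξ₆
  have hη₆R : η₆ ∈ R₀ := hS (Finset.mem_coe.2 (Finset.mem_union_right _ (Finset.mem_union_right _
    ((nthRoots_mem hK₁).2 hηK))))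
  -- the common root of unity
  obtain ⟨t', ω, a, b, ht', hω, hab, ha, hb⟩ : ∃ (t' : ℕ) (ω : ℂ) (a b : ℤ), t₀ ≤ t' ∧
      IsPrimitiveRoot ω (p ^ (t' + 1)) ∧ ¬ ((p : ℤ) ∣ a ∧ (p : ℤ) ∣ b) ∧ ξ₆ = ω ^ a ∧ ξ = ω ^ b := by
    have hp1 : ¬ (p : ℤ) ∣ 1 := by
      intro h
      exact hp.one_lt.ne' (by exact_mod_cast Int.eq_one_of_dvd_one (Int.natCast_nonneg p) h)
    obtain ⟨i, -, hi⟩ := (Nat.dvd_prime_pow hp).1 (orderOf_dvd_of_pow_eq_one hξ₆)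
    rcases le_or_gt i (t + 1) with hit | hit
    · have e1 : ξ₆ ^ p ^ (t + 1) = 1 := by
        refine orderOf_dvd_iff_pow_eq_one.1 ?_
        rw [hi]
        exact Nat.pow_dvd_pow p hit
      have : NeZero (p ^ (t + 1)) := ⟨(pow_pos hp.pos _).ne'⟩
      obtain ⟨b, -, hb⟩ := hξ.eq_pow_of_pow_eq_one e1
      exact ⟨t, ξ, b, 1, hcon, hξ, fun h => hp1 h.2, by rw [zpow_natCast, hb], by rw [zpow_one]⟩
    · obtain ⟨t', rfl⟩ : ∃ t', i = t' + 1 := ⟨i - 1, by omega⟩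
      have e2 : IsPrimitiveRoot ξ₆ (p ^ (t' + 1)) := by
        rw [← hi]
        exact IsPrimitiveRoot.orderOf ξ₆
      have e1 : ξ ^ p ^ (t' + 1) = 1 := by
        refine orderOf_dvd_iff_pow_eq_one.1 ?_
        rw [← hξ.eq_orderOf]
        exact Nat.pow_dvd_pow p hit.le
      have : NeZero (p ^ (t' + 1)) := ⟨(pow_pos hp.pos _).ne'⟩
      obtain ⟨b, -, hb⟩ := e2.eq_pow_of_pow_eq_one e1
      exact ⟨t', ξ₆, 1, b, by omega, e2, fun h => hp1 h.1, by rw [zpow_one], by rw [zpow_natCast, hb]⟩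
  have hbig := ht₀ t' ht' ω hω
  have vα : v (η₆ * β) = 1 := by rw [map_mul, vη₆, vβ, one_mul]
  have vβ' : v ((μ : ℂ) * η) = 1 := by rw [map_mul, hμ, vη, one_mul]
  have hd := digits hv hp hp4 hvp hH hHD hpD vα vβ' R₀ (mul_mem hη₆R hβR) (mul_mem (hQ μ) hηR) gap hω hab
    (lt_of_le_of_lt (le_max_left _ _) hbig)
  rw [← ha, ← hb] at hd
  have vs1 : v (μ * η * ξ) = 1 := by rw [map_mul, vβ', vξ, one_mul]
  have vs2 : v (η₆ * β * ξ₆) = 1 := by rw [map_mul, vα, vξ₆', one_mul]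
  rw [← mul_assoc] at hs
  have vs : v s = 1 := by
    rw [← vs1]
    refine v_eq_of_sub_lt hv ?_
    rw [vs1]
    exact lt_of_le_of_lt hs hvp
  have e1 := ev_sub_le hv H (x := η₆ * β * ξ₆) (x' := y) (y := μ * η * ξ) (y' := s) vs2.le hy.le vs1.le vs.le
  rw [hHs, sub_zero, v_sub_comm v _ y, v_sub_comm v _ s] at e1
  have e2 : v (y - η₆ * β * ξ₆) ≤ ρ := by
    have e3 : η₆ * β * ξ₆ = ζ₆ * β := by rw [hηξ]; ring
    rw [e3]
    exact hyζ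
  have e4 : v (ev H (η₆ * β * ξ₆) (μ * η * ξ)) ≤ max ρ (v (p : ℂ)) := e1.trans (max_le_max e2 hs)
  exact absurd ((hd.trans e4).trans (le_max_right c _)) (not_le.2 hbig)

/-- a uniform bound over a finite set -/
lemma unif_bound {ι : Type*} (S : Finset ι) {P : ι → ℕ → Prop} (h : ∀ i ∈ S, ∃ n : ℕ, ∀ t, P i t → t < n) :
    ∃ n : ℕ, ∀ i ∈ S, ∀ t, P i t → t < n := by
  classical
  choose! f hf using h
  refine ⟨S.sup f, fun i hi t ht => lt_of_lt_of_le (hf i hi t ht) (Finset.le_sup hi)⟩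

/-- **the exceptional coordinate** -/
theorem exc_bounded (hv : IsNonarchimedean v) {p : ℕ} (hp : p.Prime) (hp4 : 4 ≤ p) (hvp : v (p : ℂ) < 1)
    {m D : ℕ} (hpD : 64 * D ^ 2 ≤ p) {μ ν A : ℚ} (hμ : v (μ : ℂ) = 1) (hν : v (ν : ℂ) = 1)
    (hA : v (A : ℂ) = 1) {H₁ H₂ F Fk Fl : MvPolynomial (Fin 2) ℤ}
    (hH₁D : ∀ m ∈ H₁.support, m 0 ≤ D ∧ m 1 ≤ D) (hH₁ : RowUnit v H₁)
    (hH₂D : ∀ m ∈ H₂.support, m 0 ≤ D ∧ m 1 ≤ D) (hH₂ : NoCoset v H₂)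
    (hFD : ∀ m ∈ F.support, m 1 ≤ D) (hF : BotUnit v F) (hFk : BotUnit v Fk) (hFl : BotUnit v Fl) :
    ∃ G₀ : ℕ, ∀ (w y x x' ζ ζ' ε : ℂ) (a d g : ℕ) (σ : ℤ), w ≠ 0 → v w < 1 → v y = 1 → v x = 1 →
      v x' = 1 → ev H₁ w (x / x') = 0 → ev H₂ y (x / x') = 0 → ev F w y = 0 → ev Fk w x = 0 →
      ev Fl w x' = 0 → v (x / x' - μ * ζ) ≤ v (p : ℂ) → 0 < g → IsPrimitiveRoot ζ g → 0 < a → 0 < d →
      Nat.Coprime a d → v w ^ a = v (p : ℂ) ^ (m * d) → (σ = 1 ∨ σ = -1) →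
      (A * y) ^ d * w ^ a = ζ' * p ^ (m * d) * ((ν * y) ^ σ) ^ a * (1 + ε) →
      (∃ j, 0 < j ∧ ζ' ^ j = 1) → v ε * v w ≤ v (p : ℂ) ^ 2 → g ≤ G₀ := by
  classical
  have hp0 : 0 < v (p : ℂ) := v.pos (by exact_mod_cast hp.ne_zero)
  obtain ⟨⟨m₀, a1, a2⟩, m₁, a3, a4⟩ := hH₁
  obtain ⟨m₂, b1, b2⟩ := id hF
  obtain ⟨N₀, hN₀, hstep0⟩ := exc_step0 hv hp hvp hμ hFk hFl
  obtain ⟨r, T, ρ, hρ, hTalg, hstep1⟩ := exc_step1 hv hp hvp hμ hN₀ hH₁D hFD a1 a2 a3 a4 b1 b2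
  -- the bound for one pair of constants
  obtain ⟨t₁, ht₁⟩ := unif_bound T (P := fun τ t => ∃ (w y s η ξ ζ' ε : ℂ) (a d k : ℕ) (σ : ℤ),
      w ≠ 0 ∧ v w < 1 ∧ v y = 1 ∧ ev H₂ y s = 0 ∧ ev F w y = 0 ∧
      v (s - μ * (η * ξ)) ≤ v (p : ℂ) ∧ η ^ N₀ = 1 ∧ IsPrimitiveRoot ξ (p ^ (t + 1)) ∧ 0 < a ∧ 0 < d ∧
      Nat.Coprime a d ∧ v w ^ a = v (p : ℂ) ^ (m * d) ∧ (σ = 1 ∨ σ = -1) ∧
      (A * y) ^ d * w ^ a = ζ' * p ^ (m * d) * ((ν * y) ^ σ) ^ a * (1 + ε) ∧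
      (∃ j, 0 < j ∧ ζ' ^ j = 1) ∧ v ε ≤ v (p : ℂ) ∧ v (w ^ p ^ k / τ.1 - 1) ≤ ρ ∧
      v (y ^ p ^ k / τ.2 - 1) ≤ ρ) (by
    intro τ hτ
    obtain ⟨c1, c2⟩ := hTalg τ hτ
    obtain ⟨B, ρ', hρ', hB, hstep2⟩ := exc_step2 hv hp hvp (m := m) hν hA c1 c2 hρ
    obtain ⟨t₂, ht₂⟩ := unif_bound B (P := fun β t => ∃ (w y s ζ₆ η ξ : ℂ) (j : ℕ), v w < 1 ∧ v y = 1 ∧
      ev F w y = 0 ∧ ev H₂ y s = 0 ∧ v (s - μ * (η * ξ)) ≤ v (p : ℂ) ∧ η ^ N₀ = 1 ∧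
      IsPrimitiveRoot ξ (p ^ (t + 1)) ∧ 0 < j ∧ ζ₆ ^ j = 1 ∧ v (y - ζ₆ * β) ≤ ρ') (by
      intro β hβ
      obtain ⟨t₀, ht₀⟩ := exc_step3 hv hp hp4 hvp hμ hN₀ hpD hH₂ hH₂D hF (hB β hβ).1 (hB β hβ).2 hρ'
      refine ⟨t₀, ?_⟩
      rintro t ⟨w, y, s, ζ₆, η, ξ, j, d1, d2, d3, d4, d5, d6, d7, d8, d9, d10⟩
      exact ht₀ w y s ζ₆ η ξ t j d1 d2 d3 d4 d5 d6 d7 d8 d9 d10)
    refine ⟨t₂, ?_⟩
    rintro t ⟨w, y, s, η, ξ, ζ', ε, a, d, k, σ, d0, d1, d2, d3, d4, d5, d6, d7, d8, d9, d10, d11, d12, d13, d14,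
      d15, d16, d17⟩
    obtain ⟨β, hβ, ζ₆, j, e1, e2, e3⟩ := hstep2 w y ζ' ε a d k σ d1 d0 d2 d8 d9 d10 d11 d12 d13 d14 d15 d16 d17
    exact ht₂ β hβ t ⟨w, y, s, ζ₆, η, ξ, j, d1, d2, d4, d3, d5, d6, d7, e1, e2, e3⟩)
  refine ⟨N₀ * p ^ (max r t₁ + 1), ?_⟩
  intro w y x x' ζ ζ' ε a d g σ hw0 hw hy hx hx' h1 h2 h3 h4 h5 hs hg hζ ha hd hcop hwa hσ hrel hζ' hε
  obtain ⟨η, ξ, k, hηξ, hη, hξ, hgle⟩ := hstep0 w x x' ζ g hw hx hx' h4 h5 hs hg hζ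
  refine hgle.trans (Nat.mul_le_mul_left N₀ (Nat.pow_le_pow_right hp.pos ?_))
  by_contra hcon
  push Not at hcon
  obtain ⟨t, rfl⟩ : ∃ t, k = t + 1 := ⟨k - 1, by omega⟩
  have hrt : r ≤ t := by have := le_max_left r t₁; omega
  have ht1 : t₁ ≤ t := by have := le_max_right r t₁; omega
  rw [hηξ] at hs
  obtain ⟨hpw, τ, hτ, k1, k2⟩ := hstep1 w y (x / x') η ξ t hw hy h1 h3 hs hη hξ hrt
  have hε' : v ε ≤ v (p : ℂ) := by
    by_contra hcon'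
    push Not at hcon'
    have : v (p : ℂ) ^ 2 < v ε * v w := by
      rw [pow_two]
      exact mul_lt_mul hcon' hpw hp0 (v.nonneg _)
    linarith
  have := ht₁ τ hτ t ⟨w, y, x / x', η, ξ, ζ', ε, a, d, t - r, σ, hw0, hw, hy, h2, h3, hs, hη, hξ, ha, hd, hcop,
    hwa, hσ, hrel, hζ', hε', k1, k2⟩
  omega

end Pool.Agent.Helper20.DL
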