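import Pool.Agent.Helper20.DL.ExcU

/-! # The exceptional coordinate: relations modulo `p` -/

open Finset

namespace Pool.Agent.Helper20.DL
open Pool.Agent.Helper20.ZD Pool.Agent.Helper11.LC

variable {v : AbsoluteValue ℂ ℝ}

/-- a root of `F (0, Y)` near `y` -/
lemma near_specialM (hv : IsNonarchimedean v) {F : MvPolynomial (Fin 2) ℤ} (hF : BotUnit v F) {w y : ℂ} {δ : ℝ}
    (hδ : δ < 1) (hw : v w < 1) (hy : v y = 1) (h : v (ev F w y) ≤ δ) :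
    ∃ r ∈ (inY F 0).roots, v (y - r) < 1 := by
  obtain ⟨m₀, h0, h1⟩ := hF
  have h3 := ev_sub_le hv F (x := 0) (x' := w) (y := y) (y' := y) (by rw [map_zero]; exact zero_le_one)
    hw.le hy.le hy.le
  rw [sub_self, map_zero, max_eq_left (v.nonneg _), zero_sub, v_neg] at h3
  have h4 : v (ev F 0 y) ≤ max (v w) δ := by
    have h5 : ev F 0 y = (ev F 0 y - ev F w y) + ev F w y := by ring
    rw [h5]
    exact (hv _ _).trans (max_le_max h3 h)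
  obtain ⟨r, hr, -, hlt⟩ := root_gauss hv (P := inY F 0) (x := y) (δ := max (v w) δ) le_rfl
    (inY_unit hv h0 h1 (by rw [map_zero]; exact one_pos)) hy.le (by rw [inY_eval]; exact h4) (max_lt hw hδ)
  exact ⟨r, hr, hlt⟩

/-- **step 0**: the part of order prime to `p` -/
theorem exc_step0M (hv : IsNonarchimedean v) {p : ℕ} (hp : p.Prime) (hvp : v (p : ℂ) < 1) {μ : ℂ}
    (hμ : Tame v p μ) {Fk Fl : MvPolynomial (Fin 2) ℤ} (hFk : BotUnit v Fk) (hFl : BotUnit v Fl) :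
    ∃ N₀ : ℕ, 0 < N₀ ∧ ∀ (w x x' ζ : ℂ) (g : ℕ), v w < 1 → v x = 1 → v x' = 1 → v (ev Fk w x) ≤ v (p : ℂ) →
      v (ev Fl w x') ≤ v (p : ℂ) → v (x / x' - μ * ζ) ≤ v (p : ℂ) → 0 < g → IsPrimitiveRoot ζ g →
      ∃ (η ξ : ℂ) (k : ℕ), ζ = η * ξ ∧ η ^ N₀ = 1 ∧ IsPrimitiveRoot ξ (p ^ k) ∧ g ≤ N₀ * p ^ k := by
  classical
  have hμ0 : (μ : ℂ) ≠ 0 := hμ.ne_zero
  obtain ⟨N₀, hN₀, hN⟩ := exists_order hv hp hvp
    (C := (((inY Fk 0).roots.toFinset ×ˢ (inY Fl 0).roots.toFinset).image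
      fun c : ℂ × ℂ => c.1 / (μ * c.2) : Finset ℂ)) (Finset.finite_toSet _) (by
        intro c hc
        rw [Finset.mem_coe, Finset.mem_image] at hc
        obtain ⟨c', hc', rfl⟩ := hc
        rw [Finset.mem_product, Multiset.mem_toFinset, Multiset.mem_toFinset] at hc'
        have e1 := special_alg hc'.1
        have e2 := special_alg hc'.2
        have e3 : IsAlgebraic ℚ (μ : ℂ) := hμ.alg
        rw [← mem_algebraicClosure_iff] at e1 e2 e3 ⊢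
        exact div_mem e1 (mul_mem e3 e2))
  refine ⟨N₀, hN₀, ?_⟩
  intro w x x' ζ g hw hx hx' hk hl hs hg hζ
  obtain ⟨k, N, hpN, rfl⟩ := Nat.exists_eq_pow_mul_and_not_dvd hg.ne' p hp.ne_one
  have hcop : Nat.Coprime p N := (Nat.Prime.coprime_iff_not_dvd hp).2 hpN
  have hN0 : 0 < N := Nat.pos_of_mul_pos_left hg
  obtain ⟨η, ξ, hη, hξ, hηξ, hord⟩ := Pool.Agent.Helper69.DL.exists_decomp hp hcop hζ.pow_eq_one
  have hξ' : IsPrimitiveRoot ξ (p ^ k) := by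
    have e1 : p ^ k ∣ orderOf ξ := hord k (by rw [← hζ.eq_orderOf]; exact ⟨N, rfl⟩)
    have e2 : orderOf ξ ∣ p ^ k := orderOf_dvd_of_pow_eq_one hξ
    rw [Nat.dvd_antisymm e1 e2]
    exact IsPrimitiveRoot.orderOf ξ
  obtain ⟨r, hr, hr1⟩ := near_specialM hv hFk hvp hw hx hk
  obtain ⟨r', hr', hr1'⟩ := near_specialM hv hFl hvp hw hx' hl
  have vη : v η = 1 := val_root hN0 hη
  have vξ : v (ξ - 1) < 1 := Pool.Agent.Helper69.DL.root_sub_lt hv hp hvp hξ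
  have vr' : v r' = 1 := by
    rw [← hx']
    refine v_eq_of_sub_lt hv ?_
    rw [v_sub_comm, hx']
    exact hr1'
  have hr0' : r' ≠ 0 := by
    rintro rfl
    rw [map_zero] at vr'
    exact zero_ne_one vr'
  have hx0' : x' ≠ 0 := by
    rintro rfl
    rw [map_zero] at hx'
    exact zero_ne_one hx'
  have hη0 : η ^ N₀ = 1 := by
    refine hN η N hN0 hpN hη ⟨r / (μ * r'), ?_, ?_⟩
    · rw [Finset.mem_coe, Finset.mem_image]
      exact ⟨(r, r'), Finset.mem_product.2 ⟨Multiset.mem_toFinset.2 hr, Multiset.mem_toFinset.2 hr'⟩, rfl⟩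
    · have e1 : η - r / (μ * r') = (-(x / x' - μ * ζ) - μ * η * (ξ - 1) + (r' * (x - r) - r * (x' - r')) / (x' * r')) / μ := by
        rw [hηξ]
        field_simp
        ring
      rw [e1, map_div₀, hμ.one, div_one]
      refine lt_of_le_of_lt (hv _ _) (max_lt ?_ ?_)
      · refine lt_of_le_of_lt (v_sub_le hv _ _) (max_lt ?_ ?_)
        · rw [v_neg]
          exact lt_of_le_of_lt hs hvp
        · rw [map_mul, map_mul, hμ.one, vη, one_mul, one_mul]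
          exact vξ
      · rw [map_div₀, map_mul, hx', vr', one_mul, div_one]
        have vr : v r = 1 := by
          rw [← hx]
          refine v_eq_of_sub_lt hv ?_
          rw [v_sub_comm, hx]
          exact hr1
        refine lt_of_le_of_lt (v_sub_le hv _ _) (max_lt ?_ ?_)
        · rw [map_mul, vr', one_mul]
          exact hr1
        · rw [map_mul, vr, one_mul]
          exact hr1'
  refine ⟨η, ξ, k, hηξ, hη0, hξ', ?_⟩
  refine Nat.le_of_dvd (Nat.mul_pos hN₀ (pow_pos hp.pos _)) (hζ.dvd_of_pow_eq_one _ ?_)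
  rw [hηξ, mul_pow, pow_mul, hη0, one_pow, one_mul, mul_comm, pow_mul, hξ, one_pow]

/-- **step 1** -/
theorem exc_step1M (hv : IsNonarchimedean v) {p : ℕ} (hp : p.Prime) (hvp : v (p : ℂ) < 1) {μ : ℂ}
    (hμ : Tame v p μ) {D N₀ : ℕ} (hN₀ : 0 < N₀) {H F : MvPolynomial (Fin 2) ℤ}
    (hHD : ∀ m ∈ H.support, m 0 ≤ D ∧ m 1 ≤ D) (hFD : ∀ m ∈ F.support, m 1 ≤ D)
    {m₀ m₁ m₂ : Fin 2 →₀ ℕ} (h0 : m₀ 0 = 0) (h0' : v ((H.coeff m₀ : ℤ) : ℂ) = 1)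
    (h1 : v ((H.coeff m₁ : ℤ) : ℂ) = 1) (h1' : ∀ m ∈ H.support, m 0 ≤ m₁ 0)
    (h2 : m₂ 0 = 0) (h2' : v ((F.coeff m₂ : ℤ) : ℂ) = 1) :
    ∃ (r : ℕ) (T : Finset (ℂ × ℂ)) (ρ L : ℝ), ρ < 1 ∧ v (p : ℂ) < L ∧
      (∀ τ ∈ T, IsAlgebraic ℚ τ.1 ∧ IsAlgebraic ℚ τ.2) ∧
      ∀ (w y s η ξ : ℂ) (t : ℕ), v w < 1 → v y = 1 → v (ev H w s) ≤ v (p : ℂ) → v (ev F w y) ≤ v (p : ℂ) →
        v (s - μ * (η * ξ)) ≤ v (p : ℂ) → η ^ N₀ = 1 → IsPrimitiveRoot ξ (p ^ (t + 1)) → r ≤ t →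
        L ≤ v w ∧ ∃ τ ∈ T, v (w ^ p ^ (t - r) / τ.1 - 1) ≤ ρ ∧
          v (y ^ p ^ (t - r) / τ.2 - 1) ≤ ρ := by
  classical
  have hp0 : 0 < v (p : ℂ) := v.pos (by exact_mod_cast hp.ne_zero)
  obtain ⟨R₀, c₀, hR₀, hQ, hc0, hc1, gap⟩ := gap_set hv hp hvp (S := {η : ℂ | η ^ N₀ = 1} ∪ {μ})
    (by
      refine Set.Finite.union ?_ (Set.finite_singleton μ)
      refine (Finset.finite_toSet (Polynomial.nthRoots N₀ (1 : ℂ)).toFinset).subset ?_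
      intro η hη
      exact Finset.mem_coe.2 ((nthRoots_mem hN₀).2 hη))
    (fun η hη => by
      rcases hη with hη | hη
      · exact alg_root_unity hN₀ hη
      · rw [Set.mem_singleton_iff.1 hη]
        exact hμ.alg)
  have hμR : μ ∈ R₀ := hR₀ (Or.inr rfl)
  obtain ⟨r, hr⟩ := T_large hv hp hvp (c := max c₀ (v (p : ℂ))) (max_lt hc1 hvp) (D * D + D)
  have hpr : p ^ (r + 1) ≠ 0 := pow_ne_zero _ hp.ne_zero
  have hω₀ := Complex.isPrimitiveRoot_exp (p ^ (r + 1)) hpr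
  set ω₀ : ℂ := Complex.exp (2 * Real.pi * Complex.I / (p ^ (r + 1) : ℕ)) with hω₀'
  set θ := v (ω₀ - 1) with hθ
  have hθr := hr r le_rfl ω₀ hω₀
  have hθ0 : 0 < θ := val_T_pos hp hω₀
  have hθ1 : θ < 1 := val_T_lt hv hp hvp hω₀
  have hcθ : c₀ < θ ^ (D * D + D) := lt_of_le_of_lt (le_max_left _ _) hθr
  have hpθ : v (p : ℂ) < θ ^ (D * D + D) := lt_of_le_of_lt (le_max_right _ _) hθr
  have hθD : θ ^ (D * D + D) ≤ θ ^ D := pow_le_pow_of_le_one hθ0.le hθ1.le (by omega)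
  have hθD0 : 0 < θ ^ D := pow_pos hθ0 _
  obtain ⟨ρa, ha0, ha1, ha⟩ := exists_rho (ε := v (p : ℂ) / θ ^ (D * D + D))
    ((div_lt_one (pow_pos hθ0 _)).2 hpθ) (by positivity) D
  obtain ⟨ρc, hρc0, hρc1, hρc⟩ := exists_rho (ε := max (v (p : ℂ)) ρa) (max_lt hvp ha1)
    (le_max_of_le_right ha0) D
  refine ⟨r, (Polynomial.nthRoots N₀ (1 : ℂ)).toFinset.biUnion fun η =>
    (Polynomial.nthRoots (p ^ (r + 1)) (1 : ℂ)).toFinset.biUnion fun ω =>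
      (inX H (μ * (η * ω))).roots.toFinset.biUnion fun z =>
        (inY F z).roots.toFinset.image fun z' => (z, z'), max ρa ρc, θ ^ D, max_lt ha1 hρc1,
          hpθ.trans_le hθD, ?_, ?_⟩
  · intro τ hτ
    simp only [Finset.mem_biUnion, Finset.mem_image, nthRoots_mem hN₀, nthRoots_mem (pow_pos hp.pos _),
      Multiset.mem_toFinset] at hτ
    obtain ⟨η, hη, ω, hω, z, hz, z', hz', rfl⟩ := hτ
    have e1 : IsAlgebraic ℚ ((μ : ℂ) * (η * ω)) :=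
      hμ.alg.mul ((alg_root_unity hN₀ hη).mul (alg_root_unity (pow_pos hp.pos _) hω))
    have e2 : IsAlgebraic ℚ z := alg_root (Polynomial.ne_zero_of_mem_roots hz) (inX_alg H e1)
      (Polynomial.isRoot_of_mem_roots hz)
    exact ⟨e2, alg_root (Polynomial.ne_zero_of_mem_roots hz') (inY_alg F e2)
      (Polynomial.isRoot_of_mem_roots hz')⟩
  · intro w y s η ξ t hw hy hHs hFy hs hη hξ hrt
    set q := p ^ (t - r) with hq
    have hq0 : 0 < q := pow_pos hp.pos _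
    have hTq : v (ξ - 1) ^ q = θ := T_pow hv hp hrt hξ hω₀
    have hT0 : 0 < v (ξ - 1) := val_T_pos hp hξ
    have hT1 : v (ξ - 1) < 1 := val_T_lt hv hp hvp hξ
    have hθT : θ ≤ v (ξ - 1) := by
      rw [← hTq]
      calc v (ξ - 1) ^ q ≤ v (ξ - 1) ^ 1 := pow_le_pow_of_le_one hT0.le hT1.le hq0
        _ = _ := pow_one _
    have hθTD : θ ^ D ≤ v (ξ - 1) ^ D := pow_le_pow_left₀ hθ0.le hθT D
    have vη : v η = 1 := val_root hN₀ hη
    have vξ : v ξ = 1 := val_root (pow_pos hp.pos _) hξ.pow_eq_one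
    have ηR : η ∈ R₀ := hR₀ (Or.inl hη)
    have vα : v ((μ : ℂ) * η) = 1 := by rw [map_mul, hμ.one, vη, one_mul]
    have vαξ : v ((μ : ℂ) * η * ξ) = 1 := by rw [map_mul, vα, vξ, one_mul]
    rw [← mul_assoc] at hs
    have vs : v s = 1 := by
      rw [v_eq_of_sub_lt hv (x := s) (c := (μ : ℂ) * η * ξ) (by rw [vαξ]; exact lt_of_le_of_lt hs hvp), vαξ]
    have k1 : v (ev H w (μ * η * ξ)) ≤ v (p : ℂ) := by
      have h := ev_sub_le hv H hw.le hw.le vαξ.le vs.le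
      rw [sub_self, map_zero, v_sub_comm v _ s, max_eq_right (v.nonneg _)] at h
      have h' : ev H w (μ * η * ξ) = (ev H w (μ * η * ξ) - ev H w s) + ev H w s := by ring
      rw [h']
      exact (hv _ _).trans (max_le (h.trans hs) hHs)
    have k2 : v (ξ - 1) ^ D ≤ v w := by
      have h3 := row_val hv h0' (fun m hm => (hHD m hm).2) R₀ vα (mul_mem hμR ηR) gap hT0 hT1
        (lt_of_lt_of_le (hcθ.trans_le hθD) hθTD)
      rw [h0, Polynomial.coeff_zero_eq_eval_zero, inX_eval] at h3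
      by_contra hcon
      push Not at hcon
      have h4 := ev_sub_le hv H (x := w) (x' := 0) (y := μ * η * ξ) (y' := μ * η * ξ) hw.le
        (by rw [map_zero]; exact zero_le_one) vαξ.le vαξ.le
      rw [sub_zero, sub_self, map_zero, max_eq_left (v.nonneg _)] at h4
      have h5 : v (ev H 0 (μ * η * ξ)) ≤ max (v (p : ℂ)) (v w) := by
        have h6 : ev H 0 (μ * η * ξ) = ev H w (μ * η * ξ) - (ev H w (μ * η * ξ) - ev H 0 (μ * η * ξ)) := by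
          ring
        rw [h6]
        exact (v_sub_le hv _ _).trans (max_le_max k1 h4)
      have h7 : max (v (p : ℂ)) (v w) < v (ξ - 1) ^ D :=
        max_lt (lt_of_lt_of_le (hpθ.trans_le hθD) hθTD) hcon
      exact absurd (h3.trans h5) (not_le.2 h7)
    have k3 : θ ^ D ≤ v (w ^ q) := by
      rw [map_pow, ← hTq, ← pow_mul, mul_comm, pow_mul]
      exact pow_le_pow_left₀ (pow_nonneg hT0.le _) k2 q
    have hpw : θ ^ D ≤ v w := hθTD.trans k2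
    have hω : IsPrimitiveRoot (ξ ^ q) (p ^ (r + 1)) := by
      refine hξ.pow (pow_pos hp.pos _) ?_
      rw [hq, ← pow_add]
      congr 1
      omega
    have vω : v (ξ ^ q) = 1 := by rw [map_pow, vξ, one_pow]
    have vα' : v ((μ : ℂ) * η ^ q) = 1 := by rw [map_mul, map_pow, hμ.one, vη, one_pow, one_mul]
    have hWle : v (w ^ q) < 1 := by rw [map_pow]; exact pow_lt_one₀ (v.nonneg _) hw hq0.ne'
    have k4 : v (ev H (w ^ q) (μ * η ^ q * ξ ^ q)) ≤ v (p : ℂ) := by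
      have e1 := frob hv hp H hw.le vαξ.le (t - r)
      rw [← hq] at e1
      have e2 : v (ev H w (μ * η * ξ) ^ q) ≤ v (p : ℂ) := by
        rw [map_pow]
        calc v (ev H w (μ * η * ξ)) ^ q ≤ v (ev H w (μ * η * ξ)) ^ 1 :=
              pow_le_pow_of_le_one (v.nonneg _) (k1.trans hvp.le) hq0
          _ ≤ v (p : ℂ) := by rw [pow_one]; exact k1
      have e3 : v (ev H (w ^ q) ((μ * η * ξ) ^ q)) ≤ v (p : ℂ) := by
        have e4 : ev H (w ^ q) ((μ * η * ξ) ^ q) = (ev H (w ^ q) ((μ * η * ξ) ^ q) -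
          ev H w (μ * η * ξ) ^ q) + ev H w (μ * η * ξ) ^ q := by ring
        rw [e4]
        exact (hv _ _).trans (max_le e1 e2)
      have e5 : v ((μ : ℂ) * η ^ q * ξ ^ q - (μ * η * ξ) ^ q) ≤ v (p : ℂ) := by
        have e6 : (μ : ℂ) * η ^ q * ξ ^ q - (μ * η * ξ) ^ q = -(((μ : ℂ) ^ q - μ) * (η ^ q * ξ ^ q)) := by
          ring
        rw [e6, v_neg, map_mul, map_mul, map_pow, map_pow, vη, vξ, one_pow, mul_one, mul_one]
        exact hμ.pow hv _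
      have e7 := ev_sub_le hv H (x := w ^ q) (x' := w ^ q) (y := μ * η ^ q * ξ ^ q)
        (y' := (μ * η * ξ) ^ q) hWle.le hWle.le (by rw [map_mul, vα', vω, one_mul])
        (by rw [map_pow, vαξ, one_pow])
      rw [sub_self, map_zero, max_eq_right (v.nonneg _)] at e7
      have e8 : ev H (w ^ q) (μ * η ^ q * ξ ^ q) = (ev H (w ^ q) (μ * η ^ q * ξ ^ q) -
          ev H (w ^ q) ((μ * η * ξ) ^ q)) + ev H (w ^ q) ((μ * η * ξ) ^ q) := by ring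
      rw [e8]
      exact (hv _ _).trans (max_le (e7.trans e5) e3)
    have hTω : v (ξ ^ q - 1) = θ := val_T_eq hv hp hω₀ hω
    have k5 := row_val hv h1 (fun m hm => (hHD m hm).2) R₀ vα' (mul_mem hμR (pow_mem ηR q)) gap
      (ω := ξ ^ q) (by rw [hTω]; exact hθ0) (by rw [hTω]; exact hθ1) (by rw [hTω]; exact hcθ.trans_le hθD)
    rw [hTω] at k5
    have k6 : (inX H (μ * η ^ q * ξ ^ q)).natDegree = m₁ 0 := by
      refine le_antisymm (inX_natDegree h1' _) (Polynomial.le_natDegree_of_ne_zero fun h => ?_)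
      rw [h, map_zero] at k5
      linarith
    obtain ⟨z, hz, hzn, -⟩ := root_near (P := inX H (μ * η ^ q * ξ ^ q)) (D := D) (x := w ^ q) (L := θ ^ D)
      (δ := v (p : ℂ)) (inX_natDegree (fun m hm => (hHD m hm).1) _)
      (by rw [Polynomial.leadingCoeff, k6]; exact k5) hθD0 (by rw [inX_eval]; exact k4) (hpθ.trans_le hθD)
    have k7 : v (w ^ q - z) ≤ ρa * θ ^ D := by
      refine (lt_of_pow_lt_pow_left₀ D (by positivity) ?_).le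
      rw [mul_pow, ← pow_mul]
      rw [div_lt_iff₀ (pow_pos hθ0 _), pow_add, ← mul_assoc] at ha
      exact lt_of_mul_lt_mul_right (lt_of_le_of_lt hzn ha) hθD0.le
    have k8 : v (w ^ q - z) ≤ ρa * v (w ^ q) := k7.trans (mul_le_mul_of_nonneg_left k3 ha0)
    have hW0 : 0 < v (w ^ q) := hθD0.trans_le k3
    have vz : v z = v (w ^ q) := by
      refine v_eq_of_sub_lt hv ?_
      rw [v_sub_comm]
      refine lt_of_le_of_lt k8 ?_
      nlinarith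
    have hz0 : z ≠ 0 := by
      rintro rfl
      rw [map_zero] at vz
      linarith
    have k9 : v (w ^ q / z - 1) ≤ ρa := by
      have e1 : w ^ q / z - 1 = (w ^ q - z) / z := by field_simp
      rw [e1, map_div₀, vz, div_le_iff₀ hW0]
      exact k8
    -- the second coordinate
    have hYle : v (y ^ q) = 1 := by rw [map_pow, hy, one_pow]
    have k10 : v (ev F z (y ^ q)) ≤ max (v (p : ℂ)) ρa := by
      have e0 := frob hv hp F hw.le hy.le (t - r)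
      rw [← hq] at e0
      have e1 : v (ev F (w ^ q) (y ^ q)) ≤ v (p : ℂ) := by
        have f1 : ev F (w ^ q) (y ^ q) = (ev F (w ^ q) (y ^ q) - ev F w y ^ q) + ev F w y ^ q := by ring
        rw [f1]
        refine (hv _ _).trans (max_le e0 ?_)
        rw [map_pow]
        calc v (ev F w y) ^ q ≤ v (ev F w y) ^ 1 :=
              pow_le_pow_of_le_one (v.nonneg _) (hFy.trans hvp.le) hq0
          _ ≤ v (p : ℂ) := by rw [pow_one]; exact hFy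
      have e2 := ev_sub_le hv F (x := z) (x' := w ^ q) (y := y ^ q) (y' := y ^ q) (by rw [vz]; exact hWle.le)
        hWle.le hYle.le hYle.le
      rw [sub_self, map_zero, max_eq_left (v.nonneg _), v_sub_comm v z] at e2
      have e3 : ev F z (y ^ q) = ev F (w ^ q) (y ^ q) + (ev F z (y ^ q) - ev F (w ^ q) (y ^ q)) := by ring
      rw [e3]
      refine (hv _ _).trans (max_le_max e1 ?_)
      refine e2.trans (k8.trans ?_)
      nlinarith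
    obtain ⟨z', hz', hzn', -⟩ := root_gauss hv (P := inY F z) (D := D) (x := y ^ q)
      (inY_natDegree hFD _) (inY_unit hv h2 h2' (by rw [vz]; exact hWle)) hYle.le
      (by rw [inY_eval]; exact k10) (max_lt hvp ha1)
    have k11 : v (y ^ q - z') < ρc := by
      refine lt_of_pow_lt_pow_left₀ D hρc0 ?_
      exact lt_of_le_of_lt hzn' hρc
    have vz' : v z' = 1 := by
      rw [← hYle]
      refine v_eq_of_sub_lt hv ?_
      rw [v_sub_comm, hYle]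
      exact k11.trans hρc1
    have hz0' : z' ≠ 0 := by
      rintro rfl
      rw [map_zero] at vz'
      exact zero_ne_one vz'
    have k12 : v (y ^ q / z' - 1) ≤ ρc := by
      have e1 : y ^ q / z' - 1 = (y ^ q - z') / z' := by field_simp
      rw [e1, map_div₀, vz', div_one]
      exact k11.le
    refine ⟨hpw, (z, z'), ?_, k9.trans (le_max_left _ _), k12.trans (le_max_right _ _)⟩
    simp only [Finset.mem_biUnion, Finset.mem_image, nthRoots_mem hN₀, nthRoots_mem (pow_pos hp.pos _),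
      Multiset.mem_toFinset]
    refine ⟨η ^ q, by rw [← pow_mul, mul_comm, pow_mul, hη, one_pow], ξ ^ q, hω.pow_eq_one, z, ?_, z', hz', rfl⟩
    rw [← mul_assoc]
    exact hz

/-- **step 3** -/
theorem exc_step3M (hv : IsNonarchimedean v) {p : ℕ} (hp : p.Prime) (hp4 : 4 ≤ p) (hvp : v (p : ℂ) < 1)
    {μ : ℂ} (hμ : Tame v p μ) {D N₀ : ℕ} (hN₀ : 0 < N₀) (hpD : 64 * D ^ 2 ≤ p)
    {H F : MvPolynomial (Fin 2) ℤ} (hH : NoCoset v H) (hHD : ∀ m ∈ H.support, m 0 ≤ D ∧ m 1 ≤ D)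
    (hF : BotUnit v F) {β : ℂ} (hβ : IsAlgebraic ℚ β) (vβ : v β = 1) {ρ : ℝ} (hρ : ρ < 1) :
    ∃ t₀ : ℕ, ∀ (w y s ζ₆ η ξ : ℂ) (t j : ℕ), v w < 1 → v y = 1 → v (ev F w y) ≤ v (p : ℂ) → v (ev H y s) ≤ v (p : ℂ) →
      v (s - μ * (η * ξ)) ≤ v (p : ℂ) → η ^ N₀ = 1 → IsPrimitiveRoot ξ (p ^ (t + 1)) → 0 < j →
      ζ₆ ^ j = 1 → v (y - ζ₆ * β) ≤ ρ → t < t₀ := by
  classical
  have hβ0 : β ≠ 0 := by
    rintro rfl
    rw [map_zero] at vβ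
    exact zero_ne_one vβ
  obtain ⟨K₁, hK₁, hK⟩ := exists_order hv hp hvp
    (C := ((inY F 0).roots.toFinset.image fun r : ℂ => r / β : Finset ℂ)) (Finset.finite_toSet _) (by
        intro c hc
        rw [Finset.mem_coe, Finset.mem_image] at hc
        obtain ⟨r, hr, rfl⟩ := hc
        rw [Multiset.mem_toFinset] at hr
        have e1 := special_alg hr
        have e2 := hβ
        rw [← mem_algebraicClosure_iff] at e1 e2 ⊢
        exact div_mem e1 e2)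
  obtain ⟨R₀, c, hS, hQ, hc0, hc1, gap⟩ := gap_set hv hp hvp
    (S := (({β, μ} ∪ ((Polynomial.nthRoots N₀ (1 : ℂ)).toFinset ∪
      (Polynomial.nthRoots K₁ (1 : ℂ)).toFinset) : Finset ℂ) : Set ℂ)) (Finset.finite_toSet _) (by
        intro x hx
        rw [Finset.mem_coe, Finset.mem_union, Finset.mem_union, Finset.mem_insert, Finset.mem_singleton,
          nthRoots_mem hN₀, nthRoots_mem hK₁] at hx
        rcases hx with (rfl | rfl) | hx | hx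
        · exact hβ
        · exact hμ.alg
        · exact alg_root_unity hN₀ hx
        · exact alg_root_unity hK₁ hx)
  obtain ⟨t₀, ht₀⟩ := T_large hv hp hvp (c := max c (max ρ (v (p : ℂ)))) (max_lt hc1 (max_lt hρ hvp)) (p - 2)
  refine ⟨t₀, ?_⟩
  intro w y s ζ₆ η ξ t j hw hy hFy hHs hs hη hξ hj hζ₆ hyζ
  by_contra hcon
  push Not at hcon
  have hβR : β ∈ R₀ := hS (Finset.mem_coe.2 (Finset.mem_union_left _ (Finset.mem_insert_self β {μ})))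
  have hμR : μ ∈ R₀ := hS (Finset.mem_coe.2 (Finset.mem_union_left _ (Finset.mem_insert_of_mem
    (Finset.mem_singleton_self μ))))
  have hηR : η ∈ R₀ := hS (Finset.mem_coe.2 (Finset.mem_union_right _ (Finset.mem_union_left _
    ((nthRoots_mem hN₀).2 hη))))
  obtain ⟨k, N, hpN, rfl⟩ := Nat.exists_eq_pow_mul_and_not_dvd hj.ne' p hp.ne_one
  have hcop : Nat.Coprime p N := (Nat.Prime.coprime_iff_not_dvd hp).2 hpN
  have hN0 : 0 < N := Nat.pos_of_mul_pos_left hj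
  obtain ⟨η₆, ξ₆, hη₆, hξ₆, hηξ, -⟩ := Pool.Agent.Helper69.DL.exists_decomp hp hcop hζ₆
  have vξ₆ : v (ξ₆ - 1) < 1 := Pool.Agent.Helper69.DL.root_sub_lt hv hp hvp hξ₆
  have vη₆ : v η₆ = 1 := val_root hN0 hη₆
  have vξ₆' : v ξ₆ = 1 := val_root (pow_pos hp.pos _) hξ₆
  have vη : v η = 1 := val_root hN₀ hη
  have vξ : v ξ = 1 := val_root (pow_pos hp.pos _) hξ.pow_eq_one
  obtain ⟨r, hr, hr1⟩ := near_specialM hv hF hvp hw hy hFy
  have hηK : η₆ ^ K₁ = 1 := by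
    refine hK η₆ N hN0 hpN hη₆ ⟨r / β, ?_, ?_⟩
    · rw [Finset.mem_coe, Finset.mem_image]
      exact ⟨r, Multiset.mem_toFinset.2 hr, rfl⟩
    · have e1 : η₆ - r / β = ((y - r) - (y - ζ₆ * β) - η₆ * β * (ξ₆ - 1)) / β := by
        rw [hηξ]
        field_simp
        ring
      rw [e1, map_div₀, vβ, div_one]
      refine lt_of_le_of_lt (v_sub_le hv _ _) (max_lt (lt_of_le_of_lt (v_sub_le hv _ _) (max_lt hr1 ?_)) ?_)
      · exact lt_of_le_of_lt hyζ hρ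
      · rw [map_mul, map_mul, vη₆, vβ, one_mul, one_mul]
        exact vξ₆
  have hη₆R : η₆ ∈ R₀ := hS (Finset.mem_coe.2 (Finset.mem_union_right _ (Finset.mem_union_right _
    ((nthRoots_mem hK₁).2 hηK))))
  -- the common root of unity
  obtain ⟨t', ω, a, b, ht', hω, hab, ha, hb⟩ : ∃ (t' : ℕ) (ω : ℂ) (a b : ℤ), t₀ ≤ t' ∧
      IsPrimitiveRoot ω (p ^ (t' + 1)) ∧ ¬ ((p : ℤ) ∣ a ∧ (p : ℤ) ∣ b) ∧ ξ₆ = ω ^ a ∧ ξ = ω ^ b := by
    have hp1 : ¬ (p : ℤ) ∣ 1 := by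
      intro h
      exact hp.one_lt.ne' (by exact_mod_cast Int.eq_one_of_dvd_one (Int.natCast_nonneg p) h)
    obtain ⟨i, -, hi⟩ := (Nat.dvd_prime_pow hp).1 (orderOf_dvd_of_pow_eq_one hξ₆)
    rcases le_or_gt i (t + 1) with hit | hit
    · have e1 : ξ₆ ^ p ^ (t + 1) = 1 := by
        refine orderOf_dvd_iff_pow_eq_one.1 ?_
        rw [hi]
        exact Nat.pow_dvd_pow p hit
      have : NeZero (p ^ (t + 1)) := ⟨(pow_pos hp.pos _).ne'⟩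
      obtain ⟨b, -, hb⟩ := hξ.eq_pow_of_pow_eq_one e1
      exact ⟨t, ξ, b, 1, hcon, hξ, fun h => hp1 h.2, by rw [zpow_natCast, hb], by rw [zpow_one]⟩
    · obtain ⟨t', rfl⟩ : ∃ t', i = t' + 1 := ⟨i - 1, by omega⟩
      have e2 : IsPrimitiveRoot ξ₆ (p ^ (t' + 1)) := by
        rw [← hi]
        exact IsPrimitiveRoot.orderOf ξ₆
      have e1 : ξ ^ p ^ (t' + 1) = 1 := by
        refine orderOf_dvd_iff_pow_eq_one.1 ?_
        rw [← hξ.eq_orderOf]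
        exact Nat.pow_dvd_pow p hit.le
      have : NeZero (p ^ (t' + 1)) := ⟨(pow_pos hp.pos _).ne'⟩
      obtain ⟨b, -, hb⟩ := e2.eq_pow_of_pow_eq_one e1
      exact ⟨t', ξ₆, 1, b, by omega, e2, fun h => hp1 h.1, by rw [zpow_one], by rw [zpow_natCast, hb]⟩
  have hbig := ht₀ t' ht' ω hω
  have vα : v (η₆ * β) = 1 := by rw [map_mul, vη₆, vβ, one_mul]
  have vβ' : v ((μ : ℂ) * η) = 1 := by rw [map_mul, hμ.one, vη, one_mul]
  have hd := digits hv hp hp4 hvp hH hHD hpD vα vβ' R₀ (mul_mem hη₆R hβR) (mul_mem hμR hηR) gap hω hab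
    (lt_of_le_of_lt (le_max_left _ _) hbig)
  rw [← ha, ← hb] at hd
  have vs1 : v (μ * η * ξ) = 1 := by rw [map_mul, vβ', vξ, one_mul]
  have vs2 : v (η₆ * β * ξ₆) = 1 := by rw [map_mul, vα, vξ₆', one_mul]
  rw [← mul_assoc] at hs
  have vs : v s = 1 := by
    rw [← vs1]
    refine v_eq_of_sub_lt hv ?_
    rw [vs1]
    exact lt_of_le_of_lt hs hvp
  have e1 := ev_sub_le hv H (x := η₆ * β * ξ₆) (x' := y) (y := μ * η * ξ) (y' := s) vs2.le hy.le vs1.le vs.le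
  rw [v_sub_comm v _ y, v_sub_comm v _ s] at e1
  have e2 : v (y - η₆ * β * ξ₆) ≤ ρ := by
    have e3 : η₆ * β * ξ₆ = ζ₆ * β := by rw [hηξ]; ring
    rw [e3]
    exact hyζ
  have e4 : v (ev H (η₆ * β * ξ₆) (μ * η * ξ)) ≤ max ρ (v (p : ℂ)) := by
    have e5 : ev H (η₆ * β * ξ₆) (μ * η * ξ) = (ev H (η₆ * β * ξ₆) (μ * η * ξ) - ev H y s) + ev H y s := by ring
    rw [e5]
    exact (hv _ _).trans (max_le (e1.trans (max_le_max e2 hs)) (hHs.trans (le_max_right _ _)))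
  exact absurd ((hd.trans e4).trans (le_max_right c _)) (not_le.2 hbig)

/-- the exceptional coordinate, uniformly in `m`, `ν`, `A`, for a fixed `μ` -/
theorem exc_boundedM' (hv : IsNonarchimedean v) {p : ℕ} (hp : p.Prime) (hp4 : 4 ≤ p) (hvp : v (p : ℂ) < 1)
    {D : ℕ} (hpD : 64 * D ^ 2 ≤ p) {μ : ℂ} (hμ : Tame v p μ) {H₁ H₂ F Fk Fl : MvPolynomial (Fin 2) ℤ}
    (hH₁D : ∀ m ∈ H₁.support, m 0 ≤ D ∧ m 1 ≤ D) (hH₁ : RowUnit v H₁)
    (hH₂D : ∀ m ∈ H₂.support, m 0 ≤ D ∧ m 1 ≤ D) (hH₂ : NoCoset v H₂)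
    (hFD : ∀ m ∈ F.support, m 1 ≤ D) (hF : BotUnit v F) (hFk : BotUnit v Fk) (hFl : BotUnit v Fl) :
    ∃ G₀ : ℕ, ∀ (m : ℕ) (ν A : ℂ), v ν = 1 → v (ν ^ p - ν) ≤ v (p : ℂ) → v A = 1 →
      v (A ^ p - A) ≤ v (p : ℂ) → ∀ (w y x x' ζ : ℂ) (g : ℕ), v w < 1 → v y = 1 → v x = 1 →
      v x' = 1 → v (ev H₁ w (x / x')) ≤ v (p : ℂ) → v (ev H₂ y (x / x')) ≤ v (p : ℂ) →
      v (ev F w y) ≤ v (p : ℂ) → v (ev Fk w x) ≤ v (p : ℂ) → v (ev Fl w x') ≤ v (p : ℂ) →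
      v (x / x' - μ * ζ) ≤ v (p : ℂ) → 0 < g → IsPrimitiveRoot ζ g →
      (v (p : ℂ) < v w → ∃ (ζ' ε : ℂ) (a d : ℕ) (σ : ℤ), 0 < a ∧ 0 < d ∧
      Nat.Coprime a d ∧ v w ^ a = v (p : ℂ) ^ (m * d) ∧ (σ = 1 ∨ σ = -1) ∧
      (A * y) ^ d * w ^ a = ζ' * p ^ (m * d) * ((ν * y) ^ σ) ^ a * (1 + ε) ∧
      (∃ j, 0 < j ∧ ζ' ^ j = 1) ∧ v ε * v w ≤ v (p : ℂ)) → g ≤ G₀ := by
  classical
  have hp0 : 0 < v (p : ℂ) := v.pos (by exact_mod_cast hp.ne_zero)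
  obtain ⟨⟨m₀, a1, a2⟩, m₁, a3, a4⟩ := hH₁
  obtain ⟨m₂, b1, b2⟩ := id hF
  obtain ⟨N₀, hN₀, hstep0⟩ := exc_step0M hv hp hvp hμ hFk hFl
  obtain ⟨r, T, ρ, L, hρ, hL, hTalg, hstep1⟩ := exc_step1M hv hp hvp hμ hN₀ hH₁D hFD a1 a2 a3 a4 b1 b2
  have hL0 : 0 < L := hp0.trans hL
  have hρe : v (p : ℂ) / L < 1 := (div_lt_one hL0).2 hL
  -- the bound for one pair of constants
  obtain ⟨t₁, ht₁⟩ := unif_bound T (P := fun τ t => ∃ (m : ℕ) (ν A w y s η ξ ζ' ε : ℂ) (a d k : ℕ) (σ : ℤ),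
      v ν = 1 ∧ v (ν ^ p - ν) ≤ v (p : ℂ) ∧ v A = 1 ∧ v (A ^ p - A) ≤ v (p : ℂ) ∧
      w ≠ 0 ∧ v w < 1 ∧ v y = 1 ∧ v (ev H₂ y s) ≤ v (p : ℂ) ∧ v (ev F w y) ≤ v (p : ℂ) ∧
      v (s - μ * (η * ξ)) ≤ v (p : ℂ) ∧ η ^ N₀ = 1 ∧ IsPrimitiveRoot ξ (p ^ (t + 1)) ∧ 0 < a ∧ 0 < d ∧
      Nat.Coprime a d ∧ v w ^ a = v (p : ℂ) ^ (m * d) ∧ (σ = 1 ∨ σ = -1) ∧
      (A * y) ^ d * w ^ a = ζ' * p ^ (m * d) * ((ν * y) ^ σ) ^ a * (1 + ε) ∧
      (∃ j, 0 < j ∧ ζ' ^ j = 1) ∧ v ε ≤ v (p : ℂ) / L ∧ v (w ^ p ^ k / τ.1 - 1) ≤ ρ ∧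
      v (y ^ p ^ k / τ.2 - 1) ≤ ρ) (by
    intro τ hτ
    obtain ⟨c1, c2⟩ := hTalg τ hτ
    obtain ⟨ρ', hρ', hstep2⟩ := exc_step2U hv hp hvp c1 c2 hρ hρe
    obtain ⟨t₀, ht₀⟩ := exc_step3M hv hp hp4 hvp hμ hN₀ hpD hH₂ hH₂D hF (isAlgebraic_one (R := ℚ) (A := ℂ))
      (map_one v) hρ'
    refine ⟨t₀, ?_⟩
    rintro t ⟨m, ν, A, w, y, s, η, ξ, ζ', ε, a, d, k, σ, f1, f2, f3, f4, d0, d1, d2, d3, d4, d5, d6, d7, d8, d9,
      d10, d11, d12, d13, d14, d15, d16, d17⟩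
    obtain ⟨ζ₆, j, e1, e2, e3⟩ := hstep2 m ν A f1 f2 f3 f4 w y ζ' ε a d k σ d1 d0 d2 d8 d9 d10 d11 d12 d13 d14
      d15 d16 d17
    exact ht₀ w y s ζ₆ η ξ t j d1 d2 d4 d3 d5 d6 d7 e1 e2 (by rw [mul_one]; exact e3))
  refine ⟨N₀ * p ^ (max r t₁ + 1), ?_⟩
  intro m ν A f1 f2 f3 f4 w y x x' ζ g hw hy hx hx' h1 h2 h3 h4 h5 hs hg hζ hcond
  obtain ⟨η, ξ, k, hηξ, hη, hξ, hgle⟩ := hstep0 w x x' ζ g hw hx hx' h4 h5 hs hg hζ
  refine hgle.trans (Nat.mul_le_mul_left N₀ (Nat.pow_le_pow_right hp.pos ?_))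
  by_contra hcon
  push Not at hcon
  obtain ⟨t, rfl⟩ : ∃ t, k = t + 1 := ⟨k - 1, by omega⟩
  have hrt : r ≤ t := by have := le_max_left r t₁; omega
  have ht1 : t₁ ≤ t := by have := le_max_right r t₁; omega
  rw [hηξ] at hs
  obtain ⟨hpw, τ, hτ, k1, k2⟩ := hstep1 w y (x / x') η ξ t hw hy h1 h3 hs hη hξ hrt
  obtain ⟨ζ', ε, a, d, σ, ha, hd, hcop, hwa, hσ, hrel, hζ', hε⟩ := hcond (hL.trans_le hpw)
  have hw0 : w ≠ 0 := by
    rintro rfl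
    rw [map_zero] at hpw
    linarith
  have hε' : v ε ≤ v (p : ℂ) / L := by
    rw [le_div_iff₀ hL0]
    exact (mul_le_mul_of_nonneg_left hpw (v.nonneg _)).trans hε
  have := ht₁ τ hτ t ⟨m, ν, A, w, y, x / x', η, ξ, ζ', ε, a, d, t - r, σ, f1, f2, f3, f4, hw0, hw, hy, h2, h3,
    hs, hη, hξ, ha, hd, hcop, hwa, hσ, hrel, hζ', hε', k1, k2⟩
  omega

/-- **the exceptional coordinate, uniformly** in `m`, `μ`, `ν`, `A` -/
theorem exc_boundedM (hv : IsNonarchimedean v) {p : ℕ} (hp : p.Prime) (hp4 : 4 ≤ p) (hvp : v (p : ℂ) < 1)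
    {D : ℕ} (hpD : 64 * D ^ 2 ≤ p) {H₁ H₂ F Fk Fl : MvPolynomial (Fin 2) ℤ}
    (hH₁D : ∀ m ∈ H₁.support, m 0 ≤ D ∧ m 1 ≤ D) (hH₁ : RowUnit v H₁)
    (hH₂D : ∀ m ∈ H₂.support, m 0 ≤ D ∧ m 1 ≤ D) (hH₂ : NoCoset v H₂)
    (hFD : ∀ m ∈ F.support, m 1 ≤ D) (hF : BotUnit v F) (hFk : BotUnit v Fk) (hFl : BotUnit v Fl) :
    ∃ G₀ : ℕ, ∀ (m : ℕ) (μ ν A : ℂ), v μ = 1 → (∃ q : ℕ, q < p ∧ v (μ - q) ≤ v (p : ℂ)) →
      v ν = 1 → v (ν ^ p - ν) ≤ v (p : ℂ) → v A = 1 →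
      v (A ^ p - A) ≤ v (p : ℂ) → ∀ (w y x x' ζ : ℂ) (g : ℕ), v w < 1 → v y = 1 → v x = 1 →
      v x' = 1 → v (ev H₁ w (x / x')) ≤ v (p : ℂ) → v (ev H₂ y (x / x')) ≤ v (p : ℂ) →
      v (ev F w y) ≤ v (p : ℂ) → v (ev Fk w x) ≤ v (p : ℂ) → v (ev Fl w x') ≤ v (p : ℂ) →
      v (x / x' - μ * ζ) ≤ v (p : ℂ) → 0 < g → IsPrimitiveRoot ζ g →
      (v (p : ℂ) < v w → ∃ (ζ' ε : ℂ) (a d : ℕ) (σ : ℤ), 0 < a ∧ 0 < d ∧
      Nat.Coprime a d ∧ v w ^ a = v (p : ℂ) ^ (m * d) ∧ (σ = 1 ∨ σ = -1) ∧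
      (A * y) ^ d * w ^ a = ζ' * p ^ (m * d) * ((ν * y) ^ σ) ^ a * (1 + ε) ∧
      (∃ j, 0 < j ∧ ζ' ^ j = 1) ∧ v ε * v w ≤ v (p : ℂ)) → g ≤ G₀ := by
  classical
  have h1 : ∀ q : ℕ, ∃ G₀ : ℕ, v ((q : ℕ) : ℂ) = 1 → ∀ (m : ℕ) (ν A : ℂ), v ν = 1 →
      v (ν ^ p - ν) ≤ v (p : ℂ) → v A = 1 →
      v (A ^ p - A) ≤ v (p : ℂ) → ∀ (w y x x' ζ : ℂ) (g : ℕ), v w < 1 → v y = 1 → v x = 1 →
      v x' = 1 → v (ev H₁ w (x / x')) ≤ v (p : ℂ) → v (ev H₂ y (x / x')) ≤ v (p : ℂ) →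
      v (ev F w y) ≤ v (p : ℂ) → v (ev Fk w x) ≤ v (p : ℂ) → v (ev Fl w x') ≤ v (p : ℂ) →
      v (x / x' - q * ζ) ≤ v (p : ℂ) → 0 < g → IsPrimitiveRoot ζ g →
      (v (p : ℂ) < v w → ∃ (ζ' ε : ℂ) (a d : ℕ) (σ : ℤ), 0 < a ∧ 0 < d ∧
      Nat.Coprime a d ∧ v w ^ a = v (p : ℂ) ^ (m * d) ∧ (σ = 1 ∨ σ = -1) ∧
      (A * y) ^ d * w ^ a = ζ' * p ^ (m * d) * ((ν * y) ^ σ) ^ a * (1 + ε) ∧
      (∃ j, 0 < j ∧ ζ' ^ j = 1) ∧ v ε * v w ≤ v (p : ℂ)) → g ≤ G₀ := by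
    intro q
    by_cases hq : v ((q : ℕ) : ℂ) = 1
    · have hT : Tame v p ((q : ℕ) : ℂ) := by
        have := tame_rat hv hp hvp (μ := (q : ℚ)) (by push_cast; exact hq)
        push_cast at this
        exact this
      obtain ⟨G, hG⟩ := exc_boundedM' hv hp hp4 hvp hpD hT hH₁D hH₁ hH₂D hH₂ hFD hF hFk hFl
      exact ⟨G, fun _ => hG⟩
    · exact ⟨0, fun h => absurd h hq⟩
  choose G hG using h1
  refine ⟨(Finset.range p).sup G, ?_⟩
  intro m μ ν A hμ ⟨q, hqp, hq⟩ hν hν' hA hA' w y x x' ζ g hw hy hx hx' k1 k2 k3 k4 k5 hs hg hζ hcond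
  have vζ : v ζ = 1 := val_root hg hζ.pow_eq_one
  have vq : v ((q : ℕ) : ℂ) = 1 := by
    rw [← hμ]
    refine v_eq_of_sub_lt hv ?_
    rw [hμ, v_sub_comm]
    exact hq.trans_lt hvp
  have hs' : v (x / x' - q * ζ) ≤ v (p : ℂ) := by
    have e1 : x / x' - q * ζ = (x / x' - μ * ζ) + (μ - q) * ζ := by ring
    rw [e1]
    refine (hv _ _).trans (max_le hs ?_)
    rw [map_mul, vζ, mul_one]
    exact hq
  exact (hG q vq m ν A hν hν' hA hA' w y x x' ζ g hw hy hx hx' k1 k2 k3 k4 k5 hs' hg hζ hcond).trans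
    (Finset.le_sup (Finset.mem_range.2 hqp))

end Pool.Agent.Helper20.DL
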