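import Pool.Agent.Helper20.DL.ExcA

/-! # The exceptional coordinate, uniformly in the constants -/

open Finset

namespace Pool.Agent.Helper20.DL
open Pool.Agent.Helper20.ZD Pool.Agent.Helper11.LC

variable {v : AbsoluteValue ℂ ℝ}

/-- finitely many algebraic units have a common power near one -/
lemma exists_near_power (hv : IsNonarchimedean v) {p : ℕ} (hp : p.Prime) (hvp : v (p : ℂ) < 1) (S : Finset ℂ)
    (halg : ∀ x ∈ S, IsAlgebraic ℚ x ∧ v x = 1) :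
    ∃ (K : ℕ) (ρ : ℝ), 0 < K ∧ 0 ≤ ρ ∧ ρ < 1 ∧ ∀ x ∈ S, v (x ^ K - 1) ≤ ρ := by
  classical
  set E := S.sup fun x => (minpoly ℚ x).natDegree with hE
  set K := ∏ f ∈ Finset.Icc 1 E, (p ^ f - 1) with hK
  have hK0 : 0 < K := by
    refine Finset.prod_pos fun f hf => ?_
    have h1 : 1 < p ^ f := Nat.one_lt_pow (by rw [Finset.mem_Icc] at hf; omega) hp.one_lt
    omega
  have h1 : ∀ x ∈ S, v (x ^ K - 1) < 1 := fun x hx =>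
    residue_bound hv hp hvp (halg x hx).1 (Finset.le_sup (f := fun x => (minpoly ℚ x).natDegree) hx) (halg x hx).2
  rcases S.eq_empty_or_nonempty with hS | hS
  · exact ⟨K, 0, hK0, le_rfl, one_pos, fun x hx => by rw [hS] at hx; exact absurd hx (Finset.notMem_empty x)⟩
  · obtain ⟨x₀, hx₀, hmax⟩ := Finset.exists_max_image S (fun x => v (x ^ K - 1)) hS
    exact ⟨K, v (x₀ ^ K - 1), hK0, v.nonneg _, h1 x₀ hx₀, hmax⟩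

/-- Fermat -/
lemma near_fermat {p : ℕ} (hp : p.Prime) {x : ℂ} (h1 : v x = 1) (h2 : v (x ^ p - x) ≤ v (p : ℂ)) :
    v (x ^ (p - 1) - 1) ≤ v (p : ℂ) := by
  have h3 : x ^ p - x = x * (x ^ (p - 1) - 1) := by
    obtain ⟨k, hk⟩ : ∃ k, p = k + 1 := ⟨p - 1, by have := hp.pos; omega⟩
    rw [hk, Nat.add_sub_cancel, pow_succ]
    ring
  rw [h3, map_mul, h1, one_mul] at h2
  exact h2

/-- **step 2**, uniformly -/
theorem exc_step2U (hv : IsNonarchimedean v) {p : ℕ} (hp : p.Prime) (hvp : v (p : ℂ) < 1) {y₁ v₁ : ℂ}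
    (hy₁ : IsAlgebraic ℚ y₁) (hv₁ : IsAlgebraic ℚ v₁) {ρ ρe : ℝ} (hρ : ρ < 1) (hρe : ρe < 1) :
    ∃ ρ' : ℝ, ρ' < 1 ∧ ∀ (m : ℕ) (ν A : ℂ), v ν = 1 → v (ν ^ p - ν) ≤ v (p : ℂ) → v A = 1 →
      v (A ^ p - A) ≤ v (p : ℂ) →
      ∀ (w y ζ' ε : ℂ) (a d k : ℕ) (σ : ℤ), v w < 1 → w ≠ 0 → v y = 1 → 0 < a → 0 < d → Nat.Coprime a d →
        v w ^ a = v (p : ℂ) ^ (m * d) → (σ = 1 ∨ σ = -1) →
        (A * y) ^ d * w ^ a = ζ' * p ^ (m * d) * ((ν * y) ^ σ) ^ a * (1 + ε) →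
        (∃ j, 0 < j ∧ ζ' ^ j = 1) → v ε ≤ ρe → v (w ^ p ^ k / y₁ - 1) ≤ ρ →
        v (y ^ p ^ k / v₁ - 1) ≤ ρ → ∃ (ζ₆ : ℂ) (j : ℕ), 0 < j ∧ ζ₆ ^ j = 1 ∧ v (y - ζ₆) ≤ ρ' := by
  classical
  have hp0 : 0 < v (p : ℂ) := v.pos (by exact_mod_cast hp.ne_zero)
  have hpne : (p : ℂ) ≠ 0 := by exact_mod_cast hp.ne_zero
  by_cases hy1 : v y₁ < 1 ∧ y₁ ≠ 0 ∧ v v₁ = 1
  swap
  · refine ⟨0, zero_lt_one, ?_⟩
    intro m ν A hν hν' hA hA' w y ζ' ε a d k σ hw hw0 hy ha hd hcop hwa hσ hrel hζ hε h1 h2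
    exfalso
    apply hy1
    have h3 : v (w ^ p ^ k / y₁) = 1 := v_one_of_near hv (h1.trans_lt hρ)
    have h3' : v (y ^ p ^ k / v₁) = 1 := v_one_of_near hv (h2.trans_lt hρ)
    have h4 : y₁ ≠ 0 := by
      rintro rfl
      rw [div_zero, map_zero] at h3
      exact zero_ne_one h3
    have h4' : v₁ ≠ 0 := by
      rintro rfl
      rw [div_zero, map_zero] at h3'
      exact zero_ne_one h3'
    refine ⟨?_, h4, ?_⟩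
    · rw [map_div₀, div_eq_one_iff_eq ((AbsoluteValue.ne_zero_iff v).2 h4)] at h3
      rw [← h3, map_pow]
      exact pow_lt_one₀ (v.nonneg _) hw (pow_pos hp.pos _).ne'
    · rw [map_div₀, div_eq_one_iff_eq ((AbsoluteValue.ne_zero_iff v).2 h4')] at h3'
      rw [← h3', map_pow, hy, one_pow]
  obtain ⟨hy1, hy0, hv11⟩ := hy1
  have hv10 : v₁ ≠ 0 := by
    rintro rfl
    rw [map_zero] at hv11
    exact zero_ne_one hv11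
  obtain ⟨κ', l, hκ', -, hl⟩ := v_alg hv hp hvp hy0 hy₁ le_rfl
  have hl0 : 0 < l := by
    by_contra hcon
    push Not at hcon
    have h1 : 1 ≤ v (p : ℂ) ^ l := one_le_zpow_of_nonpos₀ hp0 hvp.le hcon
    have h2 : v y₁ ^ κ' < 1 := pow_lt_one₀ (v.nonneg _) hy1 hκ'.ne'
    rw [hl] at h2
    linarith
  obtain ⟨κ, rfl⟩ := Int.eq_ofNat_of_zero_le hl0.le
  have hκ : 0 < κ := by exact_mod_cast hl0
  rw [zpow_natCast] at hl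
  -- the constants
  let c₀ : ℕ → ℤ → ℂ := fun d σ => (p : ℂ) ^ (d * κ) * (v₁ ^ σ) ^ (κ' * d) / y₁ ^ (κ' * d)
  have hc₀ : ∀ d σ, IsAlgebraic ℚ (c₀ d σ) ∧ v (c₀ d σ) = 1 := by
    intro d σ
    constructor
    · have e3 : IsAlgebraic ℚ (p : ℂ) := isAlgebraic_natCast p
      have e4 := hy₁
      have e5 := hv₁
      rw [← mem_algebraicClosure_iff] at e3 e4 e5 ⊢
      exact div_mem (mul_mem (pow_mem e3 _) (pow_mem (zpow_mem e5 _) _)) (pow_mem e4 _)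
    · change v ((p : ℂ) ^ (d * κ) * (v₁ ^ σ) ^ (κ' * d) / y₁ ^ (κ' * d)) = 1
      rw [map_div₀, map_mul, map_pow, map_pow, map_pow, map_zpow₀, hv11, one_zpow, one_pow, mul_one, pow_mul (v y₁),
        hl, ← pow_mul, mul_comm κ d, div_self (pow_ne_zero _ hp0.ne')]
  obtain ⟨K, ρ₅, hK, hρ₅0, hρ₅1, hKS⟩ := exists_near_power hv hp hvp
    (((Finset.Icc 1 κ) ×ˢ ({1, -1} : Finset ℤ)).image fun q : ℕ × ℤ => c₀ q.1 q.2) (by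
      intro x hx
      obtain ⟨q, -, rfl⟩ := Finset.mem_image.1 hx
      exact hc₀ q.1 q.2)
  set ρ₃ := max (max (max ρ ρe) (v (p : ℂ))) ρ₅ with hρ₃
  have hρ₃1 : ρ₃ < 1 := max_lt (max_lt (max_lt hρ hρe) hvp) hρ₅1
  have hρ₃0 : 0 ≤ ρ₃ := le_max_of_le_right hρ₅0
  have hpρ : v (p : ℂ) ≤ ρ₃ := le_max_of_le_left (le_max_right _ _)
  have hp1 : 0 < p - 1 := by have := hp.two_le; omega
  set M := (p - 1) * K with hM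
  have hM0 : 0 < M := Nat.mul_pos hp1 hK
  obtain ⟨ρ', h0', h1', h2'⟩ := exists_rho hρ₃1 hρ₃0 (κ * κ * M)
  refine ⟨ρ', h1', ?_⟩
  intro m ν A hν hν' hA hA' w y ζ' ε a d k σ hw hw0 hy ha hd hcop hwa hσ hrel ⟨j, hj, hζj⟩ hε h1 h2
  set q := p ^ k with hq
  have hq0 : 0 < q := pow_pos hp.pos _
  have vW : v w ^ q = v y₁ := by
    have h3 : v (w ^ q / y₁) = 1 := v_one_of_near hv (h1.trans_lt hρ)
    rw [map_div₀, div_eq_one_iff_eq ((AbsoluteValue.ne_zero_iff v).2 hy0), map_pow] at h3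
    exact h3
  have hexp : κ * a = m * d * q * κ' := by
    refine pow_inj hp0 hvp ?_
    rw [pow_mul, ← hl, ← vW, ← pow_mul, ← pow_mul, show q * (κ' * a) = a * (q * κ') by ring, pow_mul, hwa,
      ← pow_mul]
    ring_nf
  have hdκ : d ∣ κ := by
    have h3 : d ∣ κ * a := by rw [hexp]; exact ⟨m * q * κ', by ring⟩
    exact (Nat.Coprime.dvd_of_dvd_mul_right hcop.symm h3)
  have hdle : d ≤ κ := Nat.le_of_dvd hκ hdκ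
  have hn : 0 < d * κ := Nat.mul_pos hd hκ
  have hne : ∀ {x : ℂ}, v x = 1 → x ≠ 0 := by
    rintro x hx rfl
    rw [map_zero] at hx
    exact zero_ne_one hx
  have hy00 : y ≠ 0 := hne hy
  have hν0 : ν ≠ 0 := hne hν
  have hA0 : A ≠ 0 := hne hA
  -- the factors near one
  set u₁ := w ^ q / y₁ with hu₁
  set u₂ := y ^ q / v₁ with hu₂
  set u₃ := ν ^ q / ν with hu₃
  have frobk : ∀ k : ℕ, v (ν ^ p ^ k - ν) ≤ v (p : ℂ) := by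
    intro k
    induction k with
    | zero => simp
    | succ k ih =>
      have h3 : ν ^ p ^ (k + 1) - ν = ((ν ^ p ^ k) ^ p - ν ^ p) + (ν ^ p - ν) := by
        rw [← pow_mul, ← pow_succ]; ring
      rw [h3]
      refine (hv _ _).trans (max_le ?_ hν')
      exact (v_pow_sub_pow_le hv (by rw [map_pow, hν, one_pow]) hν.le p).trans ih
  have n0 : v ((1 + ε) - 1) ≤ ρ₃ := by
    rw [add_sub_cancel_left]
    exact hε.trans (le_max_of_le_left (le_max_of_le_left (le_max_right _ _)))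
  have n1 : v (u₁ - 1) ≤ ρ₃ := h1.trans (le_max_of_le_left (le_max_of_le_left (le_max_left _ _)))
  have n2 : v (u₂ - 1) ≤ ρ₃ := h2.trans (le_max_of_le_left (le_max_of_le_left (le_max_left _ _)))
  have n3 : v (u₃ - 1) ≤ ρ₃ := by
    have h3 : u₃ - 1 = (ν ^ q - ν) / ν := by rw [hu₃]; field_simp
    rw [h3, map_div₀, hν, div_one]
    exact (frobk k).trans hpρ
  set e := κ' * m * d with he
  set u := (1 + ε) ^ κ * ((u₃ * u₂) ^ σ) ^ e * (u₁ ^ e)⁻¹ with hu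
  have n4 : v (u - 1) ≤ ρ₃ := by
    refine near_mul hv hρ₃1 (near_mul hv hρ₃1 (near_pow hv hρ₃1 n0 κ)
      (near_pow hv hρ₃1 (near_zpow hv hρ₃1 (near_mul hv hρ₃1 n3 n2) σ) e))
      (near_inv hv hρ₃1 (near_pow hv hρ₃1 n1 e))
  have hu₁0 : u₁ ≠ 0 := div_ne_zero (pow_ne_zero _ hw0) hy0
  -- the relation
  set b₀ : ℂ := (p : ℂ) ^ (m * d * κ) * ((ν * v₁) ^ σ) ^ e / (y₁ ^ e * A ^ (d * κ)) with hb₀
  have hkey : y ^ (d * κ) = ζ' ^ κ * b₀ * u := by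
    have e1 : ((A * y) ^ d * w ^ a) ^ κ = (ζ' * p ^ (m * d) * ((ν * y) ^ σ) ^ a * (1 + ε)) ^ κ := by
      rw [hrel]
    have e2 : (w ^ a) ^ κ = (w ^ q) ^ e := by
      rw [← pow_mul, ← pow_mul]
      congr 1
      rw [he, mul_comm a κ, hexp]
      ring
    have e3 : (((ν * y) ^ σ) ^ a) ^ κ = (((ν * y) ^ q) ^ σ) ^ e := by
      rw [← pow_mul, mul_comm a κ, hexp, ← zpow_natCast (((ν * y) ^ σ)), ← zpow_natCast ((((ν * y) ^ q) ^ σ)),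
        ← zpow_natCast (ν * y) q, ← zpow_mul, ← zpow_mul, ← zpow_mul]
      congr 1
      rw [he]
      push_cast
      ring
    have e4 : w ^ q = y₁ * u₁ := by rw [hu₁]; field_simp
    have e5 : (ν * y) ^ q = (ν * v₁) * (u₃ * u₂) := by
      rw [hu₃, hu₂, mul_pow]; field_simp
    rw [mul_pow, mul_pow (ζ' * p ^ (m * d) * ((ν * y) ^ σ) ^ a), mul_pow (ζ' * p ^ (m * d)), mul_pow ζ', e2, e3,
      e4, e5, mul_zpow, mul_pow y₁, mul_pow ((ν * v₁) ^ σ), ← pow_mul, mul_pow, ← pow_mul (p : ℂ)] at e1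
    have e6 : A ^ (d * κ) ≠ 0 := pow_ne_zero _ hA0
    have e7 : y₁ ^ e ≠ 0 := pow_ne_zero _ hy0
    have e8 : u₁ ^ e ≠ 0 := pow_ne_zero _ hu₁0
    have e9 : y ^ (d * κ) = (A ^ (d * κ) * y ^ (d * κ) * (y₁ ^ e * u₁ ^ e)) /
        (A ^ (d * κ) * (y₁ ^ e * u₁ ^ e)) := by
      field_simp
    rw [e9, e1, hu, hb₀]
    field_simp
  -- the constant is near one after raising it to the power `M`
  have nc : v (c₀ d σ ^ M - 1) ≤ ρ₃ := by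
    rw [hM, mul_comm, pow_mul]
    refine near_pow hv hρ₃1 ((hKS _ ?_).trans (le_max_right _ _)) _
    refine Finset.mem_image.2 ⟨(d, σ), ?_, rfl⟩
    rw [Finset.mem_product, Finset.mem_Icc, Finset.mem_insert, Finset.mem_singleton]
    exact ⟨⟨hd, hdle⟩, hσ⟩
  have nν : v (ν ^ M - 1) ≤ ρ₃ := by
    rw [hM, pow_mul]
    exact near_pow hv hρ₃1 ((near_fermat hp hν hν').trans hpρ) _
  have nA : v (A ^ M - 1) ≤ ρ₃ := by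
    rw [hM, pow_mul]
    exact near_pow hv hρ₃1 ((near_fermat hp hA hA').trans hpρ) _
  have hbM : b₀ ^ M = (c₀ d σ ^ M) ^ m * ((ν ^ M) ^ σ) ^ e * ((A ^ M) ^ (d * κ))⁻¹ := by
    have e6 : A ^ (d * κ) ≠ 0 := pow_ne_zero _ hA0
    have e7 : y₁ ^ e ≠ 0 := pow_ne_zero _ hy0
    have f1 : b₀ = c₀ d σ ^ m * (ν ^ σ) ^ e * (A ^ (d * κ))⁻¹ := by
      change _ = ((p : ℂ) ^ (d * κ) * (v₁ ^ σ) ^ (κ' * d) / y₁ ^ (κ' * d)) ^ m * (ν ^ σ) ^ e * (A ^ (d * κ))⁻¹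
      have f2 : ((p : ℂ) ^ (d * κ)) ^ m = (p : ℂ) ^ (m * d * κ) := by rw [← pow_mul]; ring_nf
      have f3 : ((v₁ ^ σ) ^ (κ' * d)) ^ m = (v₁ ^ σ) ^ e := by rw [← pow_mul, he]; ring_nf
      have f4 : (y₁ ^ (κ' * d)) ^ m = y₁ ^ e := by rw [← pow_mul, he]; ring_nf
      rw [div_pow, mul_pow, f2, f3, f4, hb₀, mul_zpow, mul_pow]
      field_simp
    have f5 : ((ν ^ M) ^ σ) ^ e = ((ν ^ σ) ^ e) ^ M := by
      rw [← pow_mul, ← zpow_natCast ((ν ^ M) ^ σ), ← zpow_natCast (ν ^ σ), ← zpow_natCast ν M, ← zpow_mul,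
        ← zpow_mul, ← zpow_mul]
      congr 1
      push_cast
      ring
    rw [f1, mul_pow, mul_pow, f5, inv_pow, ← pow_mul (c₀ d σ), ← pow_mul (c₀ d σ), ← pow_mul A, ← pow_mul A,
      mul_comm m M, mul_comm (d * κ) M]
  have nb : v (b₀ ^ M - 1) ≤ ρ₃ := by
    rw [hbM]
    exact near_mul hv hρ₃1 (near_mul hv hρ₃1 (near_pow hv hρ₃1 nc m)
      (near_pow hv hρ₃1 (near_zpow hv hρ₃1 nν σ) e)) (near_inv hv hρ₃1 (near_pow hv hρ₃1 nA _))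
  have hnM : 0 < d * κ * M := Nat.mul_pos hn hM0
  obtain ⟨ζ₅, hζ₅⟩ := IsAlgClosed.exists_pow_nat_eq ((ζ' ^ κ) ^ M) hnM
  have hζ5j : ζ₅ ^ (d * κ * M * j) = 1 := by
    rw [pow_mul, hζ₅, ← pow_mul, ← pow_mul, show κ * (M * j) = j * (κ * M) by ring, pow_mul, hζj, one_pow]
  have hj5 : 0 < d * κ * M * j := Nat.mul_pos hnM hj
  have vζ5 : v ζ₅ = 1 := val_root hj5 hζ5j
  have hζ50 : ζ₅ ≠ 0 := hne vζ5
  have vζ : v ζ' = 1 := val_root hj hζj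
  have hζ0 : ζ' ≠ 0 := hne vζ
  have hx : (y / ζ₅) ^ (d * κ * M) = b₀ ^ M * u ^ M := by
    rw [div_pow, hζ₅, pow_mul, hkey, mul_pow, mul_pow]
    have h3 : (ζ' ^ κ) ^ M ≠ 0 := pow_ne_zero _ (pow_ne_zero _ hζ0)
    field_simp
  obtain ⟨ω, hω, hωn⟩ := root_extract (v := v) hnM hρ₃1 (x := y / ζ₅)
    (by rw [hx]; exact near_mul hv hρ₃1 nb (near_pow hv hρ₃1 n4 M))
  have hfin : v (y / ζ₅ - ω) ≤ ρ' := by
    refine (lt_of_pow_lt_pow_left₀ (d * κ * M) h0' ?_).le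
    refine lt_of_le_of_lt hωn (lt_of_lt_of_le h2' ?_)
    exact pow_le_pow_of_le_one h0' h1'.le (Nat.mul_le_mul_right M (Nat.mul_le_mul_right κ hdle))
  refine ⟨ω * ζ₅, d * κ * M * j, hj5, ?_, ?_⟩
  · rw [mul_pow, hζ5j, mul_one, pow_mul, hω, one_pow]
  · have h3 : y - ω * ζ₅ = ζ₅ * (y / ζ₅ - ω) := by field_simp
    rw [h3, map_mul, vζ5, one_mul]
    exact hfin

/-- the exceptional coordinate, uniformly in `m`, `ν`, `A`, for a fixed `μ` -/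
theorem exc_boundedU' (hv : IsNonarchimedean v) {p : ℕ} (hp : p.Prime) (hp4 : 4 ≤ p) (hvp : v (p : ℂ) < 1)
    {D : ℕ} (hpD : 64 * D ^ 2 ≤ p) {μ : ℂ} (hμ : Tame v p μ) {H₁ H₂ F Fk Fl : MvPolynomial (Fin 2) ℤ}
    (hH₁D : ∀ m ∈ H₁.support, m 0 ≤ D ∧ m 1 ≤ D) (hH₁ : RowUnit v H₁)
    (hH₂D : ∀ m ∈ H₂.support, m 0 ≤ D ∧ m 1 ≤ D) (hH₂ : NoCoset v H₂)
    (hFD : ∀ m ∈ F.support, m 1 ≤ D) (hF : BotUnit v F) (hFk : BotUnit v Fk) (hFl : BotUnit v Fl) :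
    ∃ G₀ : ℕ, ∀ (m : ℕ) (ν A : ℂ), v ν = 1 → v (ν ^ p - ν) ≤ v (p : ℂ) → v A = 1 →
      v (A ^ p - A) ≤ v (p : ℂ) → ∀ (w y x x' ζ : ℂ) (g : ℕ), v w < 1 → v y = 1 → v x = 1 →
      v x' = 1 → ev H₁ w (x / x') = 0 → ev H₂ y (x / x') = 0 → ev F w y = 0 → ev Fk w x = 0 →
      ev Fl w x' = 0 → v (x / x' - μ * ζ) ≤ v (p : ℂ) → 0 < g → IsPrimitiveRoot ζ g →
      (v (p : ℂ) < v w → ∃ (ζ' ε : ℂ) (a d : ℕ) (σ : ℤ), 0 < a ∧ 0 < d ∧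
      Nat.Coprime a d ∧ v w ^ a = v (p : ℂ) ^ (m * d) ∧ (σ = 1 ∨ σ = -1) ∧
      (A * y) ^ d * w ^ a = ζ' * p ^ (m * d) * ((ν * y) ^ σ) ^ a * (1 + ε) ∧
      (∃ j, 0 < j ∧ ζ' ^ j = 1) ∧ v ε * v w ≤ v (p : ℂ)) → g ≤ G₀ := by
  classical
  have hp0 : 0 < v (p : ℂ) := v.pos (by exact_mod_cast hp.ne_zero)
  obtain ⟨⟨m₀, a1, a2⟩, m₁, a3, a4⟩ := hH₁
  obtain ⟨m₂, b1, b2⟩ := id hF
  obtain ⟨N₀, hN₀, hstep0⟩ := exc_step0A hv hp hvp hμ hFk hFl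
  obtain ⟨r, T, ρ, L, hρ, hL, hTalg, hstep1⟩ := exc_step1A hv hp hvp hμ hN₀ hH₁D hFD a1 a2 a3 a4 b1 b2
  have hL0 : 0 < L := hp0.trans hL
  have hρe : v (p : ℂ) / L < 1 := (div_lt_one hL0).2 hL
  -- the bound for one pair of constants
  obtain ⟨t₁, ht₁⟩ := unif_bound T (P := fun τ t => ∃ (m : ℕ) (ν A w y s η ξ ζ' ε : ℂ) (a d k : ℕ) (σ : ℤ),
      v ν = 1 ∧ v (ν ^ p - ν) ≤ v (p : ℂ) ∧ v A = 1 ∧ v (A ^ p - A) ≤ v (p : ℂ) ∧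
      w ≠ 0 ∧ v w < 1 ∧ v y = 1 ∧ ev H₂ y s = 0 ∧ ev F w y = 0 ∧
      v (s - μ * (η * ξ)) ≤ v (p : ℂ) ∧ η ^ N₀ = 1 ∧ IsPrimitiveRoot ξ (p ^ (t + 1)) ∧ 0 < a ∧ 0 < d ∧
      Nat.Coprime a d ∧ v w ^ a = v (p : ℂ) ^ (m * d) ∧ (σ = 1 ∨ σ = -1) ∧
      (A * y) ^ d * w ^ a = ζ' * p ^ (m * d) * ((ν * y) ^ σ) ^ a * (1 + ε) ∧
      (∃ j, 0 < j ∧ ζ' ^ j = 1) ∧ v ε ≤ v (p : ℂ) / L ∧ v (w ^ p ^ k / τ.1 - 1) ≤ ρ ∧
      v (y ^ p ^ k / τ.2 - 1) ≤ ρ) (by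
    intro τ hτ
    obtain ⟨c1, c2⟩ := hTalg τ hτ
    obtain ⟨ρ', hρ', hstep2⟩ := exc_step2U hv hp hvp c1 c2 hρ hρe
    obtain ⟨t₀, ht₀⟩ := exc_step3A hv hp hp4 hvp hμ hN₀ hpD hH₂ hH₂D hF (isAlgebraic_one (R := ℚ) (A := ℂ))
      (map_one v) hρ'
    refine ⟨t₀, ?_⟩
    rintro t ⟨m, ν, A, w, y, s, η, ξ, ζ', ε, a, d, k, σ, f1, f2, f3, f4, d0, d1, d2, d3, d4, d5, d6, d7, d8, d9,
      d10, d11, d12, d13, d14, d15, d16, d17⟩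
    obtain ⟨ζ₆, j, e1, e2, e3⟩ := hstep2 m ν A f1 f2 f3 f4 w y ζ' ε a d k σ d1 d0 d2 d8 d9 d10 d11 d12 d13 d14
      d15 d16 d17
    exact ht₀ w y s ζ₆ η ξ t j d1 d2 d4 d3 d5 d6 d7 e1 e2 (by rw [mul_one]; exact e3))
  refine ⟨N₀ * p ^ (max r t₁ + 1), ?_⟩
  intro m ν A f1 f2 f3 f4 w y x x' ζ g hw hy hx hx' h1 h2 h3 h4 h5 hs hg hζ hcond
  obtain ⟨η, ξ, k, hηξ, hη, hξ, hgle⟩ := hstep0 w x x' ζ g hw hx hx' h4 h5 hs hg hζ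
  refine hgle.trans (Nat.mul_le_mul_left N₀ (Nat.pow_le_pow_right hp.pos ?_))
  by_contra hcon
  push Not at hcon
  obtain ⟨t, rfl⟩ : ∃ t, k = t + 1 := ⟨k - 1, by omega⟩
  have hrt : r ≤ t := by have := le_max_left r t₁; omega
  have ht1 : t₁ ≤ t := by have := le_max_right r t₁; omega
  rw [hηξ] at hs
  obtain ⟨hpw, τ, hτ, k1, k2⟩ := hstep1 w y (x / x') η ξ t hw hy h1 h3 hs hη hξ hrt
  obtain ⟨ζ', ε, a, d, σ, ha, hd, hcop, hwa, hσ, hrel, hζ', hε⟩ := hcond (hL.trans_le hpw)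
  have hw0 : w ≠ 0 := by
    rintro rfl
    rw [map_zero] at hpw
    linarith
  have hε' : v ε ≤ v (p : ℂ) / L := by
    rw [le_div_iff₀ hL0]
    exact (mul_le_mul_of_nonneg_left hpw (v.nonneg _)).trans hε
  have := ht₁ τ hτ t ⟨m, ν, A, w, y, x / x', η, ξ, ζ', ε, a, d, t - r, σ, f1, f2, f3, f4, hw0, hw, hy, h2, h3,
    hs, hη, hξ, ha, hd, hcop, hwa, hσ, hrel, hζ', hε', k1, k2⟩
  omega

/-- **the exceptional coordinate, uniformly** in `m`, `μ`, `ν`, `A` -/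
theorem exc_boundedU (hv : IsNonarchimedean v) {p : ℕ} (hp : p.Prime) (hp4 : 4 ≤ p) (hvp : v (p : ℂ) < 1)
    {D : ℕ} (hpD : 64 * D ^ 2 ≤ p) {H₁ H₂ F Fk Fl : MvPolynomial (Fin 2) ℤ}
    (hH₁D : ∀ m ∈ H₁.support, m 0 ≤ D ∧ m 1 ≤ D) (hH₁ : RowUnit v H₁)
    (hH₂D : ∀ m ∈ H₂.support, m 0 ≤ D ∧ m 1 ≤ D) (hH₂ : NoCoset v H₂)
    (hFD : ∀ m ∈ F.support, m 1 ≤ D) (hF : BotUnit v F) (hFk : BotUnit v Fk) (hFl : BotUnit v Fl) :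
    ∃ G₀ : ℕ, ∀ (m : ℕ) (μ ν A : ℂ), v μ = 1 → (∃ q : ℕ, q < p ∧ v (μ - q) ≤ v (p : ℂ)) →
      v ν = 1 → v (ν ^ p - ν) ≤ v (p : ℂ) → v A = 1 →
      v (A ^ p - A) ≤ v (p : ℂ) → ∀ (w y x x' ζ : ℂ) (g : ℕ), v w < 1 → v y = 1 → v x = 1 →
      v x' = 1 → ev H₁ w (x / x') = 0 → ev H₂ y (x / x') = 0 → ev F w y = 0 → ev Fk w x = 0 →
      ev Fl w x' = 0 → v (x / x' - μ * ζ) ≤ v (p : ℂ) → 0 < g → IsPrimitiveRoot ζ g →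
      (v (p : ℂ) < v w → ∃ (ζ' ε : ℂ) (a d : ℕ) (σ : ℤ), 0 < a ∧ 0 < d ∧
      Nat.Coprime a d ∧ v w ^ a = v (p : ℂ) ^ (m * d) ∧ (σ = 1 ∨ σ = -1) ∧
      (A * y) ^ d * w ^ a = ζ' * p ^ (m * d) * ((ν * y) ^ σ) ^ a * (1 + ε) ∧
      (∃ j, 0 < j ∧ ζ' ^ j = 1) ∧ v ε * v w ≤ v (p : ℂ)) → g ≤ G₀ := by
  classical
  have h1 : ∀ q : ℕ, ∃ G₀ : ℕ, v ((q : ℕ) : ℂ) = 1 → ∀ (m : ℕ) (ν A : ℂ), v ν = 1 →
      v (ν ^ p - ν) ≤ v (p : ℂ) → v A = 1 →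
      v (A ^ p - A) ≤ v (p : ℂ) → ∀ (w y x x' ζ : ℂ) (g : ℕ), v w < 1 → v y = 1 → v x = 1 →
      v x' = 1 → ev H₁ w (x / x') = 0 → ev H₂ y (x / x') = 0 → ev F w y = 0 → ev Fk w x = 0 →
      ev Fl w x' = 0 → v (x / x' - q * ζ) ≤ v (p : ℂ) → 0 < g → IsPrimitiveRoot ζ g →
      (v (p : ℂ) < v w → ∃ (ζ' ε : ℂ) (a d : ℕ) (σ : ℤ), 0 < a ∧ 0 < d ∧
      Nat.Coprime a d ∧ v w ^ a = v (p : ℂ) ^ (m * d) ∧ (σ = 1 ∨ σ = -1) ∧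
      (A * y) ^ d * w ^ a = ζ' * p ^ (m * d) * ((ν * y) ^ σ) ^ a * (1 + ε) ∧
      (∃ j, 0 < j ∧ ζ' ^ j = 1) ∧ v ε * v w ≤ v (p : ℂ)) → g ≤ G₀ := by
    intro q
    by_cases hq : v ((q : ℕ) : ℂ) = 1
    · have hT : Tame v p ((q : ℕ) : ℂ) := by
        have := tame_rat hv hp hvp (μ := (q : ℚ)) (by push_cast; exact hq)
        push_cast at this
        exact this
      obtain ⟨G, hG⟩ := exc_boundedU' hv hp hp4 hvp hpD hT hH₁D hH₁ hH₂D hH₂ hFD hF hFk hFl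
      exact ⟨G, fun _ => hG⟩
    · exact ⟨0, fun h => absurd h hq⟩
  choose G hG using h1
  refine ⟨(Finset.range p).sup G, ?_⟩
  intro m μ ν A hμ ⟨q, hqp, hq⟩ hν hν' hA hA' w y x x' ζ g hw hy hx hx' k1 k2 k3 k4 k5 hs hg hζ hcond
  have vζ : v ζ = 1 := val_root hg hζ.pow_eq_one
  have vq : v ((q : ℕ) : ℂ) = 1 := by
    rw [← hμ]
    refine v_eq_of_sub_lt hv ?_
    rw [hμ, v_sub_comm]
    exact hq.trans_lt hvp
  have hs' : v (x / x' - q * ζ) ≤ v (p : ℂ) := by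
    have e1 : x / x' - q * ζ = (x / x' - μ * ζ) + (μ - q) * ζ := by ring
    rw [e1]
    refine (hv _ _).trans (max_le hs ?_)
    rw [map_mul, vζ, mul_one]
    exact hq
  exact (hG q vq m ν A hν hν' hA hA' w y x x' ζ g hw hy hx hx' k1 k2 k3 k4 k5 hs' hg hζ hcond).trans
    (Finset.le_sup (Finset.mem_range.2 hqp))

end Pool.Agent.Helper20.DL
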