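import Pool.Agent.Helper20.DL.LocalC
import Pool.Agent.Helper22.DL.UnifAB
import Pool.Agent.Helper69.DL.RelU

/-! # Cases A, B and C at one prime, from the relations at this prime -/

open Finset

namespace Pool.Agent.Helper20.DL
open Pool.Agent.Helper11.ZP Pool.Agent.Helper11.ZU Pool.Agent.Helper20.ZD Pool.Agent.Helper11.LC
  Pool.Agent.Helper69.DL Pool.Agent.Helper36.DL Pool.Agent.Helper22.DL

variable {n : ℕ} {v : AbsoluteValue ℂ ℝ}

/-- the relations between monomials with exponents `-1`, `0`, `1` -/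
def LocalHolds (v : AbsoluteValue ℂ ℝ) (p : ℕ) (V : Set (Fin n → ℂ)) : Prop :=
  ∀ a b : Fin n → ℤ, (∀ s t : ℤ, (∀ i, s * a i + t * b i = 0) → s = 0 ∧ t = 0) →
    (∀ i, |a i| ≤ 1 ∧ |b i| ≤ 1) → ∃ H : MvPolynomial (Fin 2) ℤ, GoodRel v p H ∧ Holds H V a b

lemma LocalHolds.rel {p : ℕ} {V : Set (Fin n → ℂ)} (h : LocalHolds v p V) : LocalRel v p V :=
  fun a b hab hle => by
    obtain ⟨H, h1, h2⟩ := h a b hab hle
    exact ⟨H, h1, Holds.mod h2 p⟩

lemma abs_negv_le (t i : Fin n) : |negv t i| ≤ 1 := by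
  unfold negv
  split_ifs <;> simp

/-- a coordinate is close to one of finitely many units if another coordinate is small -/
lemma near_of_bot (hv : IsNonarchimedean v) {δ : ℝ} (hδ0 : 0 ≤ δ) (hδ : δ < 1) {F : MvPolynomial (Fin 2) ℤ}
    (hF : BotUnit v F) : ∃ (Y : Finset ℂ) (ρ : ℝ), 0 ≤ ρ ∧ ρ < 1 ∧ (∀ c ∈ Y, v c = 1) ∧
      ∀ w y : ℂ, v w ≤ δ → v y = 1 → v (ev F w y) ≤ δ → ∃ c ∈ Y, v (y - c) ≤ ρ := by
  classical
  obtain ⟨ρ, hρ0, hρ1, hρ⟩ := Pool.Agent.Helper11.LC.exists_rho hδ0 hδ (inY F 0).natDegree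
  obtain ⟨m₀, h0, h1⟩ := hF
  refine ⟨(inY F 0).roots.toFinset.filter fun c => v c = 1, ρ, hρ0, hρ1,
    fun c hc => (mem_filter.1 hc).2, fun w y hw hy h => ?_⟩
  have h3 := ev_sub_le hv F (x := 0) (x' := w) (y := y) (y' := y) (by rw [map_zero]; exact zero_le_one)
    (hw.trans hδ.le) hy.le hy.le
  rw [sub_self, map_zero, max_eq_left (v.nonneg _), zero_sub, v_neg] at h3
  have h4 : v (ev F 0 y) ≤ δ := by
    have h5 : ev F 0 y = (ev F 0 y - ev F w y) + ev F w y := by ring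
    rw [h5]
    exact (hv _ _).trans (max_le (h3.trans hw) h)
  obtain ⟨r, hr, hpow, hlt⟩ := root_gauss hv (P := inY F 0) (x := y) (δ := δ) le_rfl
    (inY_unit hv h0 h1 (by rw [map_zero]; exact one_pos)) hy.le (by rw [inY_eval]; exact h4) hδ
  refine ⟨r, mem_filter.2 ⟨Multiset.mem_toFinset.2 hr, ?_⟩, hρ _ (v.nonneg _) hpow⟩
  have e1 : r = y + -(y - r) := by ring
  rw [e1, v_add_eq hv (by rw [v_neg, hy]; exact hlt), hy]

/-- **case A** at one prime -/
theorem localA (hv : IsNonarchimedean v) {p : ℕ} (hp : p.Prime) (hvp : v (p : ℂ) < 1) {V : Set (Fin n → ℂ)}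
    (hloc : LocalRel v p V) : UnifA v p V := by
  classical
  have hvp0 : 0 < v (p : ℂ) := (AbsoluteValue.pos_iff v).2 (by exact_mod_cast hp.ne_zero)
  -- one pair
  have h1 : ∀ i k : Fin n, ∃ (Y : Finset ℂ) (ρ : ℝ), 0 ≤ ρ ∧ ρ < 1 ∧ (∀ c ∈ Y, v c = 1) ∧ (i ≠ k →
      ∀ z ∈ V, v (z i) ≤ v (p : ℂ) → v (z k) = 1 → ∃ c ∈ Y, v (z k - c) ≤ ρ) := by
    intro i k
    by_cases hik : i = k
    · exact ⟨∅, 0, le_rfl, one_pos, by simp, fun h => absurd hik h⟩
    · obtain ⟨F, hF, hFV⟩ := hloc (Pi.single i 1) (Pi.single k 1) (single_indep hik one_ne_zero)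
        fun q => ⟨abs_single (Or.inl rfl) q, abs_single (Or.inl rfl) q⟩
      obtain ⟨Y, ρ, a1, b1, c1, d1⟩ := near_of_bot hv hvp0.le hvp (botUnit_of hv hp hvp hF)
      refine ⟨Y, ρ, a1, b1, c1, fun _ z hz hzi hzk => d1 (z i) (z k) hzi hzk ?_⟩
      have hs : ∀ (r q : Fin n), 0 ≤ (Pi.single r 1 : Fin n → ℤ) q := fun r q => by
        by_cases h : q = r
        · subst h
          rw [Pi.single_eq_same]
          exact zero_le_one
        · rw [Pi.single_eq_of_ne h]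
      have h2 := hFV z hz (fun q _ => ⟨hs i q, hs k q⟩) (fun q _ => ⟨hs i q, hs k q⟩) (fun q hq => by
        have e1 : q ≠ i := by
          rintro rfl
          exact absurd (hzi.trans hvp.le) (not_le.2 hq)
        have e2 : q ≠ k := by
          rintro rfl
          exact absurd hzk.le (not_le.2 hq)
        rw [Pi.single_eq_of_ne e1, Pi.single_eq_of_ne e2]
        exact ⟨le_rfl, le_rfl⟩)
      rwa [prod_single, prod_single, zpow_one, zpow_one] at h2
  choose Y ρ hρ0 hρ1 hY hd using h1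
  rcases isEmpty_or_nonempty (Fin n) with hn | hn
  · exact ⟨0, fun m lam a _ z _ i => isEmptyElim i⟩
  obtain ⟨r, -, hr⟩ := exists_max_image (univ : Finset (Fin n × Fin n)) (fun r => ρ r.1 r.2)
    ⟨(Classical.arbitrary _, Classical.arbitrary _), mem_univ _⟩
  set ρ' := max (ρ r.1 r.2) (v (p : ℂ)) with hρ'
  have hρ'1 : ρ' < 1 := max_lt (hρ1 r.1 r.2) hvp
  choose G hG using fun u : ℂ => root_bound v hv hρ'1 u
  set C : Finset ℂ := (univ : Finset (Fin n × Fin n)).biUnion fun q => Y q.1 q.2 with hC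
  set W : Finset ℂ := ((range p) ×ˢ (C ×ˢ C)).image fun q => (q.1 : ℂ) * q.2.1 / q.2.2 with hW
  refine ⟨(W.sup G) ^ 2, fun m lam a h z hz i k l N hi hk hl hik hil _ hN => ?_⟩
  have hc0 : 0 < v (p : ℂ) ^ m := pow_pos hvp0 m
  have hcq := at_pow_le hvp0 h hvp
  have hl0 := at_lam_ne hvp0 h
  have hzi : v (z i) ≤ v (p : ℂ) := by
    have h2 : lam i * z i = (lam i * z i + a i) - a i := by ring
    have h3 : v (lam i * z i) ≤ v (p : ℂ) * (v (p : ℂ) ^ m)⁻¹ := by
      rw [h2]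
      refine (v_sub_le hv _ _).trans (max_le (hi.trans ?_) ?_)
      · rw [← div_eq_mul_inv, le_div_iff₀ hc0, one_mul]
        exact hcq
      · rw [← div_eq_mul_inv, le_div_iff₀ hc0]
        exact at_v_a hvp0 h i
    rw [map_mul, at_v_lam hvp0 h, mul_comm (v (p : ℂ))] at h3
    exact le_of_mul_le_mul_left h3 (inv_pos.2 hc0)
  obtain ⟨c, hc, h4⟩ := hd i k hik z hz hzi hk
  obtain ⟨c', hc', h5⟩ := hd i l hil z hz hzi hl
  have hvc := hY _ _ c hc
  have hvc' := hY _ _ c' hc'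
  have hcC : c ∈ C := mem_biUnion.2 ⟨(i, k), mem_univ _, hc⟩
  have hcC' : c' ∈ C := mem_biUnion.2 ⟨(i, l), mem_univ _, hc'⟩
  obtain ⟨hμZ, hμ1⟩ := at_mu hvp0 h hv hp hvp l k
  obtain ⟨q, hq, hqμ⟩ := zp_mod hv hp hμZ
  have hN0 : 0 < N := Nat.pos_of_ne_zero fun h0 => not_isog_zero (h0 ▸ hN)
  have hxk := at_v_x hvp0 h hv hvp hk
  have hxl := at_v_x hvp0 h hv hvp hl
  obtain ⟨g, ζ, hg, hNg, hζ, hd'⟩ := pair_square hv (x := lam k * z k + a k) (y := lam l * z l + a l)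
    (by rw [hxk]; exact (one_lt_inv₀ hc0).2 (hcq.trans_lt hvp)) (by rw [hxk, hxl]) hN0 hN
  rw [hxk, inv_inv] at hd'
  have hz0 : ∀ {x : ℂ}, v x = 1 → x ≠ 0 := fun {x} hx h0 => by
    rw [h0, map_zero] at hx
    exact zero_ne_one hx
  have hpC : (p : ℂ) ≠ 0 := (AbsoluteValue.pos_iff v).1 hvp0
  -- the ratio
  have h6 : v ((lam k * z k + a k) / (lam l * z l + a l) - (q : ℂ) * c / c') ≤ ρ' := by
    have hx0 : lam l * z l + a l ≠ 0 := by
      rw [← AbsoluteValue.ne_zero_iff v, hxl]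
      exact inv_ne_zero hc0.ne'
    have hc'0 := hz0 hvc'
    have e1 : (lam k * z k + a k) / (lam l * z l + a l) - (q : ℂ) * c / c' =
        ((lam k / lam l - q) * (z k * c') + q * (c' * (z k - c) - c * (z l - c')) +
          (a k / lam l * c' - q * c * (a l / lam l))) /
            ((lam l * z l + a l) / lam l * c') := by
      have := hl0 l
      field_simp
      ring
    have e2 : v ((lam l * z l + a l) / lam l * c') = 1 := by
      rw [map_mul, map_div₀, hxl, at_v_lam hvp0 h, div_self (inv_ne_zero hc0.ne'), hvc', one_mul]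
    have hq1 : v (q : ℂ) ≤ 1 := v_ofNat_le hv q
    have hal : ∀ s t, v (a s / lam t) ≤ v (p : ℂ) := fun s t => by
      rw [map_div₀, at_v_lam hvp0 h, div_inv_eq_mul]
      exact at_v_a hvp0 h s
    have h4' := (h4.trans (hr (i, k) (mem_univ _))).trans (le_max_left _ (v (p : ℂ)))
    have h5' := (h5.trans (hr (i, l) (mem_univ _))).trans (le_max_left _ (v (p : ℂ)))
    rw [e1, map_div₀, e2, div_one]
    refine (hv _ _).trans (max_le ((hv _ _).trans (max_le ?_ ?_)) ((v_sub_le hv _ _).trans (max_le ?_ ?_)))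
    · rw [map_mul, map_mul, hk, hvc', mul_one, mul_one]
      exact hqμ.trans (le_max_right _ _)
    · rw [map_mul]
      refine (mul_le_of_le_one_left (AbsoluteValue.nonneg v _) hq1).trans
        ((v_sub_le hv _ _).trans (max_le ?_ ?_))
      · rw [map_mul, hvc', one_mul]
        exact h4'
      · rw [map_mul, hvc, one_mul]
        exact h5'
    · rw [map_mul, hvc', mul_one]
      exact (hal k l).trans (le_max_right _ _)
    · rw [map_mul, map_mul, hvc, mul_one]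
      exact (mul_le_of_le_one_left (AbsoluteValue.nonneg v _) hq1).trans ((hal l l).trans (le_max_right _ _))
  have h7 : v (ζ - (q : ℂ) * c / c') ≤ ρ' := by
    rw [show ζ - (q : ℂ) * c / c' = (ζ - (lam k * z k + a k) / (lam l * z l + a l)) +
      ((lam k * z k + a k) / (lam l * z l + a l) - (q : ℂ) * c / c') by ring]
    exact (hv _ _).trans (max_le (hd'.trans (hcq.trans (le_max_right _ _))) h6)
  have h8 : (q : ℂ) * c / c' ∈ W := mem_image.2 ⟨(q, c, c'), mem_product.2 ⟨hq, mem_product.2 ⟨hcC, hcC'⟩⟩, rfl⟩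
  rw [hNg]
  exact Nat.pow_le_pow_left ((hG _ ζ g hg hζ h7).trans (le_sup (f := G) h8)) 2

/-- **case B** at one prime -/
theorem localB (hv : IsNonarchimedean v) {p : ℕ} (hp : p.Prime) (hvp : v (p : ℂ) < 1) {V : Set (Fin n → ℂ)}
    (hloc : LocalHolds v p V) : UnifB v p V := by
  classical
  have h2 : ∀ q : Fin n × Fin n × Fin n × Fin n, ∃ B : ℕ, q.1 ≠ q.2.1 → q.2.2.1 ≠ q.2.2.2 →
      q.2.2.2 ≠ q.1 → q.2.2.2 ≠ q.2.1 →
      ∀ (m : ℕ) (lam a : Fin n → ℂ), AffAt v p m lam a → ∀ z ∈ V, ∀ (N N' : ℕ), v (z q.1) = 1 →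
        v (z q.2.1) = 1 → v (z q.2.2.1) = 1 → v (z q.2.2.2) = 1 →
          CyclicIsog N (lam q.1 * z q.1 + a q.1) (lam q.2.1 * z q.2.1 + a q.2.1) →
            CyclicIsog N' (lam q.2.2.1 * z q.2.2.1 + a q.2.2.1) (lam q.2.2.2 * z q.2.2.2 + a q.2.2.2) →
              N' ≤ B := by
    rintro ⟨i, j, k, l⟩
    by_cases h : i ≠ j ∧ k ≠ l ∧ l ≠ i ∧ l ≠ j
    · obtain ⟨H, h3, h4⟩ := hloc (diff i j) (diff k l) (diff_indep h.1 h.2.1 h.2.2.1 h.2.2.2)
        fun q => ⟨abs_diff_le i j q, abs_diff_le k l q⟩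
      obtain ⟨Ga, a3, a4⟩ := hloc (negv j) (diff i j) (negv_indep_right h.1)
        fun q => ⟨abs_negv_le j q, abs_diff_le i j q⟩
      obtain ⟨Gb, b3, b4⟩ := hloc (negv i) (diff i j) (negv_indep_left h.1)
        fun q => ⟨abs_negv_le i q, abs_diff_le i j q⟩
      obtain ⟨Gc, c3, c4⟩ := hloc (negv l) (diff k l) (negv_indep_right h.2.1)
        fun q => ⟨abs_negv_le l q, abs_diff_le k l q⟩
      obtain ⟨Gd, d3, d4⟩ := hloc (negv k) (diff k l) (negv_indep_left h.2.1)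
        fun q => ⟨abs_negv_le k q, abs_diff_le k l q⟩
      obtain ⟨B, hB⟩ := unifB_one torsionRelU hv hp hvp h4 h3 (G := ![Ga, Gb, Gc, Gd]) (by
            intro r
            fin_cases r
            · exact a3
            · exact b3
            · exact c3
            · exact d3) a4 b4 c4 d4
      exact ⟨B, fun _ _ _ _ => hB⟩
    · exact ⟨0, fun a b c d => absurd ⟨a, b, c, d⟩ h⟩
  choose B hB using h2
  refine ⟨univ.sup B, fun m lam a h z hz i j k l N N' hi hj hk hl' hij hkl hli hlj hN hN' => ?_⟩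
  exact (hB (i, j, k, l) hij hkl hli hlj m lam a h z hz N N' hi hj hk hl' hN hN').trans
    (Finset.le_sup (mem_univ (i, j, k, l)))

/-- **the three cases** at one prime, uniformly in the affine maps -/
theorem localABC (hv : IsNonarchimedean v) {p : ℕ} (hp : p.Prime) (hvp : v (p : ℂ) < 1) {V : Set (Fin n → ℂ)}
    (hloc : LocalHolds v p V) (hone : ∀ z ∈ V, ∀ i j, v (z i) ≠ 1 → v (z j) ≠ 1 → i = j) :
    UnifA v p V ∧ UnifB v p V ∧ UnifC v p V :=
  ⟨localA hv hp hvp hloc.rel, localB hv hp hvp hloc, localC hv hp hvp hloc.rel hone⟩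

end Pool.Agent.Helper20.DL
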