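import Pool.Agent.Helper20.DL.NbhC

/-! # Case C at one prime, from the relations at this prime -/

open Finset

namespace Pool.Agent.Helper20.DL
open Pool.Agent.Helper11.ZP Pool.Agent.Helper11.ZU Pool.Agent.Helper20.ZD Pool.Agent.Helper11.LC
  Pool.Agent.Helper69.DL Pool.Agent.Helper36.DL Pool.Agent.Helper22.DL

variable {n : ℕ} {v : AbsoluteValue ℂ ℝ}

/-- the relations between monomials with exponents `-1`, `0`, `1`, modulo `p` -/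
def LocalRel (v : AbsoluteValue ℂ ℝ) (p : ℕ) (V : Set (Fin n → ℂ)) : Prop :=
  ∀ a b : Fin n → ℤ, (∀ s t : ℤ, (∀ i, s * a i + t * b i = 0) → s = 0 ∧ t = 0) →
    (∀ i, |a i| ≤ 1 ∧ |b i| ≤ 1) → ∃ H : MvPolynomial (Fin 2) ℤ, GoodRel v p H ∧ HoldsMod v p H V a b

lemma abs_single {e : Fin n} {s : ℤ} (hs : s = 1 ∨ s = -1) (i : Fin n) : |(Pi.single e s : Fin n → ℤ) i| ≤ 1 := by
  by_cases h : i = e
  · subst h
    rw [Pi.single_eq_same]
    rcases hs with rfl | rfl <;> simp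
  · rw [Pi.single_eq_of_ne h]
    simp

lemma abs_diff_le (k l i : Fin n) : |diff k l i| ≤ 1 := by
  unfold diff
  split_ifs <;> simp

/-- `H = 0` on `V` -/
lemma Holds.mod {H : MvPolynomial (Fin 2) ℤ} {V : Set (Fin n → ℂ)} {a b : Fin n → ℤ} (h : Holds H V a b)
    (p : ℕ) : HoldsMod v p H V a b := fun z hz h0 _ _ => by
  rw [h z hz h0, map_zero]
  exact v.nonneg _

/-- **case C** at one prime -/
theorem localC (hv : IsNonarchimedean v) {p : ℕ} (hp : p.Prime) (hvp : v (p : ℂ) < 1) {V : Set (Fin n → ℂ)}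
    (hloc : LocalRel v p V) (hone : ∀ z ∈ V, ∀ i j, v (z i) ≠ 1 → v (z j) ≠ 1 → i = j) : UnifC v p V := by
  classical
  let ι := (Fin n × Fin n × Fin n × Fin n) × Bool
  let sg : Bool → ℤ := fun b => if b then 1 else -1
  have hsg : ∀ b, sg b = 1 ∨ sg b = -1 := fun b => by cases b <;> simp [sg]
  have hsg0 : ∀ b, sg b ≠ 0 := fun b => by cases b <;> simp [sg]
  have hp0 : 0 < v (p : ℂ) := AbsoluteValue.pos_iff v |>.2 (by exact_mod_cast hp.ne_zero)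
  have hpne : (p : ℂ) ≠ 0 := by exact_mod_cast hp.ne_zero
  have h2 : ∀ q : ι, ∃ B : ℕ, q.1.1 ≠ q.1.2.1 → q.1.1 ≠ q.1.2.2.1 → q.1.1 ≠ q.1.2.2.2 →
      q.1.2.2.1 ≠ q.1.2.2.2 → q.1.2.2.2 ≠ q.1.2.1 →
      ∀ (m : ℕ) (lam a : Fin n → ℂ), AffAt v p m lam a → ∀ z ∈ V, ∀ (N' : ℕ),
      (z q.1.1 = 0 → sg q.2 = 1) → (∀ i, i ≠ q.1.1 → v (z i) = 1) →
      v (z q.1.2.1) = 1 → v (z q.1.2.2.1) = 1 → v (z q.1.2.2.2) = 1 →
      CyclicIsog N' (lam q.1.2.2.1 * z q.1.2.2.1 + a q.1.2.2.1)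
        (lam q.1.2.2.2 * z q.1.2.2.2 + a q.1.2.2.2) →
      v (z q.1.1 ^ sg q.2) < 1 →
      (v (p : ℂ) < v (z q.1.1 ^ sg q.2) → ∃ (ζ' ε : ℂ) (a d : ℕ), 0 < a ∧ 0 < d ∧ Nat.Coprime a d ∧
      v (z q.1.1 ^ sg q.2) ^ a = (v (p : ℂ) ^ m) ^ d ∧
      ((p : ℂ) ^ m * lam q.1.2.1 * z q.1.2.1) ^ d * (z q.1.1 ^ sg q.2) ^ a =
        ζ' * ((p : ℂ) ^ m) ^ d * ((lam q.1.2.1 / lam q.1.1 * z q.1.2.1) ^ sg q.2) ^ a * (1 + ε) ∧
      (∃ j, 0 < j ∧ ζ' ^ j = 1) ∧ v ε * v (z q.1.1 ^ sg q.2) ≤ v (p : ℂ)) → N' ≤ B := by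
    rintro ⟨⟨e, j, k, l⟩, b⟩
    by_cases h : e ≠ j ∧ e ≠ k ∧ e ≠ l ∧ k ≠ l ∧ l ≠ j
    · obtain ⟨hej, hek, hel, hkl, hlj⟩ := h
      obtain ⟨H₁, a1, a2⟩ := hloc (Pi.single e (sg b)) (diff k l) (single_diff_indep hel hkl (hsg0 b))
        fun i => ⟨abs_single (hsg b) i, abs_diff_le k l i⟩
      obtain ⟨H₂, b1, b2⟩ := hloc (Pi.single j 1) (diff k l) (single_diff_indep hlj.symm hkl one_ne_zero)
        fun i => ⟨abs_single (Or.inl rfl) i, abs_diff_le k l i⟩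
      obtain ⟨F, c1, c2⟩ := hloc (Pi.single e (sg b)) (Pi.single j 1) (single_indep hej (hsg0 b))
        fun i => ⟨abs_single (hsg b) i, abs_single (Or.inl rfl) i⟩
      obtain ⟨Fk, d1, d2⟩ := hloc (Pi.single e (sg b)) (Pi.single k 1) (single_indep hek (hsg0 b))
        fun i => ⟨abs_single (hsg b) i, abs_single (Or.inl rfl) i⟩
      obtain ⟨Fl, e1, e2⟩ := hloc (Pi.single e (sg b)) (Pi.single l 1) (single_indep hel (hsg0 b))
        fun i => ⟨abs_single (hsg b) i, abs_single (Or.inl rfl) i⟩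
      obtain ⟨B, hB⟩ := caseCM_one hv hp hvp hej.symm hek hel (hsg b) a1 b1 c1 d1 e1
      exact ⟨B, fun _ _ _ _ _ => hB V a2 b2 c2 d2 e2⟩
    · exact ⟨0, fun a b c d e => absurd ⟨a, b, c, d, e⟩ h⟩
  choose B hB using h2
  refine ⟨univ.sup B, fun m lam a haff z hz e j k l N N' he hj hk hl' hbe hej hek hel hkl hlj hN hN' => ?_⟩
  have hc0 : 0 < v (p : ℂ) ^ m := pow_pos hp0 m
  have hcp : v (p : ℂ) ^ m ≤ v (p : ℂ) := by
    calc v (p : ℂ) ^ m ≤ v (p : ℂ) ^ 1 := pow_le_pow_of_le_one hp0.le hvp.le haff.one_le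
      _ = _ := pow_one _
  have hl : ∀ i, v (lam i) * v (p : ℂ) ^ m = 1 := fun i => by
    have := haff.lam_one i
    rwa [map_mul, map_pow, mul_comm] at this
  have ha : ∀ i, v (a i / lam i) ≤ v (p : ℂ) := fun i => by
    have e1 : a i / lam i = ((p : ℂ) ^ m * a i) / ((p : ℂ) ^ m * lam i) :=
      (mul_div_mul_left _ _ (pow_ne_zero m hpne)).symm
    rw [e1, map_div₀, haff.lam_one i, div_one]
    exact haff.a_le i
  have hNpos : 0 < N := Nat.pos_of_ne_zero fun h0 => not_isog_zero (h0 ▸ hN)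
  obtain ⟨s, hs, k1, k2, k3⟩ := pair_excA hv hc0 hcp hvp (P := (p : ℂ) ^ m)
    (by rw [map_pow]) (hl e) (hl j) (ha e) (ha j) he hj hbe hNpos hN
  obtain ⟨b, rfl⟩ : ∃ b, sg b = s := by
    rcases hs with rfl | rfl
    · exact ⟨true, rfl⟩
    · exact ⟨false, rfl⟩
  have hall : ∀ i, i ≠ e → v (z i) = 1 := fun i hi => by
    by_contra hcon
    exact hi (hone z hz i e hcon he)
  exact (hB ((e, j, k, l), b) hej hek hel hkl hlj m lam a haff z hz N' k2 hall hj hk hl' hN' k1 k3).trans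
    (Finset.le_sup (mem_univ ((e, j, k, l), b)))

end Pool.Agent.Helper20.DL
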