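import Pool.Agent.Helper20.DL.ExcU
import Pool.Agent.Helper20.DL.CaseCA
import Pool.Agent.Helper36.DL.ZpLem

/-! # Affine images: case C, uniformly -/

open Finset

namespace Pool.Agent.Helper20.DL
open Pool.Agent.Helper11.ZP Pool.Agent.Helper11.ZU Pool.Agent.Helper20.ZD Pool.Agent.Helper11.LC
  Pool.Agent.Helper69.DL Pool.Agent.Helper36.DL Pool.Agent.Helper22.DL

variable {n : ℕ} {v : AbsoluteValue ℂ ℝ}

lemma zp_frob (hv : IsNonarchimedean v) {p : ℕ} (hp : p.Prime) {x : ℂ}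
    (hx : Zp v p x) : v (x ^ p - x) ≤ v (p : ℂ) := by
  have := Fact.mk hp
  obtain ⟨q, hq⟩ := hx 1
  rw [pow_one] at hq
  obtain ⟨r, hr⟩ : (p : ℤ) ∣ q ^ p - q := by
    rw [← ZMod.intCast_zmod_eq_zero_iff_dvd]
    push_cast
    rw [ZMod.pow_card, sub_self]
  have h1 : (q : ℂ) ^ p - q = (p : ℂ) * (r : ℂ) := by exact_mod_cast congrArg (Int.cast : ℤ → ℂ) hr
  have h2 : x ^ p - x = (x ^ p - (q : ℂ) ^ p) + ((q : ℂ) ^ p - q) + (q - x) := by ring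
  rw [h2]
  refine (hv _ _).trans (max_le ((hv _ _).trans (max_le ?_ ?_)) ?_)
  · exact (v_pow_sub_pow_le hv (hx.le_one hv) (v_int_le hv q) p).trans hq
  · rw [h1, map_mul]
    exact mul_le_of_le_one_right (v.nonneg _) (v_int_le hv _)
  · rw [v_sub_comm]
    exact hq

/-- **case C** for one quadruple of indices and one sign, uniformly -/
lemma caseCU_one (hv : IsNonarchimedean v) {p : ℕ} (hp : p.Prime) (hvp : v (p : ℂ) < 1)
    {Z : Set (Fin n → ℂ)} {e j k l : Fin n} (hek : e ≠ k) (hel : e ≠ l) {s : ℤ}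
    (hs : s = 1 ∨ s = -1) {H₁ H₂ F Fk Fl : MvPolynomial (Fin 2) ℤ}
    (h1 : Holds H₁ Z (Pi.single e s) (diff k l)) (g1 : GoodRel v p H₁)
    (h2 : Holds H₂ Z (Pi.single j 1) (diff k l)) (g2 : GoodRel v p H₂)
    (h3 : Holds F Z (Pi.single e s) (Pi.single j 1)) (g3 : GoodRel v p F)
    (h4 : Holds Fk Z (Pi.single e s) (Pi.single k 1)) (g4 : GoodRel v p Fk)
    (h5 : Holds Fl Z (Pi.single e s) (Pi.single l 1)) (g5 : GoodRel v p Fl) :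
    ∃ B : ℕ, ∀ (m : ℕ) (lam a : Fin n → ℂ), AffAt v p m lam a → ∀ z ∈ Z, ∀ (N' : ℕ),
      (z e = 0 → s = 1) → v (z j) = 1 → v (z k) = 1 → v (z l) = 1 →
      CyclicIsog N' (lam k * z k + a k) (lam l * z l + a l) → v (z e ^ s) < 1 →
      (v (p : ℂ) < v (z e ^ s) → ∃ (ζ' ε : ℂ) (a d : ℕ), 0 < a ∧ 0 < d ∧ Nat.Coprime a d ∧
      v (z e ^ s) ^ a = (v (p : ℂ) ^ m) ^ d ∧
      ((p : ℂ) ^ m * lam j * z j) ^ d * (z e ^ s) ^ a =
        ζ' * ((p : ℂ) ^ m) ^ d * ((lam j / lam e * z j) ^ s) ^ a * (1 + ε) ∧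
      (∃ j, 0 < j ∧ ζ' ^ j = 1) ∧ v ε * v (z e ^ s) ≤ v (p : ℂ)) → N' ≤ B := by
  have hp0 : 0 < v (p : ℂ) := AbsoluteValue.pos_iff v |>.2 (by exact_mod_cast hp.ne_zero)
  have hpne : (p : ℂ) ≠ 0 := by exact_mod_cast hp.ne_zero
  set D := max H₁.totalDegree (max H₂.totalDegree F.totalDegree) with hD
  have hpD : 64 * D ^ 2 ≤ p := by
    have e1 := g1.large
    have e2 := g2.large
    have e3 := g3.large
    have key : ∀ t : ℕ, 64 * (t + 1) ^ 2 ≤ p → 64 * t ^ 2 ≤ p := fun t ht =>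
      le_trans (Nat.mul_le_mul_left 64 (Nat.pow_le_pow_left (Nat.le_succ t) 2)) ht
    rcases max_choice H₁.totalDegree (max H₂.totalDegree F.totalDegree) with h | h
    · rw [hD, h]; exact key _ e1
    · rcases max_choice H₂.totalDegree F.totalDegree with h' | h'
      · rw [hD, h, h']; exact key _ e2
      · rw [hD, h, h']; exact key _ e3
  have hp4 : 4 ≤ p := by
    have e1 := g1.large
    have e2 : 1 ≤ (H₁.totalDegree + 1) ^ 2 := Nat.one_le_pow _ _ (by omega)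
    omega
  have hdeg : ∀ {H : MvPolynomial (Fin 2) ℤ}, H.totalDegree ≤ D → ∀ m ∈ H.support, m 0 ≤ D ∧ m 1 ≤ D := by
    intro H hH m hm
    have := supp_le hH hm
    omega
  obtain ⟨G₀, hG⟩ := exc_boundedU hv hp hp4 hvp hpD
    (hdeg (le_max_left _ _)) (rowUnit_of hv hp hvp g1)
    (hdeg ((le_max_left _ _).trans (le_max_right _ _))) g2.noCoset
    (fun m hm => (hdeg ((le_max_right _ _).trans (le_max_right _ _)) m hm).2) (botUnit_of hv hp hvp g3)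
    (botUnit_of hv hp hvp g4) (botUnit_of hv hp hvp g5)
  refine ⟨G₀ ^ 2, ?_⟩
  intro m lam a haff z hz N' he hj hk hl' hN' hw hcond
  have hc0 : 0 < v (p : ℂ) ^ m := pow_pos hp0 m
  have hcp : v (p : ℂ) ^ m ≤ v (p : ℂ) := by
    calc v (p : ℂ) ^ m ≤ v (p : ℂ) ^ 1 := pow_le_pow_of_le_one hp0.le hvp.le haff.one_le
      _ = _ := pow_one _
  have hl : ∀ i, v (lam i) * v (p : ℂ) ^ m = 1 := fun i => by
    have := haff.lam_one i
    rwa [map_mul, map_pow, mul_comm] at this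
  have ha : ∀ i, v (a i / lam i) ≤ v (p : ℂ) := fun i => by
    have e1 : a i / lam i = ((p : ℂ) ^ m * a i) / ((p : ℂ) ^ m * lam i) :=
      (mul_div_mul_left _ _ (pow_ne_zero m hpne)).symm
    rw [e1, map_div₀, haff.lam_one i, div_one]
    exact haff.a_le i
  have hμ : ∀ i j, Zp v p (lam j / lam i) ∧ v (lam j / lam i) = 1 := fun i j => by
    have e1 : lam j / lam i = ((p : ℂ) ^ m * lam j) / ((p : ℂ) ^ m * lam i) :=
      (mul_div_mul_left _ _ (pow_ne_zero m hpne)).symm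
    rw [e1]
    exact ⟨(haff.lam_mem j).div hv hp hvp (haff.lam_mem i) (haff.lam_one i),
      by rw [map_div₀, haff.lam_one i, haff.lam_one j, div_one]⟩
  have hz0 : ∀ {q}, v (z q) = 1 → z q ≠ 0 := fun {q} hq h0 => by
    rw [h0, map_zero] at hq
    exact zero_ne_one hq
  obtain ⟨g, ζ, a1, a2, a3, a4⟩ := ratio_nearA hv hc0 hcp hvp (hl k) (hl l) (ha k) (ha l) hk hl' hN'
  have hs1 : ∀ q, z q = 0 → 0 ≤ (Pi.single e s : Fin n → ℤ) q := by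
    intro q hq
    by_cases hqe : q = e
    · subst hqe
      rw [he hq, Pi.single_eq_same]
      exact zero_le_one
    · rw [Pi.single_eq_of_ne hqe]
  have hs2 : ∀ {r}, v (z r) = 1 → ∀ q, z q = 0 → (Pi.single r 1 : Fin n → ℤ) q = 0 := by
    intro r hr q hq
    have hqr : q ≠ r := fun h => hz0 hr (by rw [← h]; exact hq)
    rw [Pi.single_eq_of_ne hqr]
  have hs3 : ∀ q, z q = 0 → diff k l q = 0 := by
    intro q hq
    have hne : ∀ {r}, v (z r) = 1 → q ≠ r := fun {r} hr h => hz0 hr (h ▸ hq)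
    unfold diff
    simp [hne hk, hne hl']
  have k1 := h1 z hz (fun q hq => ⟨hs1 q hq, (hs3 q hq).ge⟩)
  have k2 := h2 z hz (fun q hq => ⟨(hs2 hj q hq).ge, (hs3 q hq).ge⟩)
  have k3 := h3 z hz (fun q hq => ⟨hs1 q hq, (hs2 hj q hq).ge⟩)
  have k4 := h4 z hz (fun q hq => ⟨hs1 q hq, (hs2 hk q hq).ge⟩)
  have k5 := h5 z hz (fun q hq => ⟨hs1 q hq, (hs2 hl' q hq).ge⟩)
  rw [prod_single, prod_diff z (hz0 hk) (hz0 hl')] at k1 k2
  rw [prod_single, prod_single] at k3 k4 k5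
  rw [zpow_one] at k2 k3 k4 k5
  obtain ⟨q₀, hq₀, hq₀'⟩ := (hμ k l).1.exists_lt hv hp 1
  rw [pow_one] at hq₀ hq₀'
  have hfin := hG m (lam l / lam k) (lam j / lam e) ((p : ℂ) ^ m * lam j) (hμ k l).2 ⟨q₀, hq₀, hq₀'⟩ (hμ e j).2
    (zp_frob hv hp (hμ e j).1) (haff.lam_one j) (zp_frob hv hp (haff.lam_mem j))
    (z e ^ s) (z j) (z k) (z l) ζ g hw hj hk hl' k1 k2 k3 k4 k5 a4 a1 a3 (fun hlt => by
      obtain ⟨ζ', ε, a', d, b1, b2, b3, b4, b5, b6, b7⟩ := hcond hlt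
      exact ⟨ζ', ε, a', d, s, b1, b2, b3, by rw [b4, ← pow_mul], hs, by rw [b5, ← pow_mul], b6, b7⟩)
  rw [a2]
  exact Nat.pow_le_pow_left hfin 2

/-- **case C** for affine images, uniformly -/
theorem unifC {Z : Set (Fin n → ℂ)} (hrel : HasRel Z) :
    ∃ M : ℕ, 0 < M ∧ ∀ p : ℕ, p.Prime → ¬ p ∣ M → ∀ v : AbsoluteValue ℂ ℝ,
      IsNonarchimedean v → v (p : ℂ) < 1 → UnifC v p Z := by
  classical
  let ι := (Fin n × Fin n × Fin n × Fin n) × Bool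
  let sg : Bool → ℤ := fun b => if b then 1 else -1
  have hsg : ∀ b, sg b = 1 ∨ sg b = -1 := fun b => by cases b <;> simp [sg]
  have hsg0 : ∀ b, sg b ≠ 0 := fun b => by cases b <;> simp [sg]
  have h1 : ∀ q : ι, ∃ (H₁ H₂ F Fk Fl : MvPolynomial (Fin 2) ℤ) (M : ℕ), 0 < M ∧
      (q.1.1 ≠ q.1.2.1 → q.1.1 ≠ q.1.2.2.1 → q.1.1 ≠ q.1.2.2.2 → q.1.2.2.1 ≠ q.1.2.2.2 →
        q.1.2.2.2 ≠ q.1.2.1 →
        (Holds H₁ Z (Pi.single q.1.1 (sg q.2)) (diff q.1.2.2.1 q.1.2.2.2) ∧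
        Holds H₂ Z (Pi.single q.1.2.1 1) (diff q.1.2.2.1 q.1.2.2.2) ∧
        Holds F Z (Pi.single q.1.1 (sg q.2)) (Pi.single q.1.2.1 1) ∧
        Holds Fk Z (Pi.single q.1.1 (sg q.2)) (Pi.single q.1.2.2.1 1) ∧
        Holds Fl Z (Pi.single q.1.1 (sg q.2)) (Pi.single q.1.2.2.2 1)) ∧
        ∀ p : ℕ, p.Prime → ¬ p ∣ M → ∀ v : AbsoluteValue ℂ ℝ, IsNonarchimedean v → v (p : ℂ) < 1 →
          GoodRel v p H₁ ∧ GoodRel v p H₂ ∧ GoodRel v p F ∧ GoodRel v p Fk ∧ GoodRel v p Fl) := by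
    rintro ⟨⟨e, j, k, l⟩, b⟩
    by_cases h : e ≠ j ∧ e ≠ k ∧ e ≠ l ∧ k ≠ l ∧ l ≠ j
    · obtain ⟨hej, hek, hel, hkl, hlj⟩ := h
      obtain ⟨H₁, M₁, a1, a2, a3⟩ := hrel (Pi.single e (sg b)) (diff k l) (single_diff_indep hel hkl (hsg0 b))
      obtain ⟨H₂, M₂, b1, b2, b3⟩ := hrel (Pi.single j 1) (diff k l) (single_diff_indep hlj.symm hkl one_ne_zero)
      obtain ⟨F, M₃, c1, c2, c3⟩ := hrel (Pi.single e (sg b)) (Pi.single j 1) (single_indep hej (hsg0 b))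
      obtain ⟨Fk, M₄, d1, d2, d3⟩ := hrel (Pi.single e (sg b)) (Pi.single k 1) (single_indep hek (hsg0 b))
      obtain ⟨Fl, M₅, e1, e2, e3⟩ := hrel (Pi.single e (sg b)) (Pi.single l 1) (single_indep hel (hsg0 b))
      refine ⟨H₁, H₂, F, Fk, Fl, M₁ * M₂ * M₃ * M₄ * M₅, by positivity, fun _ _ _ _ _ =>
        ⟨⟨a2, b2, c2, d2, e2⟩, fun p hp hpM v hv hvp => ⟨a3 p hp ?_ v hv hvp, b3 p hp ?_ v hv hvp,
          c3 p hp ?_ v hv hvp, d3 p hp ?_ v hv hvp, e3 p hp ?_ v hv hvp⟩⟩⟩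
      · exact fun h => hpM ((((h.mul_right _).mul_right _).mul_right _).mul_right _)
      · exact fun h => hpM ((((h.mul_left _).mul_right _).mul_right _).mul_right _)
      · exact fun h => hpM (((h.mul_left _).mul_right _).mul_right _)
      · exact fun h => hpM ((h.mul_left _).mul_right _)
      · exact fun h => hpM (h.mul_left _)
    · exact ⟨0, 0, 0, 0, 0, 1, one_pos, fun a b c d e => absurd ⟨a, b, c, d, e⟩ h⟩
  choose H₁ H₂ F Fk Fl M hM h1 using h1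
  refine ⟨∏ q, M q, prod_pos fun q _ => hM q, fun p hp hpM v hv hvp => ?_⟩
  have hpM' : ∀ q, ¬ p ∣ M q := fun q h => hpM (h.trans (dvd_prod_of_mem M (mem_univ q)))
  have hp0 : 0 < v (p : ℂ) := AbsoluteValue.pos_iff v |>.2 (by exact_mod_cast hp.ne_zero)
  have hpne : (p : ℂ) ≠ 0 := by exact_mod_cast hp.ne_zero
  have h2 : ∀ q : ι, ∃ B : ℕ, q.1.1 ≠ q.1.2.1 → q.1.1 ≠ q.1.2.2.1 → q.1.1 ≠ q.1.2.2.2 →
      q.1.2.2.1 ≠ q.1.2.2.2 → q.1.2.2.2 ≠ q.1.2.1 →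
      ∀ (m : ℕ) (lam a : Fin n → ℂ), AffAt v p m lam a → ∀ z ∈ Z, ∀ (N' : ℕ),
      (z q.1.1 = 0 → sg q.2 = 1) → v (z q.1.2.1) = 1 → v (z q.1.2.2.1) = 1 → v (z q.1.2.2.2) = 1 →
      CyclicIsog N' (lam q.1.2.2.1 * z q.1.2.2.1 + a q.1.2.2.1)
        (lam q.1.2.2.2 * z q.1.2.2.2 + a q.1.2.2.2) →
      v (z q.1.1 ^ sg q.2) < 1 →
      (v (p : ℂ) < v (z q.1.1 ^ sg q.2) → ∃ (ζ' ε : ℂ) (a d : ℕ), 0 < a ∧ 0 < d ∧ Nat.Coprime a d ∧
      v (z q.1.1 ^ sg q.2) ^ a = (v (p : ℂ) ^ m) ^ d ∧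
      ((p : ℂ) ^ m * lam q.1.2.1 * z q.1.2.1) ^ d * (z q.1.1 ^ sg q.2) ^ a =
        ζ' * ((p : ℂ) ^ m) ^ d * ((lam q.1.2.1 / lam q.1.1 * z q.1.2.1) ^ sg q.2) ^ a * (1 + ε) ∧
      (∃ j, 0 < j ∧ ζ' ^ j = 1) ∧ v ε * v (z q.1.1 ^ sg q.2) ≤ v (p : ℂ)) → N' ≤ B := by
    intro q
    by_cases h : q.1.1 ≠ q.1.2.1 ∧ q.1.1 ≠ q.1.2.2.1 ∧ q.1.1 ≠ q.1.2.2.2 ∧ q.1.2.2.1 ≠ q.1.2.2.2 ∧
        q.1.2.2.2 ≠ q.1.2.1
    · obtain ⟨a1, a2, a3, a4, a5⟩ := h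
      obtain ⟨⟨b1, b2, b3, b4, b5⟩, hgood⟩ := h1 q a1 a2 a3 a4 a5
      obtain ⟨c1, c2, c3, c4, c5⟩ := hgood p hp (hpM' q) v hv hvp
      obtain ⟨B, hB⟩ := caseCU_one hv hp hvp a2 a3 (hsg q.2) b1 c1 b2 c2 b3 c3 b4 c4 b5 c5
      exact ⟨B, fun _ _ _ _ _ => hB⟩
    · exact ⟨0, fun a b c d e => absurd ⟨a, b, c, d, e⟩ h⟩
  choose B hB using h2
  refine ⟨univ.sup B, fun m lam a haff z hz e j k l N N' he hj hk hl' hbe hej hek hel hkl hlj hN hN' => ?_⟩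
  have hc0 : 0 < v (p : ℂ) ^ m := pow_pos hp0 m
  have hcp : v (p : ℂ) ^ m ≤ v (p : ℂ) := by
    calc v (p : ℂ) ^ m ≤ v (p : ℂ) ^ 1 := pow_le_pow_of_le_one hp0.le hvp.le haff.one_le
      _ = _ := pow_one _
  have hl : ∀ i, v (lam i) * v (p : ℂ) ^ m = 1 := fun i => by
    have := haff.lam_one i
    rwa [map_mul, map_pow, mul_comm] at this
  have ha : ∀ i, v (a i / lam i) ≤ v (p : ℂ) := fun i => by
    have e1 : a i / lam i = ((p : ℂ) ^ m * a i) / ((p : ℂ) ^ m * lam i) :=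
      (mul_div_mul_left _ _ (pow_ne_zero m hpne)).symm
    rw [e1, map_div₀, haff.lam_one i, div_one]
    exact haff.a_le i
  have hNpos : 0 < N := Nat.pos_of_ne_zero fun h0 => not_isog_zero (h0 ▸ hN)
  obtain ⟨s, hs, k1, k2, k3⟩ := pair_excA hv hc0 hcp hvp (P := (p : ℂ) ^ m)
    (by rw [map_pow]) (hl e) (hl j) (ha e) (ha j) he hj hbe hNpos hN
  obtain ⟨b, rfl⟩ : ∃ b, sg b = s := by
    rcases hs with rfl | rfl
    · exact ⟨true, rfl⟩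
    · exact ⟨false, rfl⟩
  exact (hB ((e, j, k, l), b) hej hek hel hkl hlj m lam a haff z hz N' k2 hj hk hl' hN' k1 k3).trans
    (Finset.le_sup (mem_univ ((e, j, k, l), b)))

end Pool.Agent.Helper20.DL
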