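import Pool.Agent.Helper20.DL.Tools
import Pool.Agent.Helper69.DL.Torsion

/-! # Points near roots -/

open Finset

namespace Pool.Agent.Helper20.DL
open Pool.Agent.Helper20.ZD Pool.Agent.Helper11.LC

variable {v : AbsoluteValue ℂ ℝ}

/-- a root near a point at which the value is small -/
lemma root_near {P : Polynomial ℂ} {D : ℕ} (hdeg : P.natDegree ≤ D) {x : ℂ} {L δ : ℝ}
    (hL : L ≤ v P.leadingCoeff) (hL0 : 0 < L) (h : v (P.eval x) ≤ δ) (hδ : δ < L) :
    ∃ z ∈ P.roots, v (x - z) ^ D * L ≤ δ ∧ v (x - z) < 1 := by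
  classical
  have hsp : P.Splits := IsAlgClosed.splits P
  have h1 := hsp.eval_eq_prod_roots x
  have h2 : v (P.eval x) = v P.leadingCoeff * (P.roots.map fun z => v (x - z)).prod := by
    rw [h1, map_mul, map_multiset_prod, Multiset.map_map]
    rfl
  rcases P.roots.toFinset.eq_empty_or_nonempty with h3 | h3
  · exfalso
    rw [Multiset.toFinset_eq_empty] at h3
    rw [h3, Multiset.map_zero, Multiset.prod_zero, mul_one] at h2
    linarith
  · obtain ⟨z, hz, hmin⟩ := Finset.exists_min_image _ (fun z => v (x - z)) h3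
    have h0 : 0 ≤ (P.roots.map fun z => v (x - z)).prod := by
      refine Multiset.prod_nonneg fun r hr => ?_
      obtain ⟨r', -, rfl⟩ := Multiset.mem_map.1 hr
      exact v.nonneg _
    have h4 : v (x - z) ^ P.natDegree ≤ (P.roots.map fun z => v (x - z)).prod := by
      have h5 : v (x - z) ^ P.natDegree = (P.roots.map fun _ => v (x - z)).prod := by
        rw [Multiset.map_const', Multiset.prod_replicate, hsp.natDegree_eq_card_roots]
      rw [h5]
      refine Multiset.prod_map_le_prod_map₀ _ _ (fun _ _ => v.nonneg _) fun i hi => ?_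
      exact hmin i (Multiset.mem_toFinset.2 hi)
    have h6 : v (x - z) ^ P.natDegree * L ≤ δ := by
      calc _ ≤ (P.roots.map fun z => v (x - z)).prod * v P.leadingCoeff :=
            mul_le_mul h4 hL hL0.le h0
        _ = v (P.eval x) := by rw [h2, mul_comm]
        _ ≤ δ := h
    have h7 : v (x - z) < 1 := by
      by_contra hcon
      push Not at hcon
      have := one_le_pow₀ hcon (n := P.natDegree)
      nlinarith
    refine ⟨z, Multiset.mem_toFinset.1 hz, ?_, h7⟩
    have h8 : v (x - z) ^ D ≤ v (x - z) ^ P.natDegree := pow_le_pow_of_le_one (v.nonneg _) h7.le hdeg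
    nlinarith

/-- roots of unity of order prime to `p` near one -/
lemma unit_one (hv : IsNonarchimedean v) {p : ℕ} (hp : p.Prime) (hvp : v (p : ℂ) < 1) {N : ℕ}
    (hN : 0 < N) (hpN : ¬ p ∣ N) {η : ℂ} (hη : η ^ N = 1) (h : v (η - 1) < 1) : η = 1 := by
  have h1 : orderOf η ∣ N := orderOf_dvd_of_pow_eq_one hη
  have h2 : 0 < orderOf η := Nat.pos_of_dvd_of_pos h1 hN
  by_contra hne
  have h3 : orderOf η ≠ 1 := fun h0 => hne (orderOf_eq_one_iff.1 h0)
  obtain ⟨q, hq, hqo⟩ := Nat.exists_prime_and_dvd h3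
  have h4 := prime_pow_order hv h2 (IsPrimitiveRoot.orderOf η) h hq hqo
  have h5 := two_primes hv hq hp h4 hvp
  subst h5
  exact hpN (hqo.trans h1)

/-- roots of unity of order prime to `p` near given algebraic numbers -/
lemma exists_order (hv : IsNonarchimedean v) {p : ℕ} (hp : p.Prime) (hvp : v (p : ℂ) < 1) {C : Set ℂ}
    (hC : C.Finite) (halg : ∀ c ∈ C, IsAlgebraic ℚ c) :
    ∃ K : ℕ, 0 < K ∧ ∀ (η : ℂ) (N : ℕ), 0 < N → ¬ p ∣ N → η ^ N = 1 → (∃ c ∈ C, v (η - c) < 1) →
      η ^ K = 1 := by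
  obtain ⟨E, hE⟩ := (hC.image fun c => (minpoly ℚ c).natDegree).bddAbove
  refine ⟨∏ f ∈ Finset.Icc 1 E, (p ^ f - 1), ?_, ?_⟩
  · refine Finset.prod_pos fun f hf => ?_
    have h1 : 1 < p ^ f := Nat.one_lt_pow (by rw [Finset.mem_Icc] at hf; omega) hp.one_lt
    omega
  · intro η N hN hpN hη ⟨c, hc, hηc⟩
    set K := ∏ f ∈ Finset.Icc 1 E, (p ^ f - 1) with hK
    have hη1 : v η = 1 := val_root hN hη
    have hc1 : v c = 1 := by
      have h1 := v_eq_of_sub_lt hv (x := c) (c := η) (by rw [v_sub_comm, hη1]; exact hηc)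
      rw [h1, hη1]
    have h2 := residue_bound hv hp hvp (halg c hc) (hE ⟨c, hc, rfl⟩) hc1
    refine unit_one hv hp hvp hN hpN (by rw [← pow_mul, mul_comm, pow_mul, hη, one_pow]) ?_
    have h3 : η ^ K - 1 = (η ^ K - c ^ K) + (c ^ K - 1) := by ring
    rw [h3]
    exact lt_of_le_of_lt (hv _ _) (max_lt
      (lt_of_le_of_lt (v_pow_sub_pow_le hv hη1.le hc1.le K) hηc) h2)

/-- roots of polynomials with algebraic coefficients -/
lemma alg_root {P : Polynomial ℂ} (hP : P ≠ 0) (hc : ∀ i, IsAlgebraic ℚ (P.coeff i)) {z : ℂ}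
    (hz : P.eval z = 0) : IsAlgebraic ℚ z := by
  have h1 : P ∈ Polynomial.lifts (algebraMap (algebraicClosure ℚ ℂ) ℂ) := by
    rw [Polynomial.lifts_iff_coeff_lifts]
    intro i
    exact ⟨⟨P.coeff i, mem_algebraicClosure_iff.2 (hc i)⟩, rfl⟩
  obtain ⟨Q, hQ⟩ := h1
  have h2 : IsAlgebraic (algebraicClosure ℚ ℂ) z := by
    refine ⟨Q, ?_, ?_⟩
    · rintro rfl
      exact hP (by rw [← hQ]; simp)
    · rw [Polynomial.aeval_def, Polynomial.eval₂_eq_eval_map, ← Polynomial.coe_mapRingHom, hQ]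
      exact hz
  have h3 : Algebra.IsAlgebraic ℚ (algebraicClosure ℚ ℂ) := algebraicClosure.isAlgebraic ℚ ℂ
  exact IsAlgebraic.restrictScalars (R := ℚ) (S := algebraicClosure ℚ ℂ) h2

/-- `H (X, y)` -/
noncomputable def inX (H : MvPolynomial (Fin 2) ℤ) (y : ℂ) : Polynomial ℂ :=
  ∑ m ∈ H.support, Polynomial.monomial (m 0) (((H.coeff m : ℤ) : ℂ) * y ^ m 1)

/-- `H (x, Y)` -/
noncomputable def inY (H : MvPolynomial (Fin 2) ℤ) (x : ℂ) : Polynomial ℂ :=
  ∑ m ∈ H.support, Polynomial.monomial (m 1) (((H.coeff m : ℤ) : ℂ) * x ^ m 0)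

lemma inX_eval (H : MvPolynomial (Fin 2) ℤ) (x y : ℂ) : (inX H y).eval x = ev H x y := by
  rw [inX, Polynomial.eval_finsetSum, ev]
  refine sum_congr rfl fun m _ => ?_
  rw [Polynomial.eval_monomial]
  ring

lemma inY_eval (H : MvPolynomial (Fin 2) ℤ) (x y : ℂ) : (inY H x).eval y = ev H x y := by
  rw [inY, Polynomial.eval_finsetSum, ev]
  refine sum_congr rfl fun m _ => ?_
  rw [Polynomial.eval_monomial]

lemma inX_coeff (H : MvPolynomial (Fin 2) ℤ) (y : ℂ) (i : ℕ) : (inX H y).coeff i =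
    ∑ m ∈ H.support with m 0 = i, ((H.coeff m : ℤ) : ℂ) * y ^ m 1 := by
  rw [inX, Polynomial.finsetSum_coeff, sum_filter]
  refine sum_congr rfl fun m _ => ?_
  rw [Polynomial.coeff_monomial]

lemma inY_coeff (H : MvPolynomial (Fin 2) ℤ) (x : ℂ) (i : ℕ) : (inY H x).coeff i =
    ∑ m ∈ H.support with m 1 = i, ((H.coeff m : ℤ) : ℂ) * x ^ m 0 := by
  rw [inY, Polynomial.finsetSum_coeff, sum_filter]
  refine sum_congr rfl fun m _ => ?_
  rw [Polynomial.coeff_monomial]

lemma inX_natDegree {H : MvPolynomial (Fin 2) ℤ} {d : ℕ} (h : ∀ m ∈ H.support, m 0 ≤ d) (y : ℂ) :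
    (inX H y).natDegree ≤ d :=
  Polynomial.natDegree_sum_le_of_forall_le _ _ fun m hm =>
    (Polynomial.natDegree_monomial_le _).trans (h m hm)

lemma inY_natDegree {H : MvPolynomial (Fin 2) ℤ} {d : ℕ} (h : ∀ m ∈ H.support, m 1 ≤ d) (x : ℂ) :
    (inY H x).natDegree ≤ d :=
  Polynomial.natDegree_sum_le_of_forall_le _ _ fun m hm =>
    (Polynomial.natDegree_monomial_le _).trans (h m hm)

lemma alg_int_mul_pow {x : ℂ} (hx : IsAlgebraic ℚ x) (c : ℤ) (k : ℕ) : IsAlgebraic ℚ ((c : ℂ) * x ^ k) :=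
  (isAlgebraic_intCast c).mul (hx.pow k)

lemma inX_alg (H : MvPolynomial (Fin 2) ℤ) {y : ℂ} (hy : IsAlgebraic ℚ y) (i : ℕ) :
    IsAlgebraic ℚ ((inX H y).coeff i) := by
  rw [inX_coeff, ← mem_algebraicClosure_iff]
  exact sum_mem fun m _ => mem_algebraicClosure_iff.2 (alg_int_mul_pow hy _ _)

lemma inY_alg (H : MvPolynomial (Fin 2) ℤ) {x : ℂ} (hx : IsAlgebraic ℚ x) (i : ℕ) :
    IsAlgebraic ℚ ((inY H x).coeff i) := by
  rw [inY_coeff, ← mem_algebraicClosure_iff]
  exact sum_mem fun m _ => mem_algebraicClosure_iff.2 (alg_int_mul_pow hx _ _)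

lemma inY_int (hv : IsNonarchimedean v) (F : MvPolynomial (Fin 2) ℤ) {x : ℂ} (hx : v x ≤ 1) (i : ℕ) :
    v ((inY F x).coeff i) ≤ 1 := by
  rw [inY_coeff]
  refine val_sum_le hv _ _ zero_le_one fun m _ => ?_
  rw [map_mul, map_pow]
  exact mul_le_one₀ (v_int_le hv _) (pow_nonneg (v.nonneg _) _) (pow_le_one₀ (v.nonneg _) hx)

/-- some coefficient of `F (x, Y)` is a unit for `v x < 1` -/
lemma inY_unit (hv : IsNonarchimedean v) {F : MvPolynomial (Fin 2) ℤ} {m₀ : Fin 2 →₀ ℕ} (h0 : m₀ 0 = 0)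
    (h1 : v ((F.coeff m₀ : ℤ) : ℂ) = 1) {x : ℂ} (hx : v x < 1) :
    v ((inY F x).coeff (m₀ 1)) = 1 := by
  classical
  have hm₀ : m₀ ∈ F.support := by
    rw [MvPolynomial.mem_support_iff]
    intro h
    rw [h, Int.cast_zero, map_zero] at h1
    exact zero_ne_one h1
  have hmem : m₀ ∈ F.support.filter fun m => m 1 = m₀ 1 := Finset.mem_filter.2 ⟨hm₀, rfl⟩
  rw [inY_coeff, ← Finset.add_sum_erase _ _ hmem, h0, pow_zero, mul_one, ← h1]
  refine v_add_eq hv ?_
  rw [h1]
  refine lt_of_le_of_lt (val_sum_le hv _ _ (v.nonneg x) fun m hm => ?_) hx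
  obtain ⟨hne, hm⟩ := Finset.mem_erase.1 hm
  obtain ⟨hm1, hm2⟩ := Finset.mem_filter.1 hm
  have h4 : m 0 ≠ 0 := by
    intro h5
    apply hne
    ext i
    fin_cases i
    · exact h5.trans h0.symm
    · exact hm2
  obtain ⟨k, hk⟩ := Nat.exists_eq_succ_of_ne_zero h4
  rw [hk, map_mul, map_pow, pow_succ]
  calc v ((F.coeff m : ℤ) : ℂ) * (v x ^ k * v x) ≤ 1 * (1 * v x) := by
        refine mul_le_mul (v_int_le hv _) ?_ (mul_nonneg (pow_nonneg (v.nonneg _) _) (v.nonneg _)) zero_le_one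
        exact mul_le_mul_of_nonneg_right (pow_le_one₀ (v.nonneg _) hx.le) (v.nonneg _)
    _ = v x := by ring

/-- a root near a point at which the value is small, for a polynomial of Gauss norm one -/
lemma root_gauss (hv : IsNonarchimedean v) {P : Polynomial ℂ} {D : ℕ} (hdeg : P.natDegree ≤ D) {j : ℕ}
    (hj : v (P.coeff j) = 1) {x : ℂ} (hx : v x ≤ 1) {δ : ℝ} (h : v (P.eval x) ≤ δ) (hδ : δ < 1) :
    ∃ z ∈ P.roots, v (x - z) ^ D ≤ δ ∧ v (x - z) < 1 := by
  classical
  have hsp : P.Splits := IsAlgClosed.splits P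
  set O := vring v hv with hO
  let u : ℂ → ℂ := fun r => if v r ≤ 1 then 1 else -r
  let fac : ℂ → Polynomial ℂ := fun r => if v r ≤ 1 then Polynomial.X - Polynomial.C r else
    1 - Polynomial.C r⁻¹ * Polynomial.X
  have hfac : ∀ r, Polynomial.X - Polynomial.C r = Polynomial.C (u r) * fac r := by
    intro r
    by_cases hr : v r ≤ 1
    · simp only [u, fac, if_pos hr, Polynomial.C_1, one_mul]
    · have hr0 : r ≠ 0 := by
        rintro rfl
        rw [map_zero] at hr
        exact hr zero_le_one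
      simp only [u, fac, if_neg hr]
      rw [mul_sub, mul_one, ← mul_assoc, ← Polynomial.C_mul, Polynomial.C_neg]
      rw [show -r * r⁻¹ = -1 by field_simp, Polynomial.C_neg, Polynomial.C_1]
      ring
  have hmap : P.roots.map (fun r => Polynomial.X - Polynomial.C r) =
      P.roots.map (fun r => Polynomial.C (u r) * fac r) := Multiset.map_congr rfl fun r _ => hfac r
  set c' : ℂ := P.leadingCoeff * (P.roots.map u).prod with hc'
  have hP : P = Polynomial.C c' * (P.roots.map fac).prod := by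
    conv_lhs => rw [hsp.eq_prod_roots, hmap, Multiset.prod_map_mul, ← mul_assoc]
    congr 1
    rw [hc', Polynomial.C_mul]
    congr 1
    rw [map_multiset_prod, Multiset.map_map]
    rfl
  -- the second factor is integral
  have hint : ∀ s : Multiset ℂ, (s.map fac).prod ∈ Polynomial.lifts O.subtype := by
    intro s
    refine multiset_prod_mem _ fun f hf => ?_
    obtain ⟨r, -, rfl⟩ := Multiset.mem_map.1 hf
    by_cases hr : v r ≤ 1
    · simp only [fac, if_pos hr]
      refine ⟨Polynomial.X - Polynomial.C ⟨r, mem_vring.2 hr⟩, ?_⟩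
      simp
    · simp only [fac, if_neg hr]
      have hr' : v r⁻¹ ≤ 1 := by
        rw [map_inv₀]
        exact inv_le_one_of_one_le₀ (le_of_not_ge hr)
      refine ⟨1 - Polynomial.C ⟨r⁻¹, mem_vring.2 hr'⟩ * Polynomial.X, ?_⟩
      simp
  have hcj : v (((P.roots.map fac).prod).coeff j) ≤ 1 := by
    obtain ⟨Q, hQ⟩ := (Polynomial.lifts_iff_coeff_lifts _).1 (hint P.roots) j
    rw [← hQ]
    exact mem_vring.1 Q.2
  have hc1 : 1 ≤ v c' := by
    have h1 : v (P.coeff j) = v c' * v (((P.roots.map fac).prod).coeff j) := by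
      conv_lhs => rw [hP, Polynomial.coeff_C_mul, map_mul]
    rw [hj] at h1
    have h2 : v c' * v (((P.roots.map fac).prod).coeff j) ≤ v c' * 1 :=
      mul_le_mul_of_nonneg_left hcj (v.nonneg _)
    linarith
  have heval : v (P.eval x) = v c' * (P.roots.map fun r => v ((fac r).eval x)).prod := by
    conv_lhs => rw [hP, Polynomial.eval_mul, Polynomial.eval_C, map_mul]
    congr 1
    rw [Polynomial.eval_multiset_prod, Multiset.map_map, map_multiset_prod, Multiset.map_map]
    rfl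
  have h0 : 0 ≤ (P.roots.map fun r => v ((fac r).eval x)).prod := by
    refine Multiset.prod_nonneg fun r hr => ?_
    obtain ⟨r', -, rfl⟩ := Multiset.mem_map.1 hr
    exact v.nonneg _
  have hprod : (P.roots.map fun r => v ((fac r).eval x)).prod ≤ δ := by
    refine le_trans ?_ h
    rw [heval]
    nlinarith
  rcases P.roots.toFinset.eq_empty_or_nonempty with h3 | h3
  · exfalso
    rw [Multiset.toFinset_eq_empty] at h3
    rw [h3, Multiset.map_zero, Multiset.prod_zero] at hprod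
    linarith
  · obtain ⟨z, hz, hmin⟩ := Finset.exists_min_image _ (fun r => v ((fac r).eval x)) h3
    have h4 : v ((fac z).eval x) ^ P.natDegree ≤ (P.roots.map fun r => v ((fac r).eval x)).prod := by
      have h5 : v ((fac z).eval x) ^ P.natDegree = (P.roots.map fun _ => v ((fac z).eval x)).prod := by
        rw [Multiset.map_const', Multiset.prod_replicate, hsp.natDegree_eq_card_roots]
      rw [h5]
      refine Multiset.prod_map_le_prod_map₀ _ _ (fun _ _ => v.nonneg _) fun i hi => ?_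
      exact hmin i (Multiset.mem_toFinset.2 hi)
    have h6 : v ((fac z).eval x) ^ P.natDegree ≤ δ := h4.trans hprod
    have h7 : v ((fac z).eval x) < 1 := by
      by_contra hcon
      push Not at hcon
      have := one_le_pow₀ hcon (n := P.natDegree)
      linarith
    have h8 : v z ≤ 1 := by
      by_contra hcon
      have h9 : v ((fac z).eval x) = 1 := by
        simp only [fac, if_neg hcon]
        rw [Polynomial.eval_sub, Polynomial.eval_one, Polynomial.eval_mul, Polynomial.eval_C,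
          Polynomial.eval_X, sub_eq_add_neg, ← map_one v]
        refine v_add_eq hv ?_
        rw [v_neg, map_mul, map_inv₀, map_one]
        push Not at hcon
        calc (v z)⁻¹ * v x ≤ (v z)⁻¹ * 1 := mul_le_mul_of_nonneg_left hx (inv_nonneg.2 (v.nonneg _))
          _ < 1 := by rw [mul_one]; exact inv_lt_one_of_one_lt₀ hcon
      rw [h9] at h7
      exact lt_irrefl _ h7
    have h9 : (fac z).eval x = x - z := by
      simp only [fac, if_pos h8]
      simp
    rw [h9] at h6 h7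
    exact ⟨z, Multiset.mem_toFinset.1 hz,
      (pow_le_pow_of_le_one (v.nonneg _) h7.le hdeg).trans h6, h7⟩

/-- the coefficient `∑ c_{ij} (α ω) ^ j` of `X ^ i` -/
lemma row_val (hv : IsNonarchimedean v) {H : MvPolynomial (Fin 2) ℤ} {m₀ : Fin 2 →₀ ℕ}
    (h1 : v ((H.coeff m₀ : ℤ) : ℂ) = 1) {D : ℕ} (hD : ∀ m ∈ H.support, m 1 ≤ D) (R₀ : Subring ℂ)
    {α : ℂ} (hα : v α = 1) (hαR : α ∈ R₀) {c : ℝ} (gap : ∀ x ∈ R₀, v x < 1 → v x ≤ c) {ω : ℂ}
    (hω0 : 0 < v (ω - 1)) (hω1 : v (ω - 1) < 1) (hc : c < v (ω - 1) ^ D) :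
    v (ω - 1) ^ D ≤ v ((inX H (α * ω)).coeff (m₀ 0)) := by
  classical
  set Q : Polynomial ℂ := ∑ m ∈ H.support with m 0 = m₀ 0,
    Polynomial.monomial (m 1) (((H.coeff m : ℤ) : ℂ) * α ^ m 1) with hQ
  have hm₀ : m₀ ∈ H.support := by
    rw [MvPolynomial.mem_support_iff]
    intro h
    rw [h, Int.cast_zero, map_zero] at h1
    exact zero_ne_one h1
  have hcoef : ∀ j, Q.coeff j = ∑ m ∈ (H.support.filter fun m => m 0 = m₀ 0) with m 1 = j,
      ((H.coeff m : ℤ) : ℂ) * α ^ m 1 := by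
    intro j
    rw [hQ, Polynomial.finsetSum_coeff, sum_filter (s := H.support.filter fun m => m 0 = m₀ 0)]
    refine sum_congr rfl fun m _ => ?_
    rw [Polynomial.coeff_monomial]
  have heval : Q.eval ω = (inX H (α * ω)).coeff (m₀ 0) := by
    rw [hQ, Polynomial.eval_finsetSum, inX_coeff]
    refine sum_congr rfl fun m _ => ?_
    rw [Polynomial.eval_monomial, mul_pow]
    ring
  have hlead : Q.coeff (m₀ 1) = ((H.coeff m₀ : ℤ) : ℂ) * α ^ m₀ 1 := by
    rw [hcoef]
    have h3 : ((H.support.filter fun m => m 0 = m₀ 0).filter fun m => m 1 = m₀ 1) = {m₀} := by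
      ext m
      rw [Finset.mem_filter, Finset.mem_filter, Finset.mem_singleton]
      constructor
      · rintro ⟨⟨-, h4⟩, h5⟩
        ext i
        fin_cases i
        · exact h4
        · exact h5
      · rintro rfl
        exact ⟨⟨hm₀, rfl⟩, rfl⟩
    rw [h3, Finset.sum_singleton]
  have e1 : ∀ i, Q.coeff i ∈ R₀ := by
    intro i
    rw [hcoef]
    exact sum_mem fun m _ => mul_mem (intCast_mem R₀ _) (pow_mem hαR _)
  have e2 : ∀ i, v (Q.coeff i) ≤ 1 := by
    intro i
    rw [hcoef]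
    refine val_sum_le hv _ _ zero_le_one fun m _ => ?_
    rw [map_mul, map_pow, hα, one_pow, mul_one]
    exact v_int_le hv _
  have e3 : v (Q.coeff (m₀ 1)) = 1 := by rw [hlead, map_mul, map_pow, hα, one_pow, mul_one, h1]
  have e4 : Q.natDegree ≤ D := by
    refine Polynomial.natDegree_sum_le_of_forall_le _ _ fun m hm => ?_
    exact (Polynomial.natDegree_monomial_le _).trans (hD m (Finset.mem_filter.1 hm).1)
  obtain ⟨j, hj, hval⟩ := eval_near_one hv R₀ e1 e2 e3 gap hω0 hω1 e4 hc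
  rw [← heval, hval]
  exact pow_le_pow_of_le_one hω0.le hω1.le hj

end Pool.Agent.Helper20.DL
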