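import Pool.Agent.Helper20.DL.Digits
import Pool.Agent.Helper11.LC.Deg

/-! # Tools for the exceptional coordinate -/

open Finset

namespace Pool.Agent.Helper20.DL
open Pool.Agent.Helper20.ZD Pool.Agent.Helper11.LC

variable {v : AbsoluteValue ℂ ℝ}

/-- the values at the `p`-power roots of unity tend to one -/
lemma T_large (hv : IsNonarchimedean v) {p : ℕ} (hp : p.Prime) (hvp : v (p : ℂ) < 1) {c : ℝ} (hc : c < 1)
    (N : ℕ) : ∃ t₀ : ℕ, ∀ t, t₀ ≤ t → ∀ ξ : ℂ, IsPrimitiveRoot ξ (p ^ (t + 1)) → c < v (ξ - 1) ^ N := by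
  have hp0 : 0 < v (p : ℂ) := v.pos (by exact_mod_cast hp.ne_zero)
  set c' := max c 0 with hc'
  have hc1 : c' < 1 := max_lt hc one_pos
  obtain ⟨k, hk⟩ := exists_pow_lt_of_lt_one hp0 hc1
  refine ⟨N * k, fun t ht ξ hξ => ?_⟩
  by_contra hcon
  push Not at hcon
  have h1 := val_T hv hp hξ
  have hT0 := val_T_pos (v := v) hp hξ
  have hT1 := val_T_lt hv hp hvp hξ
  have h2 : N * k ≤ Nat.totient (p ^ (t + 1)) := by
    rw [Nat.totient_prime_pow_succ hp]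
    have h3 : t < p ^ t := Nat.lt_pow_self hp.one_lt
    have h4 : 1 ≤ p - 1 := by have := hp.two_le; omega
    calc N * k ≤ t := ht
      _ ≤ p ^ t * 1 := by omega
      _ ≤ p ^ t * (p - 1) := Nat.mul_le_mul_left _ h4
  have h3 : v (ξ - 1) ^ (N * k) ≤ c' ^ k := by
    rw [pow_mul]
    exact pow_le_pow_left₀ (pow_nonneg hT0.le _) (hcon.trans (le_max_left _ _)) k
  have h4 : v (ξ - 1) ^ (Nat.totient (p ^ (t + 1))) ≤ v (ξ - 1) ^ (N * k) :=
    pow_le_pow_of_le_one hT0.le hT1.le h2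
  rw [h1] at h4
  exact absurd (h4.trans h3) (not_le.2 hk)

/-- the values less than one on a number field are bounded away from one -/
lemma gap_field (hv : IsNonarchimedean v) {p : ℕ} (hp : p.Prime) (hvp : v (p : ℂ) < 1)
    (L : IntermediateField ℚ ℂ) [FiniteDimensional ℚ L] :
    ∃ c : ℝ, 0 ≤ c ∧ c < 1 ∧ ∀ x ∈ L, v x < 1 → v x ≤ c := by
  have hp0 : 0 < v (p : ℂ) := v.pos (by exact_mod_cast hp.ne_zero)
  obtain ⟨ρ, h0, h1, h⟩ := exists_rho hp0.le hvp (Module.finrank ℚ L)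
  refine ⟨ρ, h0, h1, fun x hx hx1 => h _ (v.nonneg _) ?_⟩
  have h5 : IsIntegral ℚ (⟨x, hx⟩ : L) := IsIntegral.of_finite ℚ _
  have h6 : minpoly ℚ x = minpoly ℚ (⟨x, hx⟩ : L) := by
    rw [← minpoly.algebraMap_eq (algebraMap L ℂ).injective (⟨x, hx⟩ : L)]
    rfl
  refine v_alg_gap hv hp hvp (h5.map (IsScalarTower.toAlgHom ℚ L ℂ)).isAlgebraic ?_ hx1
  change (minpoly ℚ x).natDegree ≤ _
  rw [h6]
  exact minpoly.natDegree_le _

/-- **Frobenius** -/
lemma frob1 (hv : IsNonarchimedean v) {p : ℕ} (hp : p.Prime) (H : MvPolynomial (Fin 2) ℤ) {x y : ℂ}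
    (hx : v x ≤ 1) (hy : v y ≤ 1) : v (ev H (x ^ p) (y ^ p) - ev H x y ^ p) ≤ v (p : ℂ) := by
  have := Fact.mk hp
  have h1 : MvPolynomial.C (p : ℤ) ∣ (MvPolynomial.expand p H - H ^ p) := by
    rw [MvPolynomial.C_dvd_iff_dvd_coeff]
    intro m
    rw [← ZMod.intCast_zmod_eq_zero_iff_dvd]
    have h2 : MvPolynomial.map (Int.castRingHom (ZMod p)) (MvPolynomial.expand p H - H ^ p) = 0 := by
      rw [map_sub, map_pow, MvPolynomial.map_expand, MvPolynomial.expand_zmod, sub_self]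
    have h3 := congrArg (MvPolynomial.coeff m) h2
    rw [MvPolynomial.coeff_map, MvPolynomial.coeff_zero] at h3
    exact h3
  obtain ⟨R, hR⟩ := h1
  have h2 : ev H (x ^ p) (y ^ p) - ev H x y ^ p = (p : ℂ) * ev R x y := by
    rw [ev_eq_aeval, ev_eq_aeval, ev_eq_aeval]
    have h3 := congrArg (MvPolynomial.aeval ![x, y] : MvPolynomial (Fin 2) ℤ →ₐ[ℤ] ℂ) hR
    rw [map_sub, map_pow, map_mul] at h3
    have h4 : (MvPolynomial.aeval ![x, y] : MvPolynomial (Fin 2) ℤ →ₐ[ℤ] ℂ) (MvPolynomial.expand p H) =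
        MvPolynomial.aeval ![x ^ p, y ^ p] H := by
      have h5 : (![x, y] : Fin 2 → ℂ) ^ p = ![x ^ p, y ^ p] := by
        funext i
        fin_cases i <;> rfl
      rw [MvPolynomial.aeval_expand, h5]
    rw [h4] at h3
    rw [h3]
    congr 1
    simp
  rw [h2, map_mul]
  refine mul_le_of_le_one_right (v.nonneg _) ?_
  rw [ev]
  refine val_sum_le hv _ _ zero_le_one fun m _ => ?_
  rw [map_mul, map_mul, map_pow, map_pow]
  exact mul_le_one₀ (mul_le_one₀ (v_int_le hv _) (pow_nonneg (v.nonneg _) _)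
    (pow_le_one₀ (v.nonneg _) hx)) (pow_nonneg (v.nonneg _) _) (pow_le_one₀ (v.nonneg _) hy)

lemma ev_le_one (hv : IsNonarchimedean v) (H : MvPolynomial (Fin 2) ℤ) {x y : ℂ}
    (hx : v x ≤ 1) (hy : v y ≤ 1) : v (ev H x y) ≤ 1 := by
  rw [ev]
  refine val_sum_le hv _ _ zero_le_one fun m _ => ?_
  rw [map_mul, map_mul, map_pow, map_pow]
  exact mul_le_one₀ (mul_le_one₀ (v_int_le hv _) (pow_nonneg (v.nonneg _) _)
    (pow_le_one₀ (v.nonneg _) hx)) (pow_nonneg (v.nonneg _) _) (pow_le_one₀ (v.nonneg _) hy)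

lemma frob (hv : IsNonarchimedean v) {p : ℕ} (hp : p.Prime) (H : MvPolynomial (Fin 2) ℤ) {x y : ℂ}
    (hx : v x ≤ 1) (hy : v y ≤ 1) (k : ℕ) :
    v (ev H (x ^ p ^ k) (y ^ p ^ k) - ev H x y ^ p ^ k) ≤ v (p : ℂ) := by
  induction k with
  | zero => simp
  | succ k ih =>
    have hxk : v (x ^ p ^ k) ≤ 1 := by rw [map_pow]; exact pow_le_one₀ (v.nonneg _) hx
    have hyk : v (y ^ p ^ k) ≤ 1 := by rw [map_pow]; exact pow_le_one₀ (v.nonneg _) hy
    have h1 := frob1 hv hp H hxk hyk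
    rw [← pow_mul, ← pow_mul, ← pow_succ] at h1
    have h2 : v ((ev H (x ^ p ^ k) (y ^ p ^ k)) ^ p - (ev H x y ^ p ^ k) ^ p) ≤ v (p : ℂ) := by
      refine (v_pow_sub_pow_le hv (ev_le_one hv H hxk hyk) ?_ p).trans ih
      rw [map_pow]
      exact pow_le_one₀ (v.nonneg _) (ev_le_one hv H hx hy)
    rw [← pow_mul, ← pow_succ] at h2
    have h3 : ev H (x ^ p ^ (k + 1)) (y ^ p ^ (k + 1)) - ev H x y ^ p ^ (k + 1) =
        (ev H (x ^ p ^ (k + 1)) (y ^ p ^ (k + 1)) - ev H (x ^ p ^ k) (y ^ p ^ k) ^ p) +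
          (ev H (x ^ p ^ k) (y ^ p ^ k) ^ p - ev H x y ^ p ^ (k + 1)) := by ring
    rw [h3]
    exact (hv _ _).trans (max_le h1 h2)

/-- a `p`-power of a rational `p`-unit -/
lemma rat_pow (hv : IsNonarchimedean v) {p : ℕ} (hp : p.Prime) (hvp : v (p : ℂ) < 1) {μ : ℚ}
    (hμ : v (μ : ℂ) = 1) (k : ℕ) : v ((μ : ℂ) ^ p ^ k - μ) ≤ v (p : ℂ) := by
  have := Fact.mk hp
  have hp0 : 0 < v (p : ℂ) := v.pos (by exact_mod_cast hp.ne_zero)
  have hint : ∀ n : ℤ, v ((n : ℂ) ^ p - n) ≤ v (p : ℂ) := by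
    intro n
    obtain ⟨r, hr⟩ : (p : ℤ) ∣ n ^ p - n := by
      rw [← ZMod.intCast_zmod_eq_zero_iff_dvd]
      push_cast
      rw [ZMod.pow_card, sub_self]
    have h1 : (n : ℂ) ^ p - n = (p : ℂ) * (r : ℂ) := by exact_mod_cast congrArg (Int.cast : ℤ → ℂ) hr
    rw [h1, map_mul]
    exact mul_le_of_le_one_right (v.nonneg _) (v_int_le hv _)
  -- the denominator is a unit
  have hunit : ∀ n : ℤ, ¬ (p : ℤ) ∣ n → v (n : ℂ) = 1 := by
    intro n hn
    have hco : IsCoprime (p : ℤ) n := (Nat.prime_iff_prime_int.1 hp).coprime_iff_not_dvd.2 hn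
    obtain ⟨a, b, hab⟩ := hco
    refine le_antisymm (v_int_le hv _) ?_
    by_contra hcon
    push Not at hcon
    have h3 : (a : ℂ) * (p : ℂ) + (b : ℂ) * (n : ℂ) = 1 := by exact_mod_cast hab
    have h4 : v ((a : ℂ) * (p : ℂ) + (b : ℂ) * (n : ℂ)) < 1 := by
      refine lt_of_le_of_lt (hv _ _) (max_lt ?_ ?_)
      · rw [map_mul]
        exact lt_of_le_of_lt (mul_le_of_le_one_left (v.nonneg _) (v_int_le hv _)) hvp
      · rw [map_mul]
        exact lt_of_le_of_lt (mul_le_of_le_one_left (v.nonneg _) (v_int_le hv _)) hcon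
    rw [h3, map_one] at h4
    exact lt_irrefl _ h4
  have hden : v ((μ.den : ℤ) : ℂ) = 1 := by
    by_cases hd : (p : ℤ) ∣ μ.den
    · exfalso
      have hn : ¬ (p : ℤ) ∣ μ.num := by
        intro hn
        have h1 : (p : ℕ) ∣ μ.num.natAbs := Int.natCast_dvd.1 hn
        have h2 : (p : ℕ) ∣ μ.den := by exact_mod_cast hd
        have h3 := Nat.dvd_gcd h1 h2
        rw [μ.reduced] at h3
        exact hp.one_lt.ne' (Nat.dvd_one.1 h3)
      have h1 := hunit _ hn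
      have h2 : (μ : ℂ) * ((μ.den : ℤ) : ℂ) = (μ.num : ℂ) := by
        have := Rat.mul_den_eq_num μ
        exact_mod_cast this
      have h3 := congrArg v h2
      rw [map_mul, hμ, h1, one_mul] at h3
      obtain ⟨r, hr⟩ := hd
      rw [hr] at h3
      push_cast at h3
      rw [map_mul] at h3
      have h4 : v (p : ℂ) * v (r : ℂ) < 1 :=
        lt_of_le_of_lt (mul_le_of_le_one_right (v.nonneg _) (v_int_le hv _)) hvp
      linarith
    · exact hunit _ hd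
  have hnum : v ((μ.num : ℤ) : ℂ) = 1 := by
    have h2 : (μ : ℂ) * ((μ.den : ℤ) : ℂ) = (μ.num : ℂ) := by
      have := Rat.mul_den_eq_num μ
      exact_mod_cast this
    rw [← h2, map_mul, hμ, hden, one_mul]
  have hstep : v ((μ : ℂ) ^ p - μ) ≤ v (p : ℂ) := by
    have hd0 : ((μ.den : ℤ) : ℂ) ≠ 0 := by
      intro h0
      rw [h0, map_zero] at hden
      exact zero_ne_one hden
    have h1 : (μ : ℂ) = ((μ.num : ℤ) : ℂ) / ((μ.den : ℤ) : ℂ) := by
      rw [eq_div_iff hd0]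
      have := Rat.mul_den_eq_num μ
      exact_mod_cast this
    have h2 : (μ : ℂ) ^ p - μ = (((μ.num : ℤ) : ℂ) ^ p - ((μ.num : ℤ) : ℂ)) / ((μ.den : ℤ) : ℂ) ^ p -
        ((μ.num : ℤ) : ℂ) * (((μ.den : ℤ) : ℂ) ^ p - ((μ.den : ℤ) : ℂ)) /
          (((μ.den : ℤ) : ℂ) ^ p * ((μ.den : ℤ) : ℂ)) := by
      rw [h1, div_pow]
      have hdp : ((μ.den : ℤ) : ℂ) ^ p ≠ 0 := pow_ne_zero _ hd0
      field_simp
      ring
    rw [h2]
    refine (v_sub_le hv _ _).trans (max_le ?_ ?_)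
    · rw [map_div₀, map_pow, hden, one_pow, div_one]
      exact hint _
    · rw [map_div₀, map_mul, map_mul, map_pow, hden, hnum, one_pow, one_mul, mul_one, div_one]
      exact hint _
  induction k with
  | zero => simp
  | succ k ih =>
    have h1 : (μ : ℂ) ^ p ^ (k + 1) - μ = (((μ : ℂ) ^ p ^ k) ^ p - (μ : ℂ) ^ p) + ((μ : ℂ) ^ p - μ) := by
      rw [← pow_mul, ← pow_succ]; ring
    rw [h1]
    refine (hv _ _).trans (max_le ?_ hstep)
    exact (v_pow_sub_pow_le hv (by rw [map_pow, hμ, one_pow]) hμ.le p).trans ih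

end Pool.Agent.Helper20.DL
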